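import Pool.Agent.Helper63.SAND.Defs

/-!
Homogeneous prime ideals and linear Noether normalisations (definitions for the recursion on
subvarieties in the determinant method).
-/

open MvPolynomial

namespace Pool.Agent.PW

variable {E : Type*} [Field E] {W : Type*}

/-- `P` is a prime ideal generated by forms, and it does not contain all the variables. -/
structure HP (P : Ideal (MvPolynomial W E)) : Prop where
  prime : P.IsPrime
  hom : ∀ F ∈ P, ∀ k : ℕ, homogeneousComponent k F ∈ P
  rel : ∃ w, X w ∉ P

/-- The linear forms `z 0, ..., z d` are algebraically independent modulo `P`, and all the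
polynomials are integral over them modulo `P`. -/
structure NN (P : Ideal (MvPolynomial W E)) {d : ℕ} (z : Fin (d + 1) → MvPolynomial W E) :
    Prop where
  lin : ∀ i, (z i).IsHomogeneous 1
  inj : ∀ c : MvPolynomial (Fin (d + 1)) E, aeval z c ∈ P → c = 0
  int : ∀ F : MvPolynomial W E, ∃ (k : ℕ) (A : Fin k → MvPolynomial (Fin (d + 1)) E),
    F ^ k + ∑ i, aeval z (A i) * F ^ (i : ℕ) ∈ P

/-- The polynomials `v i` are linearly independent over the polynomials in `z`, modulo `P`. -/
def Ind (P : Ideal (MvPolynomial W E)) {d : ℕ} (z : Fin (d + 1) → MvPolynomial W E) {k : ℕ}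
    (v : Fin k → MvPolynomial W E) : Prop :=
  ∀ c : Fin k → MvPolynomial (Fin (d + 1)) E, ∑ i, aeval z (c i) * v i ∈ P → c = 0

/-- The rank over the polynomials in `z` is at most `e`. -/
def RankLE (P : Ideal (MvPolynomial W E)) {d : ℕ} (z : Fin (d + 1) → MvPolynomial W E) (e : ℕ) :
    Prop :=
  ∀ v : Fin (e + 1) → MvPolynomial W E, ¬ Ind P z v

/-- `N / D` is integral modulo `P`. -/
def IntFrac (P : Ideal (MvPolynomial W E)) (N D : MvPolynomial W E) : Prop :=
  ∃ (k : ℕ) (A : ℕ → MvPolynomial W E), 1 ≤ k ∧
    N ^ k + ∑ i ∈ Finset.range k, A (i + 1) * D ^ (i + 1) * N ^ (k - 1 - i) ∈ P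

/-- `Q` lies over the principal ideal `(p)` of the polynomials in `z`. -/
def Over (P Q : Ideal (MvPolynomial W E)) {d : ℕ} (z : Fin (d + 1) → MvPolynomial W E)
    (p : MvPolynomial (Fin (d + 1)) E) : Prop :=
  Q.IsPrime ∧ P ≤ Q ∧ ∀ c, aeval z c ∈ Q ↔ p ∣ c

/-- The zeros of `P`. -/
def Zeros (P : Ideal (MvPolynomial W E)) : Set (W → E) := {x | ∀ F ∈ P, eval x F = 0}

end Pool.Agent.PW

namespace Pool.Agent.PW

open Pool.Agent.Helper90.KSC Pool.Agent.Helper63.SAND Filter Topology

variable {K : Type*} [Field K] {ι : Type*} [Fintype ι] {N : ι → ℕ}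

/-- The ideal generated by the forms in the Segre coordinates which vanish on `X`. -/
noncomputable def idl (X : Set (PPt K N)) : Ideal (MvPolynomial (SIx N) K) where
  carrier := {F | ∀ k, ∀ x ∈ X, eval (seg x) (homogeneousComponent k F) = 0}
  add_mem' {F G} hF hG k x hx := by
    rw [map_add, map_add, hF k x hx, hG k x hx, add_zero]
  zero_mem' k x _ := by simp
  smul_mem' F G hG k x hx := by
    -- the polynomial in one variable
    set φ : MvPolynomial (SIx N) K →ₐ[K] Polynomial K :=
      aeval fun w => Polynomial.C (seg x w) * Polynomial.X with hφ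
    have hφh : ∀ (F : MvPolynomial (SIx N) K) (k : ℕ), F.IsHomogeneous k →
        φ F = Polynomial.C (eval (seg x) F) * Polynomial.X ^ k := by
      intro F k hF
      rw [hφ, aeval_def, eval₂_eq, eval_eq, map_sum, Finset.sum_mul]
      refine Finset.sum_congr rfl fun s hs => ?_
      have hsk : ∑ i ∈ s.support, s i = k := by
        have := hF (mem_support_iff.1 hs)
        rw [Finsupp.weight_apply] at this
        simpa [Finsupp.sum] using this
      simp only [Polynomial.algebraMap_eq, mul_pow, Finset.prod_mul_distrib, map_mul, map_prod,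
        map_pow]
      rw [Finset.prod_pow_eq_pow_sum, hsk, mul_assoc]
    have hφc : ∀ (F : MvPolynomial (SIx N) K) (k : ℕ), (φ F).coeff k =
        eval (seg x) (homogeneousComponent k F) := by
      intro F k
      conv_lhs => rw [← sum_homogeneousComponent F]
      rw [map_sum, Polynomial.finsetSum_coeff]
      have h1 : ∀ j ∈ Finset.range (F.totalDegree + 1),
          (φ (homogeneousComponent j F)).coeff k = if j = k then
            eval (seg x) (homogeneousComponent j F) else 0 := by
        intro j _
        rw [hφh _ j (homogeneousComponent_isHomogeneous j F), Polynomial.coeff_C_mul,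
          Polynomial.coeff_X_pow]
        by_cases h : k = j
        · simp [h]
        · simp [h, Ne.symm h]
      rw [Finset.sum_congr rfl h1, Finset.sum_ite_eq' (Finset.range (F.totalDegree + 1)) k]
      by_cases hk : k ∈ Finset.range (F.totalDegree + 1)
      · rw [if_pos hk]
      · rw [if_neg hk, homogeneousComponent_eq_zero, map_zero]
        rw [Finset.mem_range] at hk
        omega
    have h0 : φ G = 0 := by
      ext j
      rw [hφc, hG j x hx]
      simp
    rw [← hφc, smul_eq_mul, map_mul, h0, mul_zero, Polynomial.coeff_zero]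

/-- The points of `X` which are zeros of `Q`. -/
def sub (X : Set (PPt K N)) (Q : Ideal (MvPolynomial (SIx N) K)) : Set (PPt K N) :=
  {x | x ∈ X ∧ seg x ∈ Zeros Q}

/-- `Z` has dimension `d` and degree `e` in the Segre embedding: the Hilbert function of `Z`
is asymptotically `e k ^ d / d!`. -/
def HasDegree (Z : Set (PPt K N)) (d e : ℕ) : Prop :=
  Tendsto (fun k : ℕ => (hil (fun x : Z => seg (x : PPt K N)) k : ℝ) * (d.factorial : ℝ) /
    (k : ℝ) ^ d) atTop (𝓝 (e : ℝ))

end Pool.Agent.PW
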