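import Pool.Agent.PW.Defs

/-!
Forms in the Segre coordinates.
-/

open MvPolynomial Filter Topology

namespace Pool.Agent.PW

section Segre

open Pool.Agent.Helper90.KSC Pool.Agent.Helper63.SAND

section Pull

variable {K : Type*} [Field K] {ι : Type*} [Fintype ι] {N : ι → ℕ}

/-- The multihomogeneous polynomial obtained from a form in the Segre coordinates. -/
private noncomputable def segPull (P : MvPolynomial (SIx N) K) :
    MvPolynomial (Σ i, Fin (N i + 1)) K :=
  bind₁ (fun w : SIx N => ∏ i, X (⟨i, w i⟩ : Σ i, Fin (N i + 1))) P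

private theorem segPull_eval (P : MvPolynomial (SIx N) K) (x : PPt K N) :
    eval (fun s : Σ i, Fin (N i + 1) => (x s.1).rep s.2) (segPull P) = eval (seg x) P := by
  have e : (fun w : SIx N => eval (fun s : Σ i, Fin (N i + 1) => (x s.1).rep s.2)
      (∏ i, X (⟨i, w i⟩ : Σ i, Fin (N i + 1)))) = seg x := by
    funext w
    rw [map_prod]
    simp only [eval_X]
    rfl
  unfold segPull
  change eval₂Hom (RingHom.id K) _ (bind₁ _ P) = _
  rw [eval₂Hom_bind₁]
  change eval (fun w : SIx N => eval (fun s : Σ i, Fin (N i + 1) => (x s.1).rep s.2)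
      (∏ i, X (⟨i, w i⟩ : Σ i, Fin (N i + 1)))) P = _
  rw [e]

private theorem segPull_homog [DecidableEq ι] (P : MvPolynomial (SIx N) K) (d : ℕ)
    (hP : P.IsHomogeneous d) :
    (segPull P).IsWeightedHomogeneous
      (fun s : Σ i, Fin (N i + 1) => (Pi.single s.1 1 : ι → ℕ)) (fun _ => d) := by
  classical
  have hX : ∀ w : SIx N, (∏ i, (X (⟨i, w i⟩ : Σ i, Fin (N i + 1)) :
      MvPolynomial (Σ i, Fin (N i + 1)) K)).IsWeightedHomogeneous
      (fun s : Σ i, Fin (N i + 1) => (Pi.single s.1 1 : ι → ℕ)) (fun _ => 1) := by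
    intro w
    have h := IsWeightedHomogeneous.prod (R := K) Finset.univ
      (fun i => (X (⟨i, w i⟩ : Σ i, Fin (N i + 1)) : MvPolynomial (Σ i, Fin (N i + 1)) K))
      (fun i => (Pi.single i 1 : ι → ℕ))
      (w := fun s : Σ i, Fin (N i + 1) => (Pi.single s.1 1 : ι → ℕ))
      (fun i _ => isWeightedHomogeneous_X K _ _)
    have e : ∑ i, (Pi.single i 1 : ι → ℕ) = fun _ => 1 := by
      funext j
      rw [Finset.sum_apply]
      simp [Pi.single_apply]
    rwa [e] at h
  have e : segPull P = ∑ m ∈ P.support, C (P.coeff m) *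
      ∏ w ∈ m.support, (∏ i, (X (⟨i, w i⟩ : Σ i, Fin (N i + 1)) :
        MvPolynomial (Σ i, Fin (N i + 1)) K)) ^ m w := by
    conv_lhs => rw [segPull, P.as_sum]
    rw [map_sum]
    refine Finset.sum_congr rfl fun m _ => ?_
    rw [bind₁_monomial]
  rw [e]
  refine IsWeightedHomogeneous.sum _ _ _ fun m hm => ?_
  refine IsWeightedHomogeneous.C_mul ?_ _
  have h := IsWeightedHomogeneous.prod (R := K) m.support
      (fun w => (∏ i, (X (⟨i, w i⟩ : Σ i, Fin (N i + 1)) :
        MvPolynomial (Σ i, Fin (N i + 1)) K)) ^ m w)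
      (fun w => m w • (fun _ => 1 : ι → ℕ))
      (w := fun s : Σ i, Fin (N i + 1) => (Pi.single s.1 1 : ι → ℕ))
      (fun w _ => (hX w).pow (m w))
  have e2 : ∑ w ∈ m.support, m w • (fun _ => 1 : ι → ℕ) = fun _ => d := by
    funext j
    rw [Finset.sum_apply]
    have h3 : m.degree = d := by
      have h4 := hP (mem_support_iff.mp hm)
      rw [← h4]
      simp [Finsupp.weight_apply, Finsupp.degree, Finsupp.sum]
    rw [← h3]
    simp [Finsupp.degree]
  rwa [e2] at h

end Pull

variable {K : Type*} [Field K] {ι : Type*} [Fintype ι] [DecidableEq ι] {N : ι → ℕ}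

/-- A monomial of multidegree `(k, ..., k)` is a form of degree `k` in the Segre coordinates. -/
private theorem segl_monomial (k : ℕ) (s : (Σ i, Fin (N i + 1)) →₀ ℕ)
    (hs : ∀ i, ∑ j, s ⟨i, j⟩ = k) :
    ∃ F : MvPolynomial (SIx N) K, F.IsHomogeneous k ∧ ∀ y : PPt K N,
      eval (seg y) F = ∏ p : (Σ i, Fin (N i + 1)), (y p.1).rep p.2 ^ s p := by
  induction k generalizing s with
  | zero =>
    refine ⟨1, isHomogeneous_one _ _, fun y => ?_⟩
    rw [map_one, Finset.prod_eq_one]
    rintro ⟨i, j⟩ -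
    have h1 : s ⟨i, j⟩ = 0 := by
      have h2 := hs i
      rw [Finset.sum_eq_zero_iff] at h2
      exact h2 j (Finset.mem_univ _)
    rw [h1, pow_zero]
  | succ k ih =>
    have h1 : ∀ i, ∃ j, s ⟨i, j⟩ ≠ 0 := by
      intro i
      by_contra hcon
      push Not at hcon
      have h2 := hs i
      rw [Finset.sum_eq_zero fun j _ => hcon j] at h2
      omega
    choose w hw using h1
    set s' : (Σ i, Fin (N i + 1)) →₀ ℕ := Finsupp.equivFunOnFinite.symm
      (fun p => if p.2 = w p.1 then s p - 1 else s p) with hs'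
    have hs'1 : ∀ p, s' p = if p.2 = w p.1 then s p - 1 else s p := fun p => rfl
    have hs'2 : ∀ i, ∑ j, s' ⟨i, j⟩ = k := by
      intro i
      have h2 := hs i
      rw [← Finset.add_sum_erase _ _ (Finset.mem_univ (w i))] at h2 ⊢
      have h3 : s' ⟨i, w i⟩ = s ⟨i, w i⟩ - 1 := by rw [hs'1, if_pos rfl]
      have h4 : ∑ j ∈ Finset.univ.erase (w i), s' ⟨i, j⟩ =
          ∑ j ∈ Finset.univ.erase (w i), s ⟨i, j⟩ := by
        refine Finset.sum_congr rfl fun j hj => ?_
        rw [hs'1, if_neg (Finset.ne_of_mem_erase hj)]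
      have h5 := hw i
      rw [h3, h4]
      omega
    obtain ⟨F, hF, hF2⟩ := ih s' hs'2
    refine ⟨X w * F, ?_, fun y => ?_⟩
    · have := (isHomogeneous_X K w).mul hF
      rwa [add_comm 1 k] at this
    · rw [map_mul, eval_X, hF2]
      unfold seg
      rw [Fintype.prod_sigma, Fintype.prod_sigma, ← Finset.prod_mul_distrib]
      refine Finset.prod_congr rfl fun i _ => ?_
      rw [← Finset.mul_prod_erase _ _ (Finset.mem_univ (w i)),
        ← Finset.mul_prod_erase Finset.univ (fun j => (y i).rep j ^ s ⟨i, j⟩)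
          (Finset.mem_univ (w i)), ← mul_assoc]
      congr 1
      · simp only [hs'1, if_true]
        rw [← pow_succ']
        congr 1
        have := hw i
        omega
      · refine Finset.prod_congr rfl fun j hj => ?_
        simp only [hs'1]
        rw [if_neg (Finset.ne_of_mem_erase hj)]

private theorem segl_weight (s : (Σ i, Fin (N i + 1)) →₀ ℕ) (i : ι) :
    Finsupp.weight (fun s : (Σ i, Fin (N i + 1)) => (Pi.single s.1 1 : ι → ℕ)) s i =
      ∑ j, s ⟨i, j⟩ := by
  rw [Finsupp.weight_apply, Finsupp.sum_fintype _ _ (fun p => by simp), Finset.sum_apply,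
    Fintype.sum_sigma]
  rw [Finset.sum_eq_single i]
  · refine Finset.sum_congr rfl fun j _ => ?_
    simp
  · intro i' _ hi'
    refine Finset.sum_eq_zero fun j _ => ?_
    simp [hi'.symm]
  · intro h
    exact absurd (Finset.mem_univ i) h

private theorem segl_form (G : MvPolynomial (Σ i, Fin (N i + 1)) K) (k : ℕ)
    (hG : G.IsWeightedHomogeneous (fun s => Pi.single s.1 1) (fun _ : ι => k)) :
    ∃ F : MvPolynomial (SIx N) K, F.IsHomogeneous k ∧ ∀ y : PPt K N,
      eval (seg y) F = eval (fun s => (y s.1).rep s.2) G := by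
  have h1 : ∀ s : (Σ i, Fin (N i + 1)) →₀ ℕ, ∃ F : MvPolynomial (SIx N) K, s ∈ G.support →
      F.IsHomogeneous k ∧ ∀ y : PPt K N,
        eval (seg y) F = ∏ p : (Σ i, Fin (N i + 1)), (y p.1).rep p.2 ^ s p := by
    intro s
    by_cases hs : s ∈ G.support
    · have h2 : ∀ i, ∑ j, s ⟨i, j⟩ = k := by
        intro i
        rw [← segl_weight s i, hG (mem_support_iff.1 hs)]
      obtain ⟨F, hF⟩ := segl_monomial (K := K) k s h2
      exact ⟨F, fun _ => hF⟩
    · exact ⟨0, fun h => absurd h hs⟩
  choose F hF using h1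
  refine ⟨∑ s ∈ G.support, C (G.coeff s) * F s, ?_, fun y => ?_⟩
  · exact IsHomogeneous.sum _ _ _ fun s hs => (hF s hs).1.C_mul _
  · rw [map_sum, eval_eq']
    refine Finset.sum_congr rfl fun s hs => ?_
    rw [map_mul, eval_C, (hF s hs).2 y]

theorem seglift (G : MvPolynomial (Σ i, Fin (N i + 1)) K) (b : ι → ℕ)
    (hG : G.IsWeightedHomogeneous (fun s => Pi.single s.1 1) b) (x : PPt K N)
    (hx : eval (fun s => (x s.1).rep s.2) G ≠ 0) :
    ∃ (k : ℕ) (F : MvPolynomial (SIx N) K), F.IsHomogeneous k ∧ eval (seg x) F ≠ 0 ∧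
      ∀ y : PPt K N, eval (fun s => (y s.1).rep s.2) G = 0 → eval (seg y) F = 0 := by
  set k := ∑ i, b i with hk
  have hbk : ∀ i, b i ≤ k := fun i =>
    Finset.single_le_sum (f := b) (fun _ _ => Nat.zero_le _) (Finset.mem_univ i)
  have h : ∀ i, ∃ j, (x i).rep j ≠ 0 := fun i => Function.ne_iff.mp (x i).rep_nonzero
  choose w hw using h
  set G' : MvPolynomial (Σ i, Fin (N i + 1)) K := G * ∏ i, X ⟨i, w i⟩ ^ (k - b i) with hG'
  have hG'h : G'.IsWeightedHomogeneous (fun s => Pi.single s.1 1) (fun _ : ι => k) := by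
    have h1 := IsWeightedHomogeneous.prod (R := K) Finset.univ
      (fun i => (X (⟨i, w i⟩ : Σ i, Fin (N i + 1)) : MvPolynomial (Σ i, Fin (N i + 1)) K) ^ (k - b i))
      (fun i => (k - b i) • (Pi.single i 1 : ι → ℕ))
      (w := fun s : Σ i, Fin (N i + 1) => (Pi.single s.1 1 : ι → ℕ))
      (fun i _ => (isWeightedHomogeneous_X K _ _).pow _)
    have h2 := hG.mul h1
    have h3 : b + ∑ i, (k - b i) • (Pi.single i 1 : ι → ℕ) = fun _ : ι => k := by
      funext i
      rw [Pi.add_apply, Finset.sum_apply, Finset.sum_eq_single i]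
      · simp only [Pi.smul_apply, Pi.single_eq_same, smul_eq_mul, mul_one]
        have := hbk i
        omega
      · intro i' _ hi'
        simp [hi'.symm]
      · intro h
        exact absurd (Finset.mem_univ i) h
    rwa [h3] at h2
  obtain ⟨F, hF, hF2⟩ := segl_form G' k hG'h
  refine ⟨k, F, hF, ?_, fun y hy => ?_⟩
  · rw [hF2, hG', map_mul, map_prod]
    refine mul_ne_zero hx (Finset.prod_ne_zero_iff.2 fun i _ => ?_)
    rw [map_pow, eval_X]
    exact pow_ne_zero _ (hw i)
  · rw [hF2, hG', map_mul, hy, zero_mul]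

theorem segrel (v : SIx N → K) (hv : v ≠ 0)
    (hq : ∀ F : MvPolynomial (SIx N) K, F.IsHomogeneous 2 →
      (∀ x : PPt K N, eval (seg x) F = 0) → eval v F = 0) :
    ∃ (x : PPt K N) (c : K), c ≠ 0 ∧ v = c • seg x := by
  have hswap : ∀ (w w' : SIx N) (i : ι), v w * v w' =
      v (Function.update w i (w' i)) * v (Function.update w' i (w i)) := by
    intro w w' i
    have h1 := hq (X w * X w' - X (Function.update w i (w' i)) * X (Function.update w' i (w i)))
      (((isHomogeneous_X K w).mul (isHomogeneous_X K w')).sub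
        ((isHomogeneous_X K _).mul (isHomogeneous_X K _))) ?_
    · rw [map_sub, map_mul, map_mul, eval_X, eval_X, eval_X, eval_X, sub_eq_zero] at h1
      exact h1
    · intro x
      rw [map_sub, map_mul, map_mul, eval_X, eval_X, eval_X, eval_X, sub_eq_zero]
      unfold seg
      rw [← Finset.prod_mul_distrib, ← Finset.prod_mul_distrib]
      refine Finset.prod_congr rfl fun j _ => ?_
      by_cases hj : j = i
      · subst hj
        simp [mul_comm]
      · simp [hj]
  obtain ⟨w0, hw0⟩ := Function.ne_iff.1 hv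
  have hw0' : v w0 ≠ 0 := hw0
  have hclaim : ∀ (w : SIx N) (s : Finset ι),
      v (fun i => if i ∈ s then w i else w0 i) * v w0 ^ s.card =
        v w0 * ∏ i ∈ s, v (Function.update w0 i (w i)) := by
    intro w s
    induction s using Finset.induction_on with
    | empty => simp
    | insert i s hi ih =>
      have h1 := hswap (fun j => if j ∈ insert i s then w j else w0 j) w0 i
      have h2 : Function.update (fun j => if j ∈ insert i s then w j else w0 j) i (w0 i) =
          (fun j => if j ∈ s then w j else w0 j) := by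
        funext j
        by_cases hj : j = i
        · subst hj
          simp [hi]
        · simp [hj]
      have h3 : (if i ∈ insert i s then w i else w0 i) = w i := by simp
      rw [h2, h3] at h1
      rw [Finset.card_insert_of_notMem hi, Finset.prod_insert hi, pow_succ']
      calc v (fun j => if j ∈ insert i s then w j else w0 j) * (v w0 * v w0 ^ s.card)
          = (v (fun j => if j ∈ insert i s then w j else w0 j) * v w0) * v w0 ^ s.card := by ring
        _ = (v (fun j => if j ∈ s then w j else w0 j) * v w0 ^ s.card) *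
              v (Function.update w0 i (w i)) := by rw [h1]; ring
        _ = _ := by rw [ih]; ring
  have hxne : ∀ i, (fun j => v (Function.update w0 i j)) ≠ 0 := by
    intro i h
    have := congrFun h (w0 i)
    rw [Function.update_eq_self] at this
    exact hw0' this
  have hrep : ∀ i, ∃ a : Kˣ, a • (fun j => v (Function.update w0 i j)) =
      (Projectivization.mk K _ (hxne i)).rep := fun i =>
    Projectivization.exists_smul_eq_mk_rep K _ (hxne i)
  choose a ha using hrep
  have hseg : ∀ w, seg (fun i => Projectivization.mk K _ (hxne i)) w =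
      (∏ i, (a i : K)) * ∏ i, v (Function.update w0 i (w i)) := by
    intro w
    unfold seg
    rw [← Finset.prod_mul_distrib]
    refine Finset.prod_congr rfl fun i _ => ?_
    rw [← ha i]
    rfl
  have hA : (∏ i, (a i : K)) ≠ 0 := Finset.prod_ne_zero_iff.2 fun i _ => (a i).ne_zero
  have hm : v w0 ^ (Finset.univ : Finset ι).card ≠ 0 := pow_ne_zero _ hw0'
  refine ⟨fun i => Projectivization.mk K _ (hxne i),
    v w0 / (v w0 ^ (Finset.univ : Finset ι).card * ∏ i, (a i : K)),
    div_ne_zero hw0' (mul_ne_zero hm hA), ?_⟩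
  funext w
  rw [Pi.smul_apply, smul_eq_mul, hseg]
  have h1 := hclaim w Finset.univ
  simp only [Finset.mem_univ, if_true] at h1
  rw [div_mul_eq_mul_div, eq_div_iff (mul_ne_zero hm hA)]
  calc v w * (v w0 ^ (Finset.univ : Finset ι).card * ∏ i, (a i : K))
      = (v w * v w0 ^ (Finset.univ : Finset ι).card) * ∏ i, (a i : K) := by ring
    _ = _ := by rw [h1]; ring

theorem sub_closed (X : Set (PPt K N)) (hX : ZClosed X) (Q : Ideal (MvPolynomial (SIx N) K))
    (hQ : ∀ F ∈ Q, ∀ k : ℕ, homogeneousComponent k F ∈ Q) : ZClosed (sub X Q) := by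
  obtain ⟨S, hS, rfl⟩ := hX
  refine ⟨S ∪ {G | ∃ F ∈ Q, ∃ k : ℕ, G = segPull (homogeneousComponent k F)}, ?_, ?_⟩
  · rintro G (hG | ⟨F, hF, k, rfl⟩)
    · exact hS G hG
    · exact ⟨_, segPull_homog _ k (homogeneousComponent_isHomogeneous k F)⟩
  · ext x
    constructor
    · rintro ⟨h1, h2⟩ G (hG | ⟨F, hF, k, rfl⟩)
      · exact h1 G hG
      · rw [segPull_eval]
        exact h2 _ (hQ F hF k)
    · intro h
      refine ⟨fun G hG => h G (Or.inl hG), fun F hF => ?_⟩
      rw [← sum_homogeneousComponent F, map_sum]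
      refine Finset.sum_eq_zero fun k _ => ?_
      have := h _ (Or.inr ⟨F, hF, k, rfl⟩)
      rwa [segPull_eval] at this

end Segre

end Pool.Agent.PW
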