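import Pool.Agent.PW.Segl
import Pool.Agent.Helper63.SAND.Seg

/-!
The Nullstellensatz for subsets of products of projective spaces.
-/

open MvPolynomial Filter Topology

namespace Pool.Agent.PW

section Segre

open Pool.Agent.Helper90.KSC Pool.Agent.Helper63.SAND

variable {K : Type*} [Field K] {ι : Type*} [Fintype ι] [DecidableEq ι] {N : ι → ℕ}

omit [Fintype ι] [DecidableEq ι] in
private theorem comp_self {F : MvPolynomial (SIx N) K} {k : ℕ} (hF : F.IsHomogeneous k) (j : ℕ) :
    homogeneousComponent j F = if j = k then F else 0 :=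
  homogeneousComponent_of_mem (mem_homogeneousSubmodule _ _ |>.mpr hF)

private theorem mem_idl_of_hom {X : Set (PPt K N)} {F : MvPolynomial (SIx N) K} {k : ℕ}
    (hF : F.IsHomogeneous k) : F ∈ idl X ↔ ∀ x ∈ X, eval (seg x) F = 0 := by
  constructor
  · intro h x hx
    have h1 : eval (seg x) (homogeneousComponent k F) = 0 := h k x hx
    rwa [comp_self hF, if_pos rfl] at h1
  · intro h j x hx
    rw [comp_self hF]
    split_ifs
    · exact h x hx
    · exact map_zero _

omit [Fintype ι] [DecidableEq ι] in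
private theorem eval_smul {F : MvPolynomial (SIx N) K} {k : ℕ} (hF : F.IsHomogeneous k) (c : K)
    (v : SIx N → K) : eval (c • v) F = c ^ k * eval v F := by
  rw [eval_eq, eval_eq, Finset.mul_sum]
  refine Finset.sum_congr rfl fun s hs => ?_
  have hsk : ∑ i ∈ s.support, s i = k := by
    have := hF (mem_support_iff.1 hs)
    rw [Finsupp.weight_apply] at this
    simpa [Finsupp.sum] using this
  simp only [Pi.smul_apply, smul_eq_mul, mul_pow, Finset.prod_mul_distrib]
  rw [Finset.prod_pow_eq_pow_sum, hsk]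
  ring

attribute [local instance] MvPolynomial.gradedAlgebra in
theorem idl_HP (X : Set (PPt K N)) (hX : Irred X) : HP (idl X) := by
  have hhom : ∀ F ∈ idl X, ∀ k : ℕ, homogeneousComponent k F ∈ idl X := by
    intro F hF k
    rw [mem_idl_of_hom (homogeneousComponent_isHomogeneous k F)]
    exact fun x hx => hF k x hx
  obtain ⟨x0, hx0⟩ := hX.1
  refine ⟨?_, hhom, ?_⟩
  · apply Ideal.IsHomogeneous.isPrime_of_homogeneous_mem_or_mem
      (𝒜 := homogeneousSubmodule (SIx N) K)
    · intro i F hF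
      have h1 : (DirectSum.decompose (homogeneousSubmodule (SIx N) K) F i :
          MvPolynomial (SIx N) K) = homogeneousComponent i F :=
        decomposition.decompose'_apply F i
      rw [h1]
      exact hhom F hF i
    · intro h
      have h1 : (1 : MvPolynomial (SIx N) K) ∈ idl X := by rw [h]; trivial
      rw [mem_idl_of_hom (isHomogeneous_one _ _)] at h1
      have := h1 x0 hx0
      rw [map_one] at this
      exact one_ne_zero this
    · rintro F G ⟨i, hF⟩ ⟨j, hG⟩ hFG
      rw [mem_homogeneousSubmodule] at hF hG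
      rw [mem_idl_of_hom (hF.mul hG)] at hFG
      rcases primeH_seg X hX F G i j hF hG (fun x => hFG x x.2) with h | h
      · exact Or.inl ((mem_idl_of_hom hF).mpr fun x hx => h ⟨x, hx⟩)
      · exact Or.inr ((mem_idl_of_hom hG).mpr fun x hx => h ⟨x, hx⟩)
  · obtain ⟨w, hw⟩ := Function.ne_iff.mp (seg_ne_zero x0)
    refine ⟨w, fun h => hw ?_⟩
    rw [mem_idl_of_hom (isHomogeneous_X _ _)] at h
    have := h x0 hx0
    rwa [eval_X] at this

theorem null [IsAlgClosed K] (X : Set (PPt K N)) (hX : ZClosed X)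
    (Q : Ideal (MvPolynomial (SIx N) K)) (hQ : HP Q) (hXQ : idl X ≤ Q)
    (F : MvPolynomial (SIx N) K) (k : ℕ) (hF : F.IsHomogeneous k) :
    (∀ x ∈ sub X Q, eval (seg x) F = 0) ↔ F ∈ Q := by
  constructor
  · intro h
    by_contra hFQ
    have := hQ.prime
    obtain ⟨w, hw⟩ := hQ.rel
    have h1 : F * MvPolynomial.X w ∉ Q := fun h => (hQ.prime.mem_or_mem h).elim hFQ hw
    rw [← MvPolynomial.IsPrime.vanishingIdeal_zeroLocus (K := K) Q, mem_vanishingIdeal_iff] at h1
    push Not at h1
    obtain ⟨v, hv, hv1⟩ := h1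
    rw [mem_zeroLocus_iff] at hv
    have hv2 : ∀ G ∈ Q, eval v G = 0 := fun G hG => by
      have := hv G hG
      rwa [aeval_eq_eval] at this
    rw [aeval_eq_eval] at hv1
    change eval v (F * MvPolynomial.X w) ≠ 0 at hv1
    rw [map_mul, eval_X] at hv1
    have hvF := left_ne_zero_of_mul hv1
    have hv0 : v ≠ 0 := by
      rintro rfl
      exact right_ne_zero_of_mul hv1 rfl
    obtain ⟨x, c, hc, rfl⟩ := segrel v hv0 fun G hG hGx =>
      hv2 G (hXQ ((mem_idl_of_hom hG).mpr fun x _ => hGx x))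
    have hev : ∀ (G : MvPolynomial (SIx N) K) (j : ℕ), G.IsHomogeneous j → G ∈ Q →
        eval (seg x) G = 0 := by
      intro G j hG hGQ
      have h2 := hv2 G hGQ
      rw [eval_smul hG] at h2
      exact (mul_eq_zero.mp h2).resolve_left (pow_ne_zero _ hc)
    have hxX : x ∈ X := by
      obtain ⟨S, hS1, hS2⟩ := hX
      rw [hS2]
      intro G hG
      by_contra hGx
      obtain ⟨b, hb⟩ := hS1 G hG
      obtain ⟨j, G', hG1, hG2, hG3⟩ := seglift G b hb x hGx
      apply hG2
      apply hev G' j hG1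
      apply hXQ
      rw [mem_idl_of_hom hG1]
      intro y hy
      rw [hS2] at hy
      exact hG3 y (hy G hG)
    have hxZ : seg x ∈ Zeros Q := by
      intro G hG
      rw [← sum_homogeneousComponent G, map_sum]
      refine Finset.sum_eq_zero fun j _ => ?_
      exact hev _ j (homogeneousComponent_isHomogeneous j G) (hQ.hom G hG j)
    rw [eval_smul hF, h x ⟨hxX, hxZ⟩, mul_zero] at hvF
    exact hvF rfl
  · intro h x hx
    exact hx.2 F h

theorem sub_irred [IsAlgClosed K] (X : Set (PPt K N)) (hX : ZClosed X)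
    (Q : Ideal (MvPolynomial (SIx N) K)) (hQ : HP Q) (hXQ : idl X ≤ Q) : Irred (sub X Q) := by
  constructor
  · by_contra h
    rw [Set.not_nonempty_iff_eq_empty] at h
    have h1 := (null X hX Q hQ hXQ 1 0 (isHomogeneous_one _ _)).mp (by
      rw [h]
      exact fun x hx => absurd hx (Set.notMem_empty x))
    exact hQ.prime.ne_top ((Ideal.eq_top_iff_one Q).mpr h1)
  · rintro E₁ E₂ ⟨S1, hS1, rfl⟩ ⟨S2, hS2, rfl⟩ hE
    by_contra hc
    push Not at hc
    obtain ⟨hc1, hc2⟩ := hc
    rw [Set.not_subset] at hc1 hc2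
    obtain ⟨x1, hx1, h1⟩ := hc1
    obtain ⟨x2, hx2, h2⟩ := hc2
    rw [Set.mem_ofPred_eq] at h1 h2
    push Not at h1 h2
    obtain ⟨G1, hG1, hG1x⟩ := h1
    obtain ⟨G2, hG2, hG2x⟩ := h2
    obtain ⟨b1, hb1⟩ := hS1 G1 hG1
    obtain ⟨b2, hb2⟩ := hS2 G2 hG2
    obtain ⟨k1, F1, hF1, hF1x, hF1y⟩ := seglift G1 b1 hb1 x1 hG1x
    obtain ⟨k2, F2, hF2, hF2x, hF2y⟩ := seglift G2 b2 hb2 x2 hG2x
    have h3 : F1 * F2 ∈ Q := by
      rw [← null X hX Q hQ hXQ (F1 * F2) (k1 + k2) (hF1.mul hF2)]
      intro y hy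
      rw [map_mul]
      rcases hE hy with h | h
      · rw [hF1y y (h G1 hG1), zero_mul]
      · rw [hF2y y (h G2 hG2), mul_zero]
    rcases hQ.prime.mem_or_mem h3 with h | h
    · exact hF1x (hx1.2 F1 h)
    · exact hF2x (hx2.2 F2 h)

end Segre

end Pool.Agent.PW
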