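import Pool.Agent.PW.Minp

/-!
The discriminant of a basis of monomials.
-/

open MvPolynomial Filter Topology

namespace Pool.Agent.PW

section ring

variable {A R : Type*} [CommRing A] [IsDomain A] [IsIntegrallyClosed A] [CharZero A]
  [CommRing R] [IsDomain R] [Algebra A R] [FaithfulSMul A R] [Algebra.IsIntegral A R]

/-- The discriminant of an extension of domains. -/
theorem discr_ring {e : ℕ} (m : Fin e → R) (hm : LinearIndependent A m)
    (hr : ∀ v : Fin (e + 1) → R, ¬ LinearIndependent A v) :
    ∃ τ : R → A, (∀ x : R, ∃ n : ℕ, τ x = -(n • (minpoly A x).nextCoeff)) ∧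
      (Matrix.of fun i j => τ (m i * m j)).det ≠ 0 ∧
      ∀ N D : R, D ≠ 0 → (∃ (k : ℕ) (a : ℕ → R), 1 ≤ k ∧
        N ^ k + ∑ i ∈ Finset.range k, a (i + 1) * D ^ (i + 1) * N ^ (k - 1 - i) = 0) →
        ∃ r : Fin e → A, algebraMap A R (Matrix.of fun i j => τ (m i * m j)).det * N =
          (∑ i, algebraMap A R (r i) * m i) * D := by
  classical
  let K := FractionRing A
  let L := FractionRing R
  let _ : Algebra K L := FractionRing.liftAlgebra A L
  have : IsScalarTower A K L := FractionRing.isScalarTower_liftAlgebra A L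
  have : CharZero K := charZero_of_injective_algebraMap (IsFractionRing.injective A K)
  have hRL : Function.Injective (algebraMap R L) := IsFractionRing.injective R L
  have hAK : Function.Injective (algebraMap A K) := IsFractionRing.injective A K
  have hint : ∀ x : R, IsIntegral A x := fun x => Algebra.IsIntegral.isIntegral x
  have hintL : ∀ x : R, IsIntegral A (algebraMap R L x) := fun x => (hint x).algebraMap
  have hintK : ∀ x : R, IsIntegral K (algebraMap R L x) := fun x => (hintL x).tower_top
  -- linear independence over K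
  have hli : ∀ {n : ℕ} (v : Fin n → R), LinearIndependent A v ↔
      LinearIndependent K (fun i => algebraMap R L (v i)) := by
    intro n v
    rw [← LinearIndependent.iff_fractionRing A K]
    have h1 := LinearMap.linearIndependent_iff_of_injOn (R := A) (v := v)
      (IsScalarTower.toAlgHom A R L).toLinearMap (hRL.injOn)
    exact h1.symm
  have hmK := (hli m).1 hm
  set m' : Fin e → L := fun i => algebraMap R L (m i) with hm'
  -- the span
  have hspanR : ∀ r : R, algebraMap R L r ∈ Submodule.span K (Set.range m') := by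
    intro r
    by_contra hcon
    apply hr (Fin.snoc m r)
    rw [hli]
    have h1 : (fun i => algebraMap R L ((Fin.snoc m r : Fin (e + 1) → R) i)) =
        (Fin.snoc m' (algebraMap R L r) : Fin (e + 1) → L) := by
      funext i
      refine Fin.lastCases ?_ (fun j => ?_) i
      · simp
      · simp [hm']
    rw [h1]
    exact linearIndependent_finSnoc.2 ⟨hmK, hcon⟩
  have hspan : ⊤ ≤ Submodule.span K (Set.range m') := by
    intro x _
    obtain ⟨r, s, hs, rfl⟩ := IsFractionRing.div_surjective (A := R) x
    have h1 := (hintK s).inv_mem_adjoin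
    rw [Algebra.adjoin_singleton_eq_range_aeval] at h1
    obtain ⟨p, hp⟩ := h1
    have hp' : Polynomial.aeval (algebraMap R L s) p = (algebraMap R L s)⁻¹ := hp
    rw [div_eq_mul_inv, ← hp', Polynomial.aeval_eq_sum_range, Finset.mul_sum]
    refine Submodule.sum_mem _ fun i _ => ?_
    rw [mul_smul_comm, ← map_pow, ← map_mul]
    exact Submodule.smul_mem _ _ (hspanR _)
  let b : Module.Basis (Fin e) K L := Module.Basis.mk hmK hspan
  have hb : ∀ i, b i = algebraMap R L (m i) := fun i => by
    simp [b, hm']
  have : FiniteDimensional K L := Module.Finite.of_basis b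
  -- the traces
  have hτ0 : ∀ x : L, IsIntegral A x → ∃ a : A, algebraMap A K a = Algebra.trace K L x := by
    intro x hx
    exact IsIntegrallyClosed.isIntegral_iff.1 (Algebra.isIntegral_trace (L := K) hx)
  choose τ hτ using fun x : R => hτ0 _ (hintL x)
  set M : Matrix (Fin e) (Fin e) A := Matrix.of fun i j => τ (m i * m j) with hM
  have hMK : (algebraMap A K).mapMatrix M = Algebra.traceMatrix K b := by
    ext i j
    rw [RingHom.mapMatrix_apply, Matrix.map_apply, hM, Matrix.of_apply, hτ, map_mul,
      Algebra.traceMatrix_apply, Algebra.traceForm_apply, hb, hb]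
  refine ⟨τ, fun x => ?_, ?_, ?_⟩
  · refine ⟨Module.finrank (IntermediateField.adjoin K {algebraMap R L x}) L, ?_⟩
    apply hAK
    rw [hτ, trace_eq_finrank_mul_minpoly_nextCoeff,
      minpoly.isIntegrallyClosed_eq_field_fractions K L (hint x),
      Polynomial.nextCoeff_map hAK, map_neg, nsmul_eq_mul, map_mul, map_natCast]
    ring
  · intro h0
    have h1 := congrArg (algebraMap A K) h0
    rw [RingHom.map_det, hMK, map_zero, ← Algebra.discr_def] at h1
    exact Algebra.discr_not_zero_of_basis K b h1
  · rintro N D hD ⟨k, a, hk, hrel⟩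
    have hD' : algebraMap R L D ≠ 0 := fun h => hD (hRL (by rw [h, map_zero]))
    set u : L := algebraMap R L N / algebraMap R L D with hu
    -- u is integral
    have huR : IsIntegral R u := by
      refine ⟨Polynomial.X ^ k + ∑ i : Fin k, Polynomial.C (a (k - i)) * Polynomial.X ^ (i : ℕ),
        Polynomial.monic_X_pow_add (Polynomial.degree_sum_fin_lt _), ?_⟩
      rw [Polynomial.eval₂_add, Polynomial.eval₂_pow, Polynomial.eval₂_X,
        Polynomial.eval₂_finsetSum]
      simp only [Polynomial.eval₂_mul, Polynomial.eval₂_C, Polynomial.eval₂_pow,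
        Polynomial.eval₂_X]
      have h1 := congrArg (algebraMap R L) hrel
      rw [map_zero, map_add, map_pow, map_sum, ← Finset.sum_range_reflect] at h1
      have h2 : ∀ i ∈ Finset.range k, algebraMap R L (a (k - 1 - i + 1) * D ^ (k - 1 - i + 1) *
          N ^ (k - 1 - (k - 1 - i))) =
          algebraMap R L D ^ k * (algebraMap R L (a (k - i)) * u ^ i) := by
        intro i hi
        rw [Finset.mem_range] at hi
        rw [show k - 1 - i + 1 = k - i by omega, show k - 1 - (k - 1 - i) = i by omega, map_mul,
          map_mul, map_pow, map_pow, hu, div_pow]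
        have h3 : algebraMap R L D ^ k = algebraMap R L D ^ (k - i) * algebraMap R L D ^ i := by
          rw [← pow_add, Nat.sub_add_cancel hi.le]
        have h5 : algebraMap R L D ^ i ≠ 0 := pow_ne_zero _ hD'
        rw [h3, show ∀ x y z w : L, x * y * (z * (w / y)) = z * x * (y * (w / y)) from
          fun x y z w => by ring, mul_div_cancel₀ _ h5]
      rw [Finset.sum_congr rfl h2, ← Finset.mul_sum] at h1
      have h4 : algebraMap R L N ^ k = algebraMap R L D ^ k * u ^ k := by
        rw [hu, div_pow, mul_div_cancel₀ _ (pow_ne_zero k hD')]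
      rw [h4, ← mul_add] at h1
      have h5 := (mul_eq_zero.1 h1).resolve_left (pow_ne_zero k hD')
      rw [Finset.sum_range] at h5
      exact h5
    have huA : IsIntegral A u := isIntegral_trans u huR
    choose s hs using fun j : Fin e => hτ0 (u * algebraMap R L (m j)) (huA.mul (hintL (m j)))
    refine ⟨Matrix.vecMul s M.adjugate, ?_⟩
    apply hRL
    -- the coordinates of `u`
    have hc : ∀ j, algebraMap A K (s j) = ∑ i, b.repr u i * algebraMap A K (M i j) := by
      intro j
      have h1 := congrArg (fun x => Algebra.trace K L (x * algebraMap R L (m j))) (b.sum_repr u)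
      simp only [Finset.sum_mul, map_sum, smul_mul_assoc, map_smul, smul_eq_mul] at h1
      rw [hs, ← h1]
      refine Finset.sum_congr rfl fun i _ => ?_
      rw [hM, Matrix.of_apply, hτ, (algebraMap R L).map_mul, hb]
    have hd : ∀ i, algebraMap A K ((Matrix.vecMul s M.adjugate) i) =
        algebraMap A K M.det * b.repr u i := by
      intro i
      rw [Matrix.vecMul, dotProduct, map_sum]
      simp only [map_mul, hc, Finset.sum_mul]
      rw [Finset.sum_comm]
      have h1 : ∀ l : Fin e, ∑ x : Fin e, b.repr u l * algebraMap A K (M l x) *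
          algebraMap A K (M.adjugate x i) = b.repr u l * algebraMap A K ((M * M.adjugate) l i) := by
        intro l
        rw [Matrix.mul_apply, map_sum, Finset.mul_sum]
        refine Finset.sum_congr rfl fun x _ => ?_
        rw [map_mul, mul_assoc]
      rw [Finset.sum_congr rfl fun l _ => h1 l, Matrix.mul_adjugate]
      simp only [Matrix.smul_apply, Matrix.one_apply, smul_eq_mul, mul_ite, mul_one, mul_zero]
      rw [Finset.sum_eq_single i]
      · rw [if_pos rfl, mul_comm]
      · intro l _ hl
        rw [if_neg hl, map_zero, mul_zero]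
      · intro h
        exact absurd (Finset.mem_univ i) h
    have hND : algebraMap R L N = u * algebraMap R L D := by
      rw [hu, div_mul_cancel₀ _ hD']
    have hsum : ∑ i, algebraMap A L ((Matrix.vecMul s M.adjugate) i) * algebraMap R L (m i) =
        algebraMap A L M.det * u := by
      have h1 := b.sum_repr u
      conv_rhs => rw [← h1, Finset.mul_sum]
      refine Finset.sum_congr rfl fun i _ => ?_
      rw [IsScalarTower.algebraMap_apply A K L, hd, map_mul, ← IsScalarTower.algebraMap_apply A K L,
        hb, Algebra.smul_def, mul_assoc]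
    rw [map_mul, map_mul, map_sum]
    simp only [map_mul, ← IsScalarTower.algebraMap_apply A R L]
    rw [hsum, hND, mul_assoc]

end ring

section main

variable {E : Type*} [Field E] {W : Type*}

theorem discr_ind {P : Ideal (MvPolynomial W E)} {d : ℕ} {z : Fin (d + 1) → MvPolynomial W E}
    {k : ℕ} (v : Fin k → MvPolynomial W E) :
    Ind P z v ↔ @LinearIndependent (Fin k) (MvPolynomial (Fin (d + 1)) E)
      (MvPolynomial W E ⧸ P) (fun i => Ideal.Quotient.mk P (v i)) _ _
      (minpPhi P z).toAlgebra.toModule := by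
  let _ : Algebra (MvPolynomial (Fin (d + 1)) E) (MvPolynomial W E ⧸ P) :=
    (minpPhi P z).toAlgebra
  let _ : Module (MvPolynomial (Fin (d + 1)) E) (MvPolynomial W E ⧸ P) :=
    (minpPhi P z).toAlgebra.toModule
  have hsm : ∀ (c : MvPolynomial (Fin (d + 1)) E) (x : MvPolynomial W E ⧸ P),
      c • x = minpPhi P z c * x := fun c x => Algebra.smul_def c x
  rw [Fintype.linearIndependent_iff]
  constructor
  · intro h g hg i
    refine congrFun (h g ?_) i
    rw [← Ideal.Quotient.eq_zero_iff_mem, map_sum]
    simpa only [map_mul, hsm, minpPhi_apply] using hg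
  · intro h c hc
    funext i
    refine h c ?_ i
    rw [← Ideal.Quotient.eq_zero_iff_mem, map_sum] at hc
    simpa only [map_mul, hsm, minpPhi_apply] using hc

/-- The minimal polynomial of a form has the second coefficient of the degree of the form. -/
theorem discr_next (P : Ideal (MvPolynomial W E)) (hP : HP P) {d : ℕ}
    (z : Fin (d + 1) → MvPolynomial W E) (hz : NN P z) (e : ℕ) (he : RankLE P z e)
    (F : MvPolynomial W E) (D : ℕ) (hF : F.IsHomogeneous D) :
    (@minpoly (MvPolynomial (Fin (d + 1)) E) (MvPolynomial W E ⧸ P) _ _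
      (minpPhi P z).toAlgebra (Ideal.Quotient.mk P F)).nextCoeff.IsHomogeneous D := by
  have _ := hP.prime
  obtain ⟨k, hk, hke, A, hA, hrel, hind⟩ := minp P hP z hz e he F D hF
  let _ : Algebra (MvPolynomial (Fin (d + 1)) E) (MvPolynomial W E ⧸ P) :=
    (minpPhi P z).toAlgebra
  have hmap : algebraMap (MvPolynomial (Fin (d + 1)) E) (MvPolynomial W E ⧸ P) =
    minpPhi P z := rfl
  have _ : FaithfulSMul (MvPolynomial (Fin (d + 1)) E) (MvPolynomial W E ⧸ P) :=
    (faithfulSMul_iff_algebraMap_injective _ _).2 (minpPhi_inj hz)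
  set x : MvPolynomial W E ⧸ P := Ideal.Quotient.mk P F with hx
  have hint : IsIntegral (MvPolynomial (Fin (d + 1)) E) x := minpPhi_int hz x
  have hmon := minpoly.monic hint
  set q : Polynomial (MvPolynomial (Fin (d + 1)) E) := Polynomial.X ^ k + ∑ i : Fin k,
    Polynomial.C (A i) * Polynomial.X ^ (i : ℕ) with hq
  have hqm : q.Monic := Polynomial.monic_X_pow_add (Polynomial.degree_sum_fin_lt A)
  have hqd : q.natDegree = k := by
    rw [hq, Polynomial.natDegree_add_eq_left_of_degree_lt, Polynomial.natDegree_X_pow]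
    rw [Polynomial.degree_X_pow]
    exact Polynomial.degree_sum_fin_lt A
  have hqx : Polynomial.aeval x q = 0 := by
    rw [hq, map_add, map_pow, Polynomial.aeval_X, map_sum]
    simp only [map_mul, Polynomial.aeval_C, map_pow, Polynomial.aeval_X, hmap, minpPhi_apply]
    rw [← Ideal.Quotient.eq_zero_iff_mem, map_add, map_sum] at hrel
    simpa only [map_mul, map_pow] using hrel
  have hdvd := minpoly.isIntegrallyClosed_dvd hint hqx
  have hdeg : k ≤ (minpoly (MvPolynomial (Fin (d + 1)) E) x).natDegree := by
    by_contra hcon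
    push Not at hcon
    set μ := minpoly (MvPolynomial (Fin (d + 1)) E) x with hμ
    have h1 := hind (fun i : Fin k => μ.coeff i) (by
      have h2 := minpoly.aeval (MvPolynomial (Fin (d + 1)) E) x
      rw [← hμ, Polynomial.aeval_eq_sum_range' hcon, Finset.sum_range] at h2
      rw [← Ideal.Quotient.eq_zero_iff_mem, map_sum]
      simpa only [map_mul, map_pow, Algebra.smul_def, hmap, minpPhi_apply] using h2)
    have h3 := congrFun h1 ⟨μ.natDegree, hcon⟩
    have h4 : μ.coeff μ.natDegree = 0 := h3
    rw [hmon.coeff_natDegree] at h4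
    exact one_ne_zero h4
  have hμq : minpoly (MvPolynomial (Fin (d + 1)) E) x = q := by
    refine (Polynomial.eq_of_monic_of_dvd_of_natDegree_le hmon hqm hdvd ?_).symm
    rw [hqd]
    exact hdeg
  rw [hμq]
  rw [Polynomial.nextCoeff_of_natDegree_pos (by omega), hqd, hq, Polynomial.coeff_add,
    Polynomial.coeff_X_pow, if_neg (by omega), zero_add, Polynomial.finsetSum_coeff]
  simp only [Polynomial.coeff_C_mul_X_pow]
  rw [Finset.sum_eq_single ⟨k - 1, by omega⟩]
  · rw [if_pos rfl]
    have h1 := hA ⟨k - 1, by omega⟩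
    have h2 : D * (k - (k - 1)) = D := by
      rw [show k - (k - 1) = 1 by omega, mul_one]
    simp only [h2] at h1
    exact h1
  · intro j _ hj
    rw [if_neg]
    intro h
    exact hj (Fin.ext h.symm)
  · intro h
    exact absurd (Finset.mem_univ _) h

theorem discr [CharZero E] [Finite W] (P : Ideal (MvPolynomial W E)) (hP : HP P) {d : ℕ}
    (z : Fin (d + 1) → MvPolynomial W E) (hz : NN P z) (e : ℕ) (he : RankLE P z e)
    (m : Fin e → (W →₀ ℕ)) (hm : ∀ i, (m i).degree ≤ i)
    (hI : Ind P z fun i => monomial (m i) (1 : E)) :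
    ∃ (c₀ : ℕ) (Δ : MvPolynomial (Fin (d + 1)) E), c₀ ≤ e * e ∧ Δ.IsHomogeneous c₀ ∧ Δ ≠ 0 ∧
      ∀ N D : MvPolynomial W E, D ∉ P → IntFrac P N D →
        ∃ r : Fin e → MvPolynomial (Fin (d + 1)) E,
          aeval z Δ * N - (∑ i, aeval z (r i) * monomial (m i) (1 : E)) * D ∈ P := by
  have _ := hP.prime
  let _ : Algebra (MvPolynomial (Fin (d + 1)) E) (MvPolynomial W E ⧸ P) :=
    (minpPhi P z).toAlgebra
  have hmap : algebraMap (MvPolynomial (Fin (d + 1)) E) (MvPolynomial W E ⧸ P) =
    minpPhi P z := rfl
  have _ : FaithfulSMul (MvPolynomial (Fin (d + 1)) E) (MvPolynomial W E ⧸ P) :=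
    (faithfulSMul_iff_algebraMap_injective _ _).2 (minpPhi_inj hz)
  have _ : Algebra.IsIntegral (MvPolynomial (Fin (d + 1)) E) (MvPolynomial W E ⧸ P) :=
    ⟨fun x => minpPhi_int hz x⟩
  obtain ⟨τ, hτ1, hτ2, hτ3⟩ := discr_ring (A := MvPolynomial (Fin (d + 1)) E)
    (R := MvPolynomial W E ⧸ P)
    (fun i : Fin e => Ideal.Quotient.mk P (monomial (m i) (1 : E)))
    ((discr_ind _).1 hI) (fun v hv => by
      choose w hw using fun i => Ideal.Quotient.mk_surjective (v i)
      apply he w
      rw [discr_ind]
      have h1 : (fun i => Ideal.Quotient.mk P (w i)) = v := funext hw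
      rw [h1]
      exact hv)
  set M : Matrix (Fin e) (Fin e) (MvPolynomial (Fin (d + 1)) E) :=
    Matrix.of fun i j => τ (Ideal.Quotient.mk P (monomial (m i) (1 : E)) *
      Ideal.Quotient.mk P (monomial (m j) (1 : E))) with hM
  have hhom : ∀ i j, (M i j).IsHomogeneous ((m i).degree + (m j).degree) := by
    intro i j
    rw [hM, Matrix.of_apply, ← map_mul, monomial_mul, mul_one]
    have h1 := discr_next P hP z hz e he (monomial (m i + m j) (1 : E))
      ((m i).degree + (m j).degree) (by
        apply isHomogeneous_monomial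
        rw [map_add])
    obtain ⟨n, hn⟩ := hτ1 (Ideal.Quotient.mk P (monomial (m i + m j) (1 : E)))
    rw [hn, ← neg_nsmul]
    exact Submodule.smul_of_tower_mem (homogeneousSubmodule _ _ _) n (Submodule.neg_mem _ h1)
  refine ⟨∑ i, (m i).degree + ∑ i, (m i).degree, M.det, ?_, ?_, hτ2, ?_⟩
  · have h1 : ∑ i, (m i).degree ≤ ∑ i : Fin e, (i : ℕ) := Finset.sum_le_sum fun i _ => hm i
    have h2 : ∑ i : Fin e, (i : ℕ) = ∑ i ∈ Finset.range e, i := by
      rw [Finset.sum_range]
    have h3 := Finset.sum_range_id_mul_two e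
    have h4 : e * (e - 1) ≤ e * e := Nat.mul_le_mul_left _ (Nat.sub_le _ _)
    omega
  · rw [Matrix.det_apply]
    apply IsHomogeneous.sum
    intro σ _
    have h1 : (∏ i, M (σ i) i).IsHomogeneous (∑ i, (m i).degree + ∑ i, (m i).degree) := by
      have h2 := IsHomogeneous.prod Finset.univ (fun i => M (σ i) i)
        (fun i => (m (σ i)).degree + (m i).degree) (fun i _ => hhom _ _)
      rw [Finset.sum_add_distrib, Equiv.sum_comp σ fun i => (m i).degree] at h2
      exact h2
    rcases Int.units_eq_one_or (Equiv.Perm.sign σ) with h | h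
    · rw [h, one_smul]
      exact h1
    · rw [h, Units.neg_smul, one_smul]
      exact (mem_homogeneousSubmodule _ _).1
        (Submodule.neg_mem _ ((mem_homogeneousSubmodule _ _).2 h1))
  · rintro N D hD ⟨k, A, hk, hA⟩
    obtain ⟨r, hr⟩ := hτ3 (Ideal.Quotient.mk P N) (Ideal.Quotient.mk P D)
      (fun h => hD (Ideal.Quotient.eq_zero_iff_mem.1 h))
      ⟨k, fun i => Ideal.Quotient.mk P (A i), hk, by
        rw [← Ideal.Quotient.eq_zero_iff_mem, map_add, map_sum] at hA
        simpa only [map_mul, map_pow] using hA⟩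
    refine ⟨r, ?_⟩
    rw [← Ideal.Quotient.eq_zero_iff_mem, map_sub, map_mul, map_mul, map_sum, sub_eq_zero]
    simpa only [map_mul, hmap, minpPhi_apply] using hr

end main

end Pool.Agent.PW
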