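import Pool.Agent.PW.Basis
import Pool.Agent.PW.Discr

/-!
The uniform conductor.
-/

open MvPolynomial Filter Topology

namespace Pool.Agent.PW

variable {E : Type*} [Field E] {W : Type*}

/-- the components of a product with a form -/
theorem conde_comp (R D : MvPolynomial W E) {e k : ℕ} (hD : D.IsHomogeneous e) :
    homogeneousComponent (k + e) (R * D) = homogeneousComponent k R * D := by
  conv_lhs => rw [← sum_homogeneousComponent R]
  rw [Finset.sum_mul, map_sum]
  have h1 : ∀ i ∈ Finset.range (R.totalDegree + 1),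
      homogeneousComponent (k + e) (homogeneousComponent i R * D) =
        if i = k then homogeneousComponent i R * D else 0 := by
    intro i _
    have h2 : (homogeneousComponent i R * D).IsHomogeneous (i + e) :=
      (homogeneousComponent_isHomogeneous i R).mul hD
    rw [homogeneousComponent_of_mem (mem_homogeneousSubmodule (i + e) _ |>.2 h2)]
    by_cases h : i = k
    · simp [h]
    · rw [if_neg h, if_neg (by omega)]
  rw [Finset.sum_congr rfl h1, Finset.sum_ite_eq' (Finset.range (R.totalDegree + 1)) k]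
  by_cases hk : k ∈ Finset.range (R.totalDegree + 1)
  · rw [if_pos hk]
  · rw [if_neg hk, homogeneousComponent_eq_zero, zero_mul]
    rw [Finset.mem_range] at hk
    omega

theorem conde [CharZero E] [Finite W] (P : Ideal (MvPolynomial W E)) (hP : HP P) {d : ℕ}
    (z : Fin (d + 1) → MvPolynomial W E) (hz : NN P z) (e : ℕ) (he : RankLE P z e) :
    ∃ (c₀ : ℕ) (Θ : MvPolynomial W E), c₀ ≤ e * e ∧ Θ.IsHomogeneous c₀ ∧ Θ ∉ P ∧
      ∀ (b e₁ : ℕ) (N D : MvPolynomial W E), N.IsHomogeneous (b + e₁) → D.IsHomogeneous e₁ →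
        D ∉ P → IntFrac P N D →
        ∃ Q : MvPolynomial W E, Q.IsHomogeneous (b + c₀) ∧ Θ * N - Q * D ∈ P := by
  obtain ⟨e', _, h2, he', m, hm, hI⟩ := basis P hP.prime z hz e he
  obtain ⟨c₀, Δ, hc, hΔ, hΔ0, hr⟩ := discr P hP z hz e' he' m hm hI
  have hΘ : (aeval z Δ).IsHomogeneous c₀ := by
    have := hΔ.aeval z hz.lin
    simpa using this
  refine ⟨c₀, aeval z Δ, hc.trans (Nat.mul_le_mul h2 h2), hΘ, fun h => hΔ0 (hz.inj _ h), ?_⟩
  intro b e₁ N D hN hD hDP hI
  obtain ⟨r, hr⟩ := hr N D hDP hI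
  set R : MvPolynomial W E := ∑ i, aeval z (r i) * monomial (m i) (1 : E) with hR
  refine ⟨homogeneousComponent (b + c₀) R, homogeneousComponent_isHomogeneous _ _, ?_⟩
  have h3 := hP.hom _ hr (b + c₀ + e₁)
  rw [map_sub, conde_comp R D hD] at h3
  have h4 : (aeval z Δ * N).IsHomogeneous (b + c₀ + e₁) := by
    have := hΘ.mul hN
    rwa [show c₀ + (b + e₁) = b + c₀ + e₁ by ring] at this
  rw [homogeneousComponent_of_mem (mem_homogeneousSubmodule (b + c₀ + e₁) _ |>.2 h4),
    if_pos rfl] at h3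
  exact h3

end Pool.Agent.PW
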