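import Pool.Agent.PW.Discr

/-!
Dimension and degree from the Hilbert function.
-/

open MvPolynomial Filter Topology

namespace Pool.Agent.PW

variable {E : Type*} [Field E] {W : Type*}

private theorem deg_finrank (E : Type*) [Field E] (d j : ℕ) :
    Module.finrank E (homogeneousSubmodule (Fin (d + 1)) E j) = (d + j).choose j := by
  classical
  rw [homogeneousSubmodule_eq_finsupp_supported]
  rw [(AddMonoidAlgebra.supportedEquivFinsupp (R := E) (S := E)
    {s : Fin (d + 1) →₀ ℕ | s.degree = j}).finrank_eq]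
  have h1 : {s : Fin (d + 1) →₀ ℕ | s.degree = j} =
      ((Finset.finsuppAntidiag (Finset.univ : Finset (Fin (d + 1))) j : Finset (Fin (d + 1) →₀ ℕ)) :
        Set (Fin (d + 1) →₀ ℕ)) := by
    ext s
    rw [Set.mem_ofPred_eq, Finset.mem_coe, Finset.mem_finsuppAntidiag, Finsupp.degree_eq_sum]
    simp
  rw [h1]
  have h2 := Finset.card_finsuppAntidiag_nat_eq_choose (s := (Finset.univ : Finset (Fin (d + 1)))) j
  rw [Finset.card_univ, Fintype.card_fin] at h2
  rw [Module.finrank_finsupp_self]
  simp only [Finset.coe_sort_coe, Fintype.card_coe]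
  rw [h2]
  congr 1
  omega

private theorem deg_hc_mul {σ : Type*} (G H : MvPolynomial σ E) (l : ℕ) (hH : H.IsHomogeneous l)
    (n : ℕ) (hln : l ≤ n) :
    homogeneousComponent n (G * H) = homogeneousComponent (n - l) G * H := by
  conv_lhs => rw [← sum_homogeneousComponent G, Finset.sum_mul, map_sum]
  have h1 : ∀ j ∈ Finset.range (G.totalDegree + 1),
      homogeneousComponent n (homogeneousComponent j G * H) =
        if j = n - l then homogeneousComponent j G * H else 0 := by
    intro j _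
    rw [homogeneousComponent_of_mem ((homogeneousComponent_isHomogeneous j G).mul hH)]
    by_cases h : n = j + l
    · rw [if_pos h, if_pos (by omega)]
    · rw [if_neg h, if_neg (by omega)]
  rw [Finset.sum_congr rfl h1, Finset.sum_ite_eq' (Finset.range (G.totalDegree + 1)) (n - l)]
  by_cases hk : n - l ∈ Finset.range (G.totalDegree + 1)
  · rw [if_pos hk]
  · rw [if_neg hk, homogeneousComponent_eq_zero, zero_mul]
    rw [Finset.mem_range] at hk
    omega

private theorem deg_hc_aeval {d : ℕ} (z : Fin (d + 1) → MvPolynomial W E)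
    (hz : ∀ i, (z i).IsHomogeneous 1) (c : MvPolynomial (Fin (d + 1)) E) (n : ℕ) :
    homogeneousComponent n (aeval z c) = aeval z (homogeneousComponent n c) := by
  conv_lhs => rw [← sum_homogeneousComponent c, map_sum, map_sum]
  have h1 : ∀ j ∈ Finset.range (c.totalDegree + 1),
      homogeneousComponent n (aeval z (homogeneousComponent j c)) =
        if j = n then aeval z (homogeneousComponent j c) else 0 := by
    intro j _
    have h2 : (aeval z (homogeneousComponent j c)).IsHomogeneous j := by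
      have := (homogeneousComponent_isHomogeneous j c).aeval z hz
      rwa [one_mul] at this
    rw [homogeneousComponent_of_mem h2]
    by_cases h : n = j
    · rw [if_pos h, if_pos h.symm]
    · rw [if_neg h, if_neg (Ne.symm h)]
  rw [Finset.sum_congr rfl h1, Finset.sum_ite_eq' (Finset.range (c.totalDegree + 1)) n]
  by_cases hk : n ∈ Finset.range (c.totalDegree + 1)
  · rw [if_pos hk]
  · rw [if_neg hk, homogeneousComponent_eq_zero, map_zero]
    rw [Finset.mem_range] at hk
    omega

private noncomputable def degEv {Ω : Type*} (a : Ω → W → E) : MvPolynomial W E →ₗ[E] (Ω → E) :=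
  LinearMap.pi fun x => (aeval (a x)).toLinearMap

private theorem degEv_apply {Ω : Type*} (a : Ω → W → E) (F : MvPolynomial W E) (x : Ω) :
    degEv a F x = eval (a x) F := by
  simp only [degEv, LinearMap.pi_apply, AlgHom.toLinearMap_apply]
  rw [aeval_eq_eval]

open Pool.Agent.Helper63.SAND in
private theorem degEv_eq_zero {Ω : Type*} (a : Ω → W → E) (F : MvPolynomial W E) :
    degEv a F = 0 ↔ Van a F := by
  constructor
  · intro h x
    rw [← degEv_apply, h]
    rfl
  · intro h
    funext x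
    rw [degEv_apply]
    exact h x

/-- `c ↦ ∑ c i (z) m i` on the forms `c i` of degree `n - |m i|`. -/
private noncomputable def degPhi {d : ℕ} (z : Fin (d + 1) → MvPolynomial W E) {e : ℕ}
    (m : Fin e → (W →₀ ℕ)) (n : ℕ) :
    (∀ i : Fin e, homogeneousSubmodule (Fin (d + 1)) E (n - (m i).degree)) →ₗ[E]
      MvPolynomial W E :=
  ∑ i, (LinearMap.mulRight E (monomial (m i) (1 : E))) ∘ₗ (aeval z).toLinearMap ∘ₗ
    (Submodule.subtype _) ∘ₗ (LinearMap.proj i)

private theorem degPhi_apply {d : ℕ} (z : Fin (d + 1) → MvPolynomial W E) {e : ℕ}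
    (m : Fin e → (W →₀ ℕ)) (n : ℕ)
    (c : ∀ i : Fin e, homogeneousSubmodule (Fin (d + 1)) E (n - (m i).degree)) :
    degPhi z m n c = ∑ i, aeval z (c i : MvPolynomial (Fin (d + 1)) E) *
      monomial (m i) (1 : E) := by
  simp [degPhi]

private theorem degPhi_hom {d : ℕ} (z : Fin (d + 1) → MvPolynomial W E)
    (hz : ∀ i, (z i).IsHomogeneous 1) {e : ℕ}
    (m : Fin e → (W →₀ ℕ)) (n : ℕ) (hn : ∀ i, (m i).degree ≤ n)
    (c : ∀ i : Fin e, homogeneousSubmodule (Fin (d + 1)) E (n - (m i).degree)) :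
    (degPhi z m n c).IsHomogeneous n := by
  rw [degPhi_apply]
  refine IsHomogeneous.sum _ _ _ fun i _ => ?_
  have h1 := (((c i).2 : IsHomogeneous _ _).aeval z hz).mul
    (isHomogeneous_monomial (d := m i) (1 : E) rfl)
  rw [one_mul] at h1
  have h2 : n - (m i).degree + (m i).degree = n := Nat.sub_add_cancel (hn i)
  rwa [h2] at h1

private theorem deg_pi_finrank (d : ℕ) {e : ℕ} (l : Fin e → ℕ) :
    Module.finrank E (∀ i : Fin e, homogeneousSubmodule (Fin (d + 1)) E (l i)) =
      ∑ i, (d + l i).choose (l i) := by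
  have hf : ∀ i, Module.Finite E (homogeneousSubmodule (Fin (d + 1)) E (l i)) := fun i =>
    Module.Finite.iff_fg.2 (homogeneousSubmodule_fg (Fin (d + 1)) E (l i))
  rw [Module.finrank_pi_fintype]
  exact Finset.sum_congr rfl fun i _ => deg_finrank E d (l i)

open Pool.Agent.Helper63.SAND in
private theorem deg_lower [Finite W] (P : Ideal (MvPolynomial W E)) {d : ℕ}
    (z : Fin (d + 1) → MvPolynomial W E) (hz : NN P z) {e : ℕ}
    (m : Fin e → (W →₀ ℕ)) (hI : Ind P z fun i => monomial (m i) (1 : E))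
    {Ω : Type*} (a : Ω → W → E)
    (ha : ∀ (F : MvPolynomial W E) (k : ℕ), F.IsHomogeneous k → (Van a F ↔ F ∈ P))
    (n : ℕ) (hn : ∀ i, (m i).degree ≤ n) :
    ∑ i, (d + (n - (m i).degree)).choose (n - (m i).degree) ≤ hil a n := by
  have hfin : Module.Finite E (formsOn a n) := by
    have h1 : Module.Finite E (homogeneousSubmodule W E n) :=
      Module.Finite.iff_fg.2 (homogeneousSubmodule_fg W E n)
    unfold formsOn
    infer_instance
  rw [← deg_pi_finrank (E := E) d (fun i => n - (m i).degree)]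
  unfold hil
  have hmem : ∀ c, (degEv a ∘ₗ degPhi z m n) c ∈ formsOn a n := by
    intro c
    exact ⟨degPhi z m n c, degPhi_hom z hz.lin m n hn c, rfl⟩
  refine LinearMap.finrank_le_finrank_of_injective
    (f := LinearMap.codRestrict (formsOn a n) (degEv a ∘ₗ degPhi z m n) hmem) ?_
  rw [← LinearMap.ker_eq_bot, LinearMap.ker_codRestrict, LinearMap.ker_eq_bot']
  intro c hc
  rw [LinearMap.comp_apply, degEv_eq_zero, ha _ n (degPhi_hom z hz.lin m n hn c),
    degPhi_apply] at hc
  have h1 := hI _ hc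
  funext i
  exact Subtype.ext (congrFun h1 i)

open Pool.Agent.Helper63.SAND in
private theorem deg_upper [CharZero E] [Finite W] (P : Ideal (MvPolynomial W E)) (hP : HP P)
    {d : ℕ} (z : Fin (d + 1) → MvPolynomial W E) (hz : NN P z) (e : ℕ)
    (m : Fin e → (W →₀ ℕ)) {Ω : Type*} (a : Ω → W → E)
    (ha : ∀ (F : MvPolynomial W E) (k : ℕ), F.IsHomogeneous k → (Van a F ↔ F ∈ P))
    (c₀ : ℕ) (Δ : MvPolynomial (Fin (d + 1)) E) (hΔ : Δ.IsHomogeneous c₀) (hΔ0 : Δ ≠ 0)
    (hD : ∀ N D : MvPolynomial W E, D ∉ P → IntFrac P N D →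
        ∃ r : Fin e → MvPolynomial (Fin (d + 1)) E,
          aeval z Δ * N - (∑ i, aeval z (r i) * monomial (m i) (1 : E)) * D ∈ P)
    (k : ℕ) (hk : ∀ i, (m i).degree ≤ k + c₀) :
    hil a k ≤ ∑ i, (d + (k + c₀ - (m i).degree)).choose (k + c₀ - (m i).degree) := by
  have hΔh : (aeval z Δ).IsHomogeneous c₀ := by
    have := hΔ.aeval z hz.lin
    rwa [one_mul] at this
  have hmem : ∀ F : MvPolynomial W E, F.IsHomogeneous k →
      ∃ c, degEv a (aeval z Δ * F) = (degEv a ∘ₗ degPhi z m (k + c₀)) c := by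
    intro F hF
    have h1 : (1 : MvPolynomial W E) ∉ P := fun h => hP.prime.ne_top ((Ideal.eq_top_iff_one _).2 h)
    obtain ⟨r, hr⟩ := hD F 1 h1 ⟨1, fun _ => -F, le_rfl, by simp⟩
    rw [mul_one] at hr
    have h2 := hP.hom _ hr (k + c₀)
    have h3 : homogeneousComponent (k + c₀) (aeval z Δ * F) = aeval z Δ * F := by
      rw [homogeneousComponent_of_mem (hΔh.mul hF), if_pos (by ring)]
    rw [map_sub, map_sum, h3] at h2
    have h4 : ∀ i : Fin e, homogeneousComponent (k + c₀) (aeval z (r i) * monomial (m i) (1 : E)) =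
        aeval z (homogeneousComponent (k + c₀ - (m i).degree) (r i)) * monomial (m i) (1 : E) := by
      intro i
      rw [deg_hc_mul _ _ _ (isHomogeneous_monomial (d := m i) (1 : E) rfl) _ (hk i),
        deg_hc_aeval z hz.lin]
    rw [Finset.sum_congr rfl fun i _ => h4 i] at h2
    refine ⟨fun i => ⟨homogeneousComponent (k + c₀ - (m i).degree) (r i),
      homogeneousComponent_isHomogeneous _ _⟩, ?_⟩
    rw [LinearMap.comp_apply, ← sub_eq_zero, ← map_sub, degEv_eq_zero, degPhi_apply,
      ha _ (k + c₀)]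
    · exact h2
    · refine IsHomogeneous.sub ?_ ?_
      · have := hΔh.mul hF
        rwa [add_comm c₀ k] at this
      · have := degPhi_hom z hz.lin m (k + c₀) hk (fun i => ⟨homogeneousComponent (k + c₀ - (m i).degree) (r i),
          homogeneousComponent_isHomogeneous _ _⟩)
        rwa [degPhi_apply] at this
  have hmul : ∀ F : MvPolynomial W E, degEv a (aeval z Δ * F) = degEv a (aeval z Δ) * degEv a F := by
    intro F
    funext x
    rw [Pi.mul_apply, degEv_apply, degEv_apply, degEv_apply, map_mul]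
  set T := LinearMap.range (degEv a ∘ₗ degPhi z m (k + c₀)) with hT
  have hfinpi : Module.Finite E
      (∀ i : Fin e, homogeneousSubmodule (Fin (d + 1)) E (k + c₀ - (m i).degree)) := by
    have hf : ∀ i : Fin e, Module.Finite E
        (homogeneousSubmodule (Fin (d + 1)) E (k + c₀ - (m i).degree)) := fun i =>
      Module.Finite.iff_fg.2 (homogeneousSubmodule_fg (Fin (d + 1)) E _)
    infer_instance
  have hfinT : Module.Finite E T := by
    rw [hT]
    infer_instance
  have hT1 : Module.finrank E T ≤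
      ∑ i, (d + (k + c₀ - (m i).degree)).choose (k + c₀ - (m i).degree) := by
    rw [← deg_pi_finrank (E := E) d (fun i => k + c₀ - (m i).degree)]
    exact LinearMap.finrank_range_le _
  refine le_trans ?_ hT1
  unfold hil
  have hmem' : ∀ f : formsOn a k,
      (LinearMap.mulLeft E (degEv a (aeval z Δ)) ∘ₗ (formsOn a k).subtype) f ∈ T := by
    rintro ⟨f, F, hF, rfl⟩
    obtain ⟨c, hc⟩ := hmem F hF
    refine ⟨c, ?_⟩
    rw [← hc, hmul]
    rfl
  refine LinearMap.finrank_le_finrank_of_injective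
    (f := LinearMap.codRestrict T _ hmem') ?_
  rw [← LinearMap.ker_eq_bot, LinearMap.ker_codRestrict, LinearMap.ker_eq_bot']
  rintro ⟨f, F, hF, rfl⟩ hf
  have h5 : degEv a (aeval z Δ * F) = 0 := by
    rw [hmul]
    exact hf
  rw [degEv_eq_zero, ha _ _ (hΔh.mul hF)] at h5
  rcases hP.prime.mem_or_mem h5 with h6 | h6
  · exact absurd (hz.inj _ h6) hΔ0
  · rw [← ha _ k hF, ← degEv_eq_zero] at h6
    exact Subtype.ext h6

private theorem deg_choose_lower (d j : ℕ) :
    ((j : ℝ)) ^ d ≤ ((d + j).choose j : ℝ) * (d.factorial : ℝ) := by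
  have h1 := Nat.ascFactorial_eq_factorial_mul_choose j d
  have h2 := Nat.pow_succ_le_ascFactorial (j + 1) d
  rw [h1] at h2
  have h3 : (d + j).choose j = (j + d).choose d := by
    rw [add_comm d j, Nat.choose_symm_add]
  rw [h3]
  calc ((j : ℝ)) ^ d ≤ ((j : ℝ) + 1) ^ d := by gcongr; linarith
    _ ≤ (d.factorial : ℝ) * ((j + d).choose d : ℝ) := by exact_mod_cast h2
    _ = _ := by ring

private theorem deg_choose_upper (d j : ℕ) :
    ((d + j).choose j : ℝ) * (d.factorial : ℝ) ≤ ((j : ℝ) + d) ^ d := by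
  have h1 := Nat.ascFactorial_eq_factorial_mul_choose j d
  have h2 := Nat.ascFactorial_le_pow_add j d
  rw [h1] at h2
  have h3 : (d + j).choose j = (j + d).choose d := by
    rw [add_comm d j, Nat.choose_symm_add]
  rw [h3]
  calc ((j + d).choose d : ℝ) * (d.factorial : ℝ) = (d.factorial : ℝ) * ((j + d).choose d : ℝ) := by
        ring
    _ ≤ _ := by exact_mod_cast h2

private theorem deg_tendsto (e d : ℕ) (s : ℝ) :
    Tendsto (fun k : ℕ => (e : ℝ) * (((k : ℝ) + s) / k) ^ d) atTop (𝓝 (e : ℝ)) := by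
  have h1 : Tendsto (fun k : ℕ => ((k : ℝ) + s) / k) atTop (𝓝 1) := by
    have h2 : Tendsto (fun k : ℕ => 1 + s / (k : ℝ)) atTop (𝓝 (1 + 0)) :=
      tendsto_const_nhds.add (tendsto_const_div_atTop_nhds_zero_nat s)
    rw [add_zero] at h2
    refine h2.congr' ?_
    filter_upwards [eventually_gt_atTop 0] with k hk
    have : (k : ℝ) ≠ 0 := by positivity
    field_simp
  have h3 := (h1.pow d).const_mul (e : ℝ)
  simpa using h3

open Pool.Agent.Helper63.SAND in
theorem hil_limit [CharZero E] [Finite W] (P : Ideal (MvPolynomial W E)) (hP : HP P) {d : ℕ}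
    (z : Fin (d + 1) → MvPolynomial W E) (hz : NN P z) (e : ℕ) (he : RankLE P z e)
    (m : Fin e → (W →₀ ℕ)) (hI : Ind P z fun i => monomial (m i) (1 : E))
    (hmin : ∀ i, (m i).degree ≤ i)
    {Ω : Type*} (a : Ω → W → E)
    (ha : ∀ (F : MvPolynomial W E) (k : ℕ), F.IsHomogeneous k → (Van a F ↔ F ∈ P)) :
    Tendsto (fun k : ℕ => (hil a k : ℝ) * (d.factorial : ℝ) / (k : ℝ) ^ d) atTop (𝓝 (e : ℝ)) := by
  obtain ⟨c₀, Δ, -, hΔ, hΔ0, hD⟩ := discr P hP z hz e he m hmin hI
  have hme : ∀ i, (m i).degree ≤ e := fun i => (hmin i).trans i.2.le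
  refine tendsto_of_tendsto_of_tendsto_of_le_of_le' (deg_tendsto e d (-(e : ℝ)))
    (deg_tendsto e d ((c₀ : ℝ) + d)) ?_ ?_
  · filter_upwards [eventually_gt_atTop e] with k hk
    have hk0 : (0 : ℝ) < k := by
      have : 0 < k := by omega
      exact_mod_cast this
    have h1 := deg_lower P z hz m hI a ha k (fun i => (hme i).trans hk.le)
    rw [div_pow, mul_div_assoc']
    refine div_le_div_of_nonneg_right ?_ (by positivity)
    have h2 : (∑ i : Fin e, ((d + (k - (m i).degree)).choose (k - (m i).degree) : ℝ)) ≤ hil a k := by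
      exact_mod_cast h1
    calc (e : ℝ) * ((k : ℝ) + -(e : ℝ)) ^ d = ∑ i : Fin e, ((k : ℝ) + -(e : ℝ)) ^ d := by simp
      _ ≤ ∑ i : Fin e, ((d + (k - (m i).degree)).choose (k - (m i).degree) : ℝ) *
          (d.factorial : ℝ) := by
        refine Finset.sum_le_sum fun i _ => ?_
        refine le_trans ?_ (deg_choose_lower d (k - (m i).degree))
        have h3 : ((k : ℝ) + -(e : ℝ)) ≤ ((k - (m i).degree : ℕ) : ℝ) := by
          rw [Nat.cast_sub ((hme i).trans hk.le)]
          have : ((m i).degree : ℝ) ≤ e := by exact_mod_cast hme i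
          linarith
        have h4 : 0 ≤ (k : ℝ) + -(e : ℝ) := by
          have : (e : ℝ) < k := by exact_mod_cast hk
          linarith
        exact pow_le_pow_left₀ h4 h3 d
      _ = (∑ i : Fin e, ((d + (k - (m i).degree)).choose (k - (m i).degree) : ℝ)) *
          (d.factorial : ℝ) := by rw [Finset.sum_mul]
      _ ≤ _ := by gcongr
  · filter_upwards [eventually_gt_atTop e] with k hk
    have hk0 : (0 : ℝ) < k := by
      have : 0 < k := by omega
      exact_mod_cast this
    have h1 := deg_upper P hP z hz e m a ha c₀ Δ hΔ hΔ0 hD k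
      (fun i => ((hme i).trans hk.le).trans (Nat.le_add_right _ _))
    rw [div_pow, mul_div_assoc']
    refine div_le_div_of_nonneg_right ?_ (by positivity)
    have h2 : (hil a k : ℝ) ≤ ∑ i : Fin e,
        ((d + (k + c₀ - (m i).degree)).choose (k + c₀ - (m i).degree) : ℝ) := by
      exact_mod_cast h1
    calc (hil a k : ℝ) * (d.factorial : ℝ) ≤ (∑ i : Fin e,
        ((d + (k + c₀ - (m i).degree)).choose (k + c₀ - (m i).degree) : ℝ)) *
          (d.factorial : ℝ) := by gcongr
      _ = ∑ i : Fin e, ((d + (k + c₀ - (m i).degree)).choose (k + c₀ - (m i).degree) : ℝ) *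
          (d.factorial : ℝ) := by rw [Finset.sum_mul]
      _ ≤ ∑ i : Fin e, ((k : ℝ) + ((c₀ : ℝ) + d)) ^ d := by
        refine Finset.sum_le_sum fun i _ => ?_
        refine (deg_choose_upper d _).trans ?_
        have h3 : ((k + c₀ - (m i).degree : ℕ) : ℝ) ≤ (k : ℝ) + c₀ := by
          have : k + c₀ - (m i).degree ≤ k + c₀ := Nat.sub_le _ _
          exact_mod_cast this
        refine pow_le_pow_left₀ (by positivity) ?_ d
        linarith
      _ = (e : ℝ) * ((k : ℝ) + ((c₀ : ℝ) + d)) ^ d := by simp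

end Pool.Agent.PW
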