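import Pool.Agent.PW.Defs

/-!
Linear Noether normalisation.
-/

open MvPolynomial Filter Topology

namespace Pool.Agent.PW

variable {E : Type*} [Field E] {W : Type*}

/-- the class of the value at the forms `y` -/
noncomputable def noethPhi (P : Ideal (MvPolynomial W E)) {m : ℕ}
    (y : Fin m → MvPolynomial W E) : MvPolynomial (Fin m) E →+* MvPolynomial W E ⧸ P :=
  (Ideal.Quotient.mk P).comp (aeval y : MvPolynomial (Fin m) E →ₐ[E] MvPolynomial W E).toRingHom

lemma noethPhi_apply (P : Ideal (MvPolynomial W E)) {m : ℕ}
    (y : Fin m → MvPolynomial W E) (c : MvPolynomial (Fin m) E) :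
    noethPhi P y c = Ideal.Quotient.mk P (aeval y c) := rfl

/-- degree and top coefficient of a product of linear polynomials -/
lemma noeth_prod {R ι : Type*} [CommRing R] (s : Finset ι) (f : ι → Polynomial R) (b : ι → R)
    (hf : ∀ i, (f i).natDegree ≤ 1) (hb : ∀ i, (f i).coeff 1 = b i) (n : ι → ℕ) :
    (∏ i ∈ s, f i ^ n i).natDegree ≤ ∑ i ∈ s, n i ∧
      (∏ i ∈ s, f i ^ n i).coeff (∑ i ∈ s, n i) = ∏ i ∈ s, b i ^ n i := by
  classical
  induction s using Finset.induction_on with
  | empty => simp
  | insert a s ha ih =>
    rw [Finset.prod_insert ha, Finset.sum_insert ha, Finset.prod_insert ha]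
    have h1 : (f a ^ n a).natDegree ≤ n a := by
      simpa using Polynomial.natDegree_pow_le_of_le (n a) (hf a)
    have h2 : (f a ^ n a).coeff (n a) = b a ^ n a := by
      have := Polynomial.coeff_pow_of_natDegree_le (m := n a) (hf a)
      rw [mul_one, hb a] at this
      exact this
    refine ⟨Polynomial.natDegree_mul_le_of_le h1 ih.1, ?_⟩
    rw [Polynomial.coeff_mul_add_eq_of_natDegree_le h1 ih.1, h2, ih.2]

/-- degree and top coefficient of a form of degree `k` at linear polynomials -/
lemma noeth_top {R : Type*} [CommRing R] [Algebra E R] {σ : Type*} [Fintype σ]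
    {F : MvPolynomial σ E} {k : ℕ} (hF : F.IsHomogeneous k) (f : σ → Polynomial R) (b : σ → R)
    (hf : ∀ i, (f i).natDegree ≤ 1) (hb : ∀ i, (f i).coeff 1 = b i) :
    (aeval f F).natDegree ≤ k ∧ (aeval f F).coeff k = aeval b F := by
  classical
  have hk : ∀ s ∈ F.support, ∑ i, s i = k := by
    intro s hs
    have := hF (mem_support_iff.1 hs)
    rw [Finsupp.weight_apply] at this
    rw [Finsupp.sum_fintype] at this
    · simpa using this
    · simp
  have h := fun s : σ →₀ ℕ => noeth_prod Finset.univ f b hf hb (fun i => s i)
  rw [aeval_def, eval₂_eq', aeval_def, eval₂_eq']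
  constructor
  · refine Polynomial.natDegree_sum_le_of_forall_le _ _ fun s hs => ?_
    have h1 := (h s).1
    rw [hk s hs] at h1
    have h2 : (algebraMap E (Polynomial R) (coeff s F)).natDegree ≤ 0 := by
      rw [IsScalarTower.algebraMap_apply E R (Polynomial R), Polynomial.algebraMap_eq]
      exact (Polynomial.natDegree_C _).le
    simpa using Polynomial.natDegree_mul_le_of_le h2 h1
  · rw [Polynomial.finsetSum_coeff]
    refine Finset.sum_congr rfl fun s hs => ?_
    have h1 := (h s).2
    rw [hk s hs] at h1
    rw [IsScalarTower.algebraMap_apply E R (Polynomial R), Polynomial.algebraMap_eq,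
      Polynomial.coeff_C_mul, h1]

/-- transitivity of integrality -/
lemma noeth_trans (P : Ideal (MvPolynomial W E)) {m n : ℕ} (y : Fin m → MvPolynomial W E)
    (y' : Fin n → MvPolynomial W E) (h : (noethPhi P y).IsIntegral)
    (h' : ∀ i, (noethPhi P y').IsIntegralElem (Ideal.Quotient.mk P (y i))) :
    (noethPhi P y').IsIntegral := by
  let _ := (noethPhi P y').toAlgebra
  set T := MvPolynomial W E ⧸ P
  set C := integralClosure (MvPolynomial (Fin n) E) T
  have hrange : ∀ c, noethPhi P y c ∈ C := by
    intro c
    induction c using MvPolynomial.induction_on with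
    | C a =>
      have : noethPhi P y (MvPolynomial.C a) =
          algebraMap (MvPolynomial (Fin n) E) T (MvPolynomial.C a) := by
        change noethPhi P y (MvPolynomial.C a) = noethPhi P y' (MvPolynomial.C a)
        rw [noethPhi_apply, noethPhi_apply, aeval_C, aeval_C]
      rw [this]
      exact C.algebraMap_mem _
    | add p q hp hq =>
      rw [map_add]
      exact C.add_mem hp hq
    | mul_X p i hp =>
      rw [map_mul]
      refine C.mul_mem hp ?_
      rw [noethPhi_apply, aeval_X]
      exact h' i
  intro x
  obtain ⟨p, hp, hpx⟩ := h x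
  let φ : MvPolynomial (Fin m) E →+* C := (noethPhi P y).codRestrict C.toSubring hrange
  have hx : IsIntegral C x := by
    refine ⟨p.map φ, hp.map φ, ?_⟩
    rw [Polynomial.eval₂_map]
    exact hpx
  exact isIntegral_trans (R := MvPolynomial (Fin n) E) x hx

/-- a relation of positive degree removes one variable -/
lemma noeth_step [Infinite E] (P : Ideal (MvPolynomial W E)) {m : ℕ}
    (y : Fin (m + 1) → MvPolynomial W E) (h : (noethPhi P y).IsIntegral)
    (hy : ∀ i, (y i).IsHomogeneous 1) {c : MvPolynomial (Fin (m + 1)) E} {k : ℕ}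
    (hc : c.IsHomogeneous k) (hc0 : c ≠ 0) (hcP : aeval y c ∈ P) :
    ∃ y' : Fin m → MvPolynomial W E, (∀ i, (y' i).IsHomogeneous 1) ∧
      (noethPhi P y').IsIntegral := by
  classical
  -- the direction
  obtain ⟨l, hl⟩ : ∃ l : Fin (m + 1) → E, eval l (c * X (Fin.last m)) ≠ 0 := by
    by_contra hcon
    push Not at hcon
    have : c * X (Fin.last m) = 0 := MvPolynomial.funext fun x => by rw [hcon x, map_zero]
    rcases mul_eq_zero.1 this with h1 | h1
    · exact hc0 h1
    · exact X_ne_zero _ h1
  rw [map_mul, eval_X] at hl
  have hl1 : eval l c ≠ 0 := left_ne_zero_of_mul hl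
  have hl2 : l (Fin.last m) ≠ 0 := right_ne_zero_of_mul hl
  set μ : Fin (m + 1) → E := fun i => l i / l (Fin.last m) with hμ
  have hμc : eval μ c ≠ 0 := by
    have h1 : eval l c = l (Fin.last m) ^ k * eval μ c := by
      have h2 : l = fun i => l (Fin.last m) * μ i := by
        ext i
        rw [hμ]
        field_simp
      rw [eval_eq', eval_eq', Finset.mul_sum]
      refine Finset.sum_congr rfl fun s hs => ?_
      have hk : ∑ i, s i = k := by
        have := hc (mem_support_iff.1 hs)
        rw [Finsupp.weight_apply, Finsupp.sum_fintype] at this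
        · simpa using this
        · simp
      have h3 : ∏ i, l i ^ s i = l (Fin.last m) ^ k * ∏ i, μ i ^ s i := by
        rw [← hk, ← Finset.prod_pow_eq_pow_sum, ← Finset.prod_mul_distrib]
        refine Finset.prod_congr rfl fun i _ => ?_
        rw [← mul_pow]
        congr 1
        exact congrFun h2 i
      rw [h3]
      ring
    intro h0
    rw [h0, mul_zero] at h1
    exact hl1 h1
  have hμl : μ (Fin.last m) = 1 := div_self hl2
  set y' : Fin m → MvPolynomial W E :=
    fun i => y i.castSucc - C (μ i.castSucc) * y (Fin.last m) with hy'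
  refine ⟨y', fun i => ?_, ?_⟩
  · rw [hy']
    refine (hy _).sub ?_
    have := (isHomogeneous_C W (μ i.castSucc)).mul (hy (Fin.last m))
    simpa using this
  -- the last form is integral
  have hlast : (noethPhi P y').IsIntegralElem (Ideal.Quotient.mk P (y (Fin.last m))) := by
    let f : Fin (m + 1) → Polynomial (MvPolynomial (Fin m) E) := fun i =>
      Fin.lastCases (Polynomial.X) (fun j => Polynomial.C (X j) +
        Polynomial.C (C (μ j.castSucc)) * Polynomial.X) i
    have hf : ∀ i, (f i).natDegree ≤ 1 := by
      intro i
      refine Fin.lastCases ?_ (fun j => ?_) i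
      · simp only [f, Fin.lastCases_last]
        exact Polynomial.natDegree_X_le
      · simp only [f, Fin.lastCases_castSucc]
        refine (Polynomial.natDegree_add_le _ _).trans (max_le ?_ ?_)
        · rw [Polynomial.natDegree_C]
          exact zero_le_one
        · exact (Polynomial.natDegree_C_mul_le _ _).trans Polynomial.natDegree_X_le
    have hb : ∀ i, (f i).coeff 1 = C (μ i) := by
      intro i
      refine Fin.lastCases ?_ (fun j => ?_) i
      · simp only [f, Fin.lastCases_last]
        rw [hμl, Polynomial.coeff_X_one, map_one]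
      · simp only [f, Fin.lastCases_castSucc]
        simp [Polynomial.coeff_C]
    obtain ⟨h1, h2⟩ := noeth_top hc f (fun i => C (μ i)) hf hb
    have h3 : aeval (fun i => (C (μ i) : MvPolynomial (Fin m) E)) c = C (eval μ c) := by
      rw [aeval_def, ← MvPolynomial.eval₂_id, MvPolynomial.hom_eval₂]
      rfl
    rw [h3] at h2
    refine ⟨Polynomial.C (C (eval μ c)⁻¹) * aeval f c, ?_, ?_⟩
    · refine Polynomial.monic_of_natDegree_le_of_coeff_eq_one k ?_ ?_
      · exact (Polynomial.natDegree_C_mul_le _ _).trans h1
      · rw [Polynomial.coeff_C_mul, h2, ← map_mul, inv_mul_cancel₀ hμc, map_one]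
    · rw [Polynomial.eval₂_mul]
      have h4 : Polynomial.eval₂ (noethPhi P y') (Ideal.Quotient.mk P (y (Fin.last m)))
          (aeval f c) = Ideal.Quotient.mk P (aeval y c) := by
        have h6 : (Polynomial.eval₂RingHom (noethPhi P y')
            (Ideal.Quotient.mk P (y (Fin.last m)))).comp
            (aeval f : MvPolynomial (Fin (m + 1)) E →ₐ[E]
              Polynomial (MvPolynomial (Fin m) E)).toRingHom = noethPhi P y := by
          apply MvPolynomial.ringHom_ext
          · intro a
            simp only [RingHom.comp_apply, AlgHom.toRingHom_eq_coe, RingHom.coe_coe]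
            rw [noethPhi_apply, aeval_C, aeval_C,
              IsScalarTower.algebraMap_apply E (MvPolynomial (Fin m) E)
                (Polynomial (MvPolynomial (Fin m) E)), Polynomial.algebraMap_eq,
              Polynomial.coe_eval₂RingHom, Polynomial.eval₂_C, noethPhi_apply,
              MvPolynomial.algebraMap_eq, aeval_C]
          · intro i
            simp only [RingHom.comp_apply, AlgHom.toRingHom_eq_coe, RingHom.coe_coe]
            rw [noethPhi_apply, aeval_X, aeval_X, Polynomial.coe_eval₂RingHom]
            refine Fin.lastCases ?_ (fun j => ?_) i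
            · simp only [f, Fin.lastCases_last]
              rw [Polynomial.eval₂_X]
            · simp only [f, Fin.lastCases_castSucc]
              rw [Polynomial.eval₂_add, Polynomial.eval₂_mul, Polynomial.eval₂_C,
                Polynomial.eval₂_C, Polynomial.eval₂_X, noethPhi_apply, noethPhi_apply, aeval_X,
                aeval_C, ← map_mul, ← map_add]
              congr 1
              rw [hy']
              simp [MvPolynomial.algebraMap_eq]
        have h7 := RingHom.congr_fun h6 c
        exact h7
      rw [h4, (Ideal.Quotient.eq_zero_iff_mem).2 hcP, mul_zero]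
  refine noeth_trans P y y' h fun i => ?_
  refine Fin.lastCases hlast (fun j => ?_) i
  have h5 : y j.castSucc = y' j + C (μ j.castSucc) * y (Fin.last m) := by
    rw [hy']
    ring
  rw [h5, map_add, map_mul]
  refine RingHom.IsIntegralElem.add _ ?_ (RingHom.IsIntegralElem.mul _ ?_ hlast)
  · have : Ideal.Quotient.mk P (y' j) = noethPhi P y' (X j) := by
      rw [noethPhi_apply, aeval_X]
    rw [this]
    exact RingHom.isIntegralElem_map _
  · have : Ideal.Quotient.mk P (C (μ j.castSucc)) = noethPhi P y' (C (μ j.castSucc)) := by
      rw [noethPhi_apply, aeval_C]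
      rfl
    rw [this]
    exact RingHom.isIntegralElem_map _

/-- homogeneous components of the value at linear forms -/
lemma noeth_comp {m : ℕ} (y : Fin m → MvPolynomial W E) (hy : ∀ i, (y i).IsHomogeneous 1)
    (c : MvPolynomial (Fin m) E) (k : ℕ) :
    homogeneousComponent k (aeval y c) = aeval y (homogeneousComponent k c) := by
  have h1 : ∀ j, (aeval y (homogeneousComponent j c)).IsHomogeneous j := by
    intro j
    simpa using (homogeneousComponent_isHomogeneous j c).aeval y hy
  conv_lhs => rw [← sum_homogeneousComponent c]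
  rw [map_sum, map_sum]
  have h2 : ∀ j ∈ Finset.range (c.totalDegree + 1),
      homogeneousComponent k (aeval y (homogeneousComponent j c)) =
        if j = k then aeval y (homogeneousComponent j c) else 0 := by
    intro j _
    split_ifs with h
    · rw [← h]
      exact homogeneousComponent_of_mem (h1 j) |>.trans (if_pos rfl)
    · exact homogeneousComponent_of_mem (h1 j) |>.trans (if_neg (Ne.symm h))
  rw [Finset.sum_congr rfl h2, Finset.sum_ite_eq']
  split_ifs with h
  · rfl
  · rw [homogeneousComponent_eq_zero, map_zero]
    rw [Finset.mem_range] at h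
    omega

/-- the induction -/
lemma noeth_aux [Infinite E] (P : Ideal (MvPolynomial W E)) (hP : HP P) :
    ∀ (m : ℕ) (y : Fin m → MvPolynomial W E), (∀ i, (y i).IsHomogeneous 1) →
      (noethPhi P y).IsIntegral →
      ∃ (d : ℕ) (z : Fin (d + 1) → MvPolynomial W E), NN P z := by
  intro m
  induction m with
  | zero =>
    intro y _ hint
    exfalso
    obtain ⟨w, hw⟩ := hP.rel
    obtain ⟨p, hp, hpx⟩ := hint (Ideal.Quotient.mk P (X w))
    have h1 : X w ^ p.natDegree + ∑ i ∈ Finset.range p.natDegree,
        aeval y (p.coeff i) * X w ^ i ∈ P := by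
      rw [← Ideal.Quotient.eq_zero_iff_mem, map_add, map_sum]
      rw [Polynomial.eval₂_eq_sum_range, Finset.sum_range_succ, hp.coeff_natDegree, map_one,
        one_mul] at hpx
      rw [← hpx, add_comm]
      congr 1
    have h2 := hP.hom _ h1 p.natDegree
    rw [map_add, map_sum] at h2
    have h3 : ∀ i ∈ Finset.range p.natDegree,
        homogeneousComponent p.natDegree (aeval y (p.coeff i) * X w ^ i) = 0 := by
      intro i hi
      have h4 : (aeval y (p.coeff i)).IsHomogeneous 0 := by
        obtain ⟨a, ha⟩ := C_surjective (Fin 0) (p.coeff i)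
        rw [← ha, aeval_C]
        exact isHomogeneous_C _ _
      have h5 : (aeval y (p.coeff i) * X w ^ i).IsHomogeneous i := by
        simpa using h4.mul ((isHomogeneous_X E w).pow i)
      rw [Finset.mem_range] at hi
      exact homogeneousComponent_of_mem h5 |>.trans (if_neg (by omega))
    rw [Finset.sum_eq_zero h3, add_zero] at h2
    have h6 : homogeneousComponent p.natDegree (X w ^ p.natDegree : MvPolynomial W E) =
        X w ^ p.natDegree := by
      have h7 : (X w ^ p.natDegree : MvPolynomial W E).IsHomogeneous p.natDegree := by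
        simpa using (isHomogeneous_X E w).pow p.natDegree
      exact homogeneousComponent_of_mem h7 |>.trans (if_pos rfl)
    rw [h6] at h2
    exact hw (hP.prime.mem_of_pow_mem _ h2)
  | succ m ih =>
    intro y hy hint
    by_cases hinj : ∀ c : MvPolynomial (Fin (m + 1)) E, aeval y c ∈ P → c = 0
    · refine ⟨m, y, hy, hinj, fun F => ?_⟩
      obtain ⟨p, hp, hpx⟩ := hint (Ideal.Quotient.mk P F)
      refine ⟨p.natDegree, fun i => p.coeff i, ?_⟩
      rw [← Ideal.Quotient.eq_zero_iff_mem, map_add, map_sum]
      rw [Polynomial.eval₂_eq_sum_range, Finset.sum_range_succ, hp.coeff_natDegree, map_one,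
        one_mul] at hpx
      rw [← hpx, add_comm, ← Fin.sum_univ_eq_sum_range
        (fun i => noethPhi P y (p.coeff i) * Ideal.Quotient.mk P F ^ i) p.natDegree]
      congr 1
    · push Not at hinj
      obtain ⟨c, hcP, hc0⟩ := hinj
      obtain ⟨k, hk⟩ : ∃ k, homogeneousComponent k c ≠ 0 := by
        by_contra hcon
        push Not at hcon
        apply hc0
        rw [← sum_homogeneousComponent c]
        exact Finset.sum_eq_zero fun i _ => hcon i
      have hckP : aeval y (homogeneousComponent k c) ∈ P := by
        rw [← noeth_comp y hy]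
        exact hP.hom _ hcP k
      obtain ⟨y', hy', hint'⟩ := noeth_step P y hint hy
        (homogeneousComponent_isHomogeneous k c) hk hckP
      exact ih y' hy' hint'

theorem noeth [Infinite E] [Finite W] (P : Ideal (MvPolynomial W E)) (hP : HP P) :
    ∃ (d : ℕ) (z : Fin (d + 1) → MvPolynomial W E), NN P z := by
  let e : W ≃ Fin (Nat.card W) := Finite.equivFin W
  refine noeth_aux P hP (Nat.card W) (fun i => X (e.symm i)) (fun i => isHomogeneous_X E _) ?_
  refine RingHom.isIntegral_of_surjective _ ?_
  intro x
  obtain ⟨F, rfl⟩ := Ideal.Quotient.mk_surjective x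
  refine ⟨rename e F, ?_⟩
  rw [noethPhi_apply, aeval_rename]
  congr 1
  have : ((fun i => X (e.symm i)) ∘ e : W → MvPolynomial W E) = X := by
    ext w
    simp
  rw [this, aeval_X_left_apply]

end Pool.Agent.PW
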