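import Pool.Agent.PW.Comp

/-!
The recursion.
-/

open MvPolynomial Filter Topology

namespace Pool.Agent.PW

variable {E : Type*} [Field E] {W : Type*}

/-- The exponents of the recursion. -/
def ex (C : ℕ) : ℕ → ℕ
  | 0 => 1
  | d + 1 => (C + 2) * (1 + ex C d)

theorem one_le_ex (C d : ℕ) : 1 ≤ ex C d := by
  cases d with
  | zero => simp [ex]
  | succ d => simp only [ex]; nlinarith

theorem recur [Infinite E] (Pts : Set (W → E)) (h0 : ∀ x ∈ Pts, x ≠ 0) (C : ℕ)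
    (Slow : ℕ → Ideal (MvPolynomial W E) → Prop) (P₀ : Ideal (MvPolynomial W E)) (Λ₀ : ℕ)
    (hΛ₀ : 2 ≤ Λ₀)
    (step : ∀ (Λ : ℕ) (P : Ideal (MvPolynomial W E)), Λ₀ ≤ Λ → HP P → P₀ ≤ P →
      ∀ {d : ℕ} (z : Fin (d + 1) → MvPolynomial W E) (e : ℕ), NN P z → RankLE P z e → e ≤ Λ →
      Slow Λ P ∨ ∃ (k : ℕ) (F : MvPolynomial W E), k ≤ Λ ^ C ∧ F.IsHomogeneous k ∧ F ∉ P ∧
        ∀ x ∈ Pts, x ∈ Zeros P → eval x F = 0) :
    ∀ (d : ℕ) (Λ : ℕ) (P : Ideal (MvPolynomial W E)) (z : Fin (d + 1) → MvPolynomial W E)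
      (e : ℕ), Λ₀ ≤ Λ → HP P → P₀ ≤ P → NN P z → RankLE P z e → e ≤ Λ →
      ∃ S : Finset (Ideal (MvPolynomial W E)), S.card ≤ Λ ^ ex C d ∧
        (∀ Q ∈ S, HP Q ∧ P₀ ≤ Q ∧ ∃ Λ' : ℕ, Λ ≤ Λ' ∧ Λ' ≤ Λ ^ ex C d ∧ Slow Λ' Q ∧
          ∃ (d' : ℕ) (z' : Fin (d' + 1) → MvPolynomial W E), NN Q z' ∧ RankLE Q z' Λ') ∧
        ∀ x ∈ Pts, x ∈ Zeros P → ∃ Q ∈ S, x ∈ Zeros Q := by
  classical
  intro d
  induction d with
  | zero =>
    intro Λ P z e hΛ hP hPP hz he heΛ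
    rcases step Λ P hΛ hP hPP z e hz he heΛ with hs | ⟨k, F, hk, hF, hFP, hv⟩
    · refine ⟨{P}, by simp [ex]; omega, ?_, fun x _ hx => ⟨P, by simp, hx⟩⟩
      intro Q hQ
      rw [Finset.mem_singleton] at hQ
      subst hQ
      exact ⟨hP, hPP, Λ, le_refl _, by simp [ex], hs, 0, z, hz, he.mono heΛ⟩
    · obtain ⟨S, _, hS2, hS3⟩ := comp P hP z hz e he F k hF hFP
      refine ⟨∅, by simp, by simp, fun x hx hxP => ?_⟩
      obtain ⟨Q, hQ, _⟩ := hS3 x (h0 x hx) hxP (hv x hx hxP)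
      obtain ⟨_, _, d', _, hd, _⟩ := hS2 Q hQ
      omega
  | succ d ih =>
    intro Λ P z e hΛ hP hPP hz he heΛ
    have hΛ1 : 1 ≤ Λ := by omega
    rcases step Λ P hΛ hP hPP z e hz he heΛ with hs | ⟨k, F, hk, hF, hFP, hv⟩
    · refine ⟨{P}, ?_, ?_, fun x _ hx => ⟨P, by simp, hx⟩⟩
      · simpa using Nat.one_le_pow _ _ (by omega)
      · intro Q hQ
        rw [Finset.mem_singleton] at hQ
        subst hQ
        refine ⟨hP, hPP, Λ, le_refl _, ?_, hs, d + 1, z, hz, he.mono heΛ⟩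
        calc Λ = Λ ^ 1 := (pow_one _).symm
          _ ≤ Λ ^ ex C (d + 1) := Nat.pow_le_pow_right hΛ1 (one_le_ex C _)
    · obtain ⟨S, hS1, hS2, hS3⟩ := comp P hP z hz e he F k hF hFP
      set M : ℕ := Λ ^ (C + 2) with hM
      have hb : e * (e * k) ≤ M := by
        calc e * (e * k) ≤ Λ * (Λ * Λ ^ C) :=
              Nat.mul_le_mul heΛ (Nat.mul_le_mul heΛ hk)
          _ = M := by rw [hM]; ring
      have hΛM : Λ ≤ M := by
        calc Λ = Λ ^ 1 := (pow_one _).symm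
          _ ≤ M := Nat.pow_le_pow_right hΛ1 (by omega)
      have hrec : ∀ Q : Ideal (MvPolynomial W E), ∃ S' : Finset (Ideal (MvPolynomial W E)),
          Q ∈ S → S'.card ≤ M ^ ex C d ∧
          (∀ Q ∈ S', HP Q ∧ P₀ ≤ Q ∧ ∃ Λ' : ℕ, M ≤ Λ' ∧ Λ' ≤ M ^ ex C d ∧ Slow Λ' Q ∧
            ∃ (d' : ℕ) (z' : Fin (d' + 1) → MvPolynomial W E), NN Q z' ∧ RankLE Q z' Λ') ∧
          ∀ x ∈ Pts, x ∈ Zeros Q → ∃ Q' ∈ S', x ∈ Zeros Q' := by
        intro Q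
        by_cases hQ : Q ∈ S
        · obtain ⟨hQ1, hQ2, d', z', hd, hz', hr'⟩ := hS2 Q hQ
          have : d' = d := by omega
          subst this
          obtain ⟨S', h1, h2, h3⟩ := ih M Q z' _ (hΛ.trans hΛM) hQ1 (hPP.trans hQ2) hz' hr' hb
          exact ⟨S', fun _ => ⟨h1, h2, h3⟩⟩
        · exact ⟨∅, fun h => absurd h hQ⟩
      choose S' hS' using hrec
      have hpow : M ^ ex C d = Λ ^ ((C + 2) * ex C d) := by rw [hM, ← pow_mul]
      refine ⟨S.biUnion S', ?_, ?_, ?_⟩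
      · calc (S.biUnion S').card ≤ S.card * M ^ ex C d :=
              Finset.card_biUnion_le_card_mul S S' _ fun Q hQ => (hS' Q hQ).1
          _ ≤ M * M ^ ex C d := Nat.mul_le_mul_right _ (hS1.trans hb)
          _ = Λ ^ ex C (d + 1) := by
            rw [hpow, hM, ← pow_add]
            congr 1
            simp only [ex]
            ring
      · intro Q hQ
        rw [Finset.mem_biUnion] at hQ
        obtain ⟨Q₁, hQ₁, hQ⟩ := hQ
        obtain ⟨h1, h2, Λ', h3, h4, h5, h6⟩ := (hS' Q₁ hQ₁).2.1 Q hQ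
        refine ⟨h1, h2, Λ', hΛM.trans h3, h4.trans ?_, h5, h6⟩
        rw [hpow]
        apply Nat.pow_le_pow_right hΛ1
        simp only [ex]
        exact Nat.mul_le_mul_left _ (by omega)
      · intro x hx hxP
        obtain ⟨Q, hQ, hxQ⟩ := hS3 x (h0 x hx) hxP (hv x hx hxP)
        obtain ⟨Q', hQ', hxQ'⟩ := (hS' Q hQ).2.2 x hx hxQ
        exact ⟨Q', Finset.mem_biUnion.2 ⟨Q, hQ, hQ'⟩, hxQ'⟩

end Pool.Agent.PW
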