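import Pool.Agent.PW.Defs

/-!
The rank is finite.
-/

open MvPolynomial Filter Topology

namespace Pool.Agent.PW

variable {E : Type*} [Field E] {W : Type*}

/-- elements of a finite ring extension are dependent -/
lemma rkfin_dep {A T : Type*} [CommRing A] [Nontrivial A] [CommRing T] {φ : A →+* T}
    (hφ : φ.Finite) : ∃ e : ℕ, ∀ v : Fin (e + 1) → T,
      ¬ ∀ c : Fin (e + 1) → A, ∑ i, φ (c i) * v i = 0 → c = 0 := by
  let _ := φ.toAlgebra
  have hfin' : Module.Finite A T := hφ
  refine ⟨Module.finrank A T, fun v hv => ?_⟩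
  have hli : LinearIndependent A v := by
    rw [Fintype.linearIndependent_iff]
    intro g hg i
    have h1 : ∑ i, φ (g i) * v i = 0 := by
      rw [← hg]
      refine Finset.sum_congr rfl fun j _ => ?_
      rw [Algebra.smul_def]
      rfl
    exact congrFun (hv g h1) i
  have h2 := hli.fintype_card_le_finrank
  rw [Fintype.card_fin] at h2
  omega

theorem rank_finite [Finite W] (P : Ideal (MvPolynomial W E)) (hP : P.IsPrime) {d : ℕ}
    (z : Fin (d + 1) → MvPolynomial W E) (hz : NN P z) : ∃ e, RankLE P z e := by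
  classical
  set φ : MvPolynomial (Fin (d + 1)) E →+* MvPolynomial W E ⧸ P :=
    (Ideal.Quotient.mk P).comp
      (aeval z : MvPolynomial (Fin (d + 1)) E →ₐ[E] MvPolynomial W E).toRingHom with hφ
  have hφa : ∀ c, φ c = Ideal.Quotient.mk P (aeval z c) := fun c => rfl
  have hint : φ.IsIntegral := by
    intro x
    obtain ⟨F, rfl⟩ := Ideal.Quotient.mk_surjective x
    obtain ⟨k, A, h⟩ := hz.int F
    refine ⟨Polynomial.X ^ k + ∑ i : Fin k, Polynomial.C (A i) * Polynomial.X ^ (i : ℕ), ?_, ?_⟩
    · refine Polynomial.monic_X_pow_add ?_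
      refine (Polynomial.degree_sum_le _ _).trans_lt ?_
      refine (Finset.sup_lt_iff (WithBot.bot_lt_coe k)).2 fun i _ => ?_
      refine (Polynomial.degree_C_mul_X_pow_le _ _).trans_lt ?_
      exact Nat.cast_lt.2 i.2
    · rw [← Ideal.Quotient.eq_zero_iff_mem, map_add, map_sum] at h
      rw [← h, Polynomial.eval₂_add, Polynomial.eval₂_X_pow, Polynomial.eval₂_finsetSum, map_pow]
      congr 1
      refine Finset.sum_congr rfl fun i _ => ?_
      rw [Polynomial.eval₂_mul, Polynomial.eval₂_C, Polynomial.eval₂_X_pow, map_mul, map_pow]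
      rfl
  have hft : φ.FiniteType := by
    have h1 : (φ.comp (C : E →+* MvPolynomial (Fin (d + 1)) E)).FiniteType := by
      have h2 : φ.comp (C : E →+* MvPolynomial (Fin (d + 1)) E) =
          algebraMap E (MvPolynomial W E ⧸ P) := by
        ext a
        rw [RingHom.comp_apply, hφa, aeval_C]
        rfl
      rw [h2, RingHom.finiteType_algebraMap]
      infer_instance
    exact h1.of_comp_finiteType
  have hfin : φ.Finite := hint.to_finite hft
  obtain ⟨e, he⟩ := rkfin_dep hfin
  refine ⟨e, fun v hv => he (fun i => Ideal.Quotient.mk P (v i)) fun c hc => hv c ?_⟩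
  rw [← Ideal.Quotient.eq_zero_iff_mem, map_sum, ← hc]
  refine Finset.sum_congr rfl fun j _ => ?_
  rw [map_mul]
  rfl

end Pool.Agent.PW
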