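import Pool.Agent.Helper63.WH.Final
import Pool.Agent.PW.Recur
import Pool.Agent.PW.Conde
import Pool.Agent.PW.Deg
import Pool.Agent.PW.Noeth
import Pool.Agent.PW.Null
import Pool.Agent.PW.Rkfin

/-!
The points of bounded degree at which the arithmetic degree is smaller than `δ` lie on few
subvarieties of small degree on which the degrees of an iterate are small.
-/

open MvPolynomial Filter Topology
open scoped LinearAlgebra.Projectivization

namespace Pool.Agent.PW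

open Pool.Agent.Helper90.KSC Pool.Agent.Helper63.SAND Pool.Agent.Helper63.WH

variable {E : Type*} [Field E] {ι : Type*} [Fintype ι] [DecidableEq ι] {N : ι → ℕ}

/-- The points of `Y` which are zeros of `Q`, as a subset of `X`. -/
def subX (X Y : Set (PPt E N)) (Q : Ideal (MvPolynomial (SIx N) E)) : Set X :=
  {x | (x : PPt E N) ∈ sub Y Q}

theorem van_subX [IsAlgClosed E] (X Y : Set (PPt E N)) (hYX : Y ⊆ X) (hY : ZClosed Y)
    (Q : Ideal (MvPolynomial (SIx N) E)) (hQ : HP Q) (hYQ : idl Y ≤ Q)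
    (F : MvPolynomial (SIx N) E) (k : ℕ) (hF : F.IsHomogeneous k) :
    Van (fun x : subX X Y Q => seg ((x : X) : PPt E N)) F ↔ F ∈ Q := by
  rw [← null Y hY Q hQ hYQ F k hF]
  constructor
  · intro h x hx
    exact h ⟨⟨x, hYX hx.1⟩, hx⟩
  · intro h x
    exact h ((x : X) : PPt E N) x.2

theorem isCond_subX [CharZero E] [IsAlgClosed E] (X Y : Set (PPt E N)) (hYX : Y ⊆ X)
    (hY : ZClosed Y) (Q : Ideal (MvPolynomial (SIx N) E)) (hQ : HP Q) (hYQ : idl Y ≤ Q) {d : ℕ}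
    (z : Fin (d + 1) → MvPolynomial (SIx N) E) (hz : NN Q z) (e : ℕ) (he : RankLE Q z e) :
    ∃ (c₀ : ℕ) (Θ : MvPolynomial (SIx N) E), c₀ ≤ e * e ∧
      IsCond (fun x : subX X Y Q => seg ((x : X) : PPt E N)) c₀ Θ := by
  obtain ⟨c₀, Θ, hc₀, hΘ1, hΘ2, hΘ3⟩ := conde Q hQ z hz e he
  refine ⟨c₀, Θ, hc₀, hΘ1, fun h => hΘ2 ((van_subX X Y hYX hY Q hQ hYQ Θ c₀ hΘ1).1 h), ?_⟩
  intro b e₁ k N' D A hk hN hD hDv hA hrel
  have hD' : D ∉ Q := fun h => hDv ((van_subX X Y hYX hY Q hQ hYQ D e₁ hD).2 h)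
  have hhom : (N' ^ k + ∑ i ∈ Finset.range k, A (i + 1) * D ^ (i + 1) * N' ^ (k - 1 - i)
      ).IsHomogeneous ((b + e₁) * k) := by
    refine (hN.pow k).add (IsHomogeneous.sum _ _ _ fun i hi => ?_)
    rw [Finset.mem_range] at hi
    have h1 := ((hA (i + 1)).mul (hD.pow (i + 1))).mul (hN.pow (k - 1 - i))
    have h2 : (i + 1) * b + e₁ * (i + 1) + (b + e₁) * (k - 1 - i) = (b + e₁) * k := by
      obtain ⟨j, rfl⟩ : ∃ j, k = i + 1 + j := ⟨k - (i + 1), by omega⟩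
      have : i + 1 + j - 1 - i = j := by omega
      rw [this]
      ring
    rw [h2] at h1
    exact h1
  have hmem := (van_subX X Y hYX hY Q hQ hYQ _ _ hhom).1 hrel
  obtain ⟨R, hR, hR2⟩ := hΘ3 b e₁ N' D hN hD hD' ⟨k, A, hk, hmem⟩
  exact ⟨R, hR, fun x => x.2.2 _ hR2⟩

theorem primeH_subX [IsAlgClosed E] (X Y : Set (PPt E N)) (hYX : Y ⊆ X) (hY : ZClosed Y)
    (Q : Ideal (MvPolynomial (SIx N) E)) (hQ : HP Q) (hYQ : idl Y ≤ Q) :
    PrimeH (fun x : subX X Y Q => seg ((x : X) : PPt E N)) := by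
  intro P R i j hP hR hPR
  have h1 := (van_subX X Y hYX hY Q hQ hYQ _ _ (hP.mul hR)).1 hPR
  rcases hQ.prime.mem_or_mem h1 with h | h
  · exact Or.inl ((van_subX X Y hYX hY Q hQ hYQ _ _ hP).2 h)
  · exact Or.inr ((van_subX X Y hYX hY Q hQ hYQ _ _ hR).2 h)

variable [CharZero E] [Algebra.IsAlgebraic ℚ E]

theorem pw [IsAlgClosed E] (X : Set (PPt E N)) (f : PPt E N → PPt E N)
    (hf : Set.MapsTo f X X) (hloc : LocallyByForms X f) (A : Matrix ι ι ℤ) (hA : ActsBy X f A)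
    (δ : ℝ) :
    ∃ r < δ, ∀ ρ, r < ρ → ∀ Y ⊆ X, ZClosed Y → Irred Y → ∀ (D : ℕ) (C₁ : ℝ),
      ∃ C : ℕ, ∀ h : ℝ, 0 ≤ h →
      ∃ S : Set (Set (PPt E N)), S.Finite ∧ (S.ncard : ℝ) ≤ C * (1 + h) ^ C ∧
        (∀ Z ∈ S, Z ⊆ Y ∧ ZClosed Z ∧ Irred Z ∧ ∃ d e n k : ℕ, HasDegree Z d e ∧ 1 ≤ e ∧
          (e : ℝ) ≤ C * (1 + h) ^ C ∧ C₁ * (1 + Real.log e) ≤ n ∧
          n ≤ C * Real.log (2 + h) ∧ (k : ℝ) ≤ ρ ^ n ∧ RepBy Z f^[n] k) ∧
        ∀ x ∈ Y, DegLE D x → absTotal x ≤ h → (∃ a < δ, AbsArithDegree f x a) →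
          ∃ Z ∈ S, x ∈ Z := by
  classical
  rcases le_or_gt δ 1 with hδ1 | hδ1
  · -- there are no such points
    refine ⟨δ - 1, by linarith, fun ρ _ Y hYX _ _ D C₁ => ⟨0, fun h hh => ⟨∅, Set.finite_empty,
      by simp, by simp, ?_⟩⟩⟩
    rintro x hx _ _ ⟨a, ha, h⟩
    exact absurd (absArithDegree_ge_one f x a h) (not_le.mpr (ha.trans_le hδ1))
  obtain ⟨r, Cs, hr1, hrδ, hCs, hbad⟩ := abs_badh X f hf A hA δ hδ1
  refine ⟨r, hrδ, fun ρ hρ Y hYX hY hirr D C₁ => ?_⟩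
  obtain ⟨e, t, G, hG1, hG2, hG3⟩ := hloc
  obtain ⟨dG, hdG, hfield⟩ := fieldLE_seg (N := N) G
  let F : X → X := fun x => ⟨f x, hf x.2⟩
  have hF : ∀ (n : ℕ) (x : X), ((F^[n] x : X) : PPt E N) = f^[n] x := by
    intro n
    induction n with
    | zero => intro x; rfl
    | succ n ih =>
      intro x
      rw [Function.iterate_succ_apply, Function.iterate_succ_apply, ih (F x)]
  let a : X → SIx N → E := fun x => seg (x : PPt E N)
  have hP₀ := idl_HP Y hirr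
  obtain ⟨d₀, z₀, hz₀⟩ := noeth (idl Y) hP₀
  obtain ⟨e₀, he₀⟩ := rank_finite (idl Y) hP₀.prime z₀ hz₀
  obtain ⟨C, hC⟩ := step a (fun x => seg_ne_zero _) F e G
    ⟨hG1, fun s x => hG2 s x x.2, fun x => hG3 x x.2⟩
    {x : X | DegLE D (x : PPt E N) ∧ ∃ b < δ, AbsArithDegree f (x : PPt E N) b}
    (dG * (D + 1)) (Nat.mul_pos hdG (Nat.succ_pos D))
    (by
      rintro x ⟨hx, _⟩
      obtain ⟨L, h1, h2, h3⟩ := hfield (D + 1) a x x rfl (by
        obtain ⟨L, h1, h2, h3⟩ := hx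
        exact ⟨L, h1, h2.trans (Nat.le_succ D), h3⟩)
      exact ⟨L, h1, h2, h3⟩)
    r ρ Cs hr1 hρ hCs
    (by
      rintro x ⟨_, b, hb, h⟩ n
      simp only [a, absHeight_seg, hF]
      exact hbad x x.2 b hb h n) (2 * |C₁|)
  let Slow : ℕ → Ideal (MvPolynomial (SIx N) E) → Prop := fun Λ Q =>
    ∃ n : ℕ, 2 * |C₁| * Real.log ((Λ ^ 2 : ℕ) : ℝ) ≤ n ∧
      (n : ℝ) ≤ C * Real.log ((Λ ^ 2 : ℕ) : ℝ) ∧ ∃ d : ℕ, (d : ℝ) ≤ ρ ^ n ∧
        RepF (fun x : subX X Y Q => a x) (fun x : subX X Y Q => a (F^[n] x)) d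
  set Ex : ℕ := ex (2 * C) d₀ with hEx
  refine ⟨(e₀ + 3) ^ Ex + Ex + 2 * C * Ex * (2 * (e₀ + 3) + 1), fun h hh => ?_⟩
  set Λ₀ : ℕ := ⌈h⌉₊ + e₀ + 2 with hΛ₀
  have hΛ2 : 2 ≤ Λ₀ := by omega
  have hhΛ : h ≤ Λ₀ := by
    have h1 := Nat.le_ceil h
    have h2 : ((⌈h⌉₊ : ℕ) : ℝ) ≤ Λ₀ := by
      have : ⌈h⌉₊ ≤ Λ₀ := by omega
      exact_mod_cast this
    linarith
  have hΛle : (Λ₀ : ℝ) ≤ (e₀ + 3) * (1 + h) := by
    have h1 : (⌈h⌉₊ : ℝ) < h + 1 := Nat.ceil_lt_add_one hh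
    have h2 : (Λ₀ : ℝ) = ⌈h⌉₊ + e₀ + 2 := by
      rw [hΛ₀]
      push_cast
      ring
    rw [h2]
    have h3 : (0 : ℝ) ≤ e₀ := Nat.cast_nonneg _
    nlinarith
  obtain ⟨S, hS1, hS2, hS3⟩ := recur
    {v : SIx N → E | ∃ x ∈ Y, DegLE D x ∧ absTotal x ≤ h ∧ (∃ b < δ, AbsArithDegree f x b) ∧
      v = seg x}
    (by
      rintro v ⟨x, _, _, _, _, rfl⟩
      exact seg_ne_zero x)
    (2 * C) Slow (idl Y) Λ₀ hΛ2
    (by
      intro Λ P hΛ hP hXP d z e hz he heΛ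
      obtain ⟨c₀, Θ, hc₀, hΘ⟩ := isCond_subX X Y hYX hY P hP hXP z hz e he
      have hne : (subX X Y P).Nonempty := by
        by_contra hcon
        rw [Set.not_nonempty_iff_eq_empty] at hcon
        have h1 : (1 : MvPolynomial (SIx N) E) ∈ P := by
          rw [← van_subX X Y hYX hY P hP hXP 1 0 (isHomogeneous_one _ _)]
          intro x
          exact absurd (Set.eq_empty_iff_forall_notMem.1 hcon x) (not_not.2 x.2)
        exact hP.prime.ne_top (P.eq_top_of_isUnit_mem h1 isUnit_one)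
      have hΛ2' : 2 ≤ Λ := hΛ2.trans hΛ
      have hsq : Λ ≤ Λ ^ 2 := by nlinarith
      rcases hC (Λ ^ 2) (hΛ2'.trans hsq) (subX X Y P) hne (primeH_subX X Y hYX hY P hP hXP) c₀ Θ
        (hc₀.trans (by rw [pow_two]; exact Nat.mul_le_mul heΛ heΛ)) hΘ with hs |
        ⟨k, Φ, hk, hΦ1, hΦ2, hΦ3⟩
      · exact Or.inl hs
      · refine Or.inr ⟨k, Φ, ?_, hΦ1, fun h => hΦ2 ((van_subX X Y hYX hY P hP hXP Φ k hΦ1).2 h), ?_⟩
        · rwa [← pow_mul] at hk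
        · rintro v ⟨x, hx, hxD, hxh, hxb, rfl⟩ hv
          refine hΦ3 ⟨x, hYX hx⟩ ⟨hx, hv⟩ ⟨hxD, hxb⟩ ?_
          simp only [a, absHeight_seg]
          have h1 : (Λ₀ : ℝ) ≤ ((Λ ^ 2 : ℕ) : ℝ) := by exact_mod_cast hΛ.trans hsq
          linarith)
    d₀ Λ₀ (idl Y) z₀ e₀ le_rfl hP₀ le_rfl hz₀ he₀ (by omega)
  have hpow : ((Λ₀ ^ Ex : ℕ) : ℝ) ≤ (e₀ + 3) ^ Ex * (1 + h) ^ Ex := by
    push_cast
    rw [← mul_pow]
    exact pow_le_pow_left₀ (Nat.cast_nonneg _) hΛle _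
  have hbig : ((e₀ : ℝ) + 3) ^ Ex * (1 + h) ^ Ex ≤
      (((e₀ + 3) ^ Ex + Ex + 2 * C * Ex * (2 * (e₀ + 3) + 1) : ℕ) : ℝ) *
        (1 + h) ^ ((e₀ + 3) ^ Ex + Ex + 2 * C * Ex * (2 * (e₀ + 3) + 1)) := by
    apply mul_le_mul
    · have : (e₀ + 3) ^ Ex ≤ (e₀ + 3) ^ Ex + Ex + 2 * C * Ex * (2 * (e₀ + 3) + 1) := by omega
      exact_mod_cast this
    · exact pow_le_pow_right₀ (by linarith) (by omega)
    · positivity
    · positivity
  refine ⟨(fun Q => sub Y Q) '' (S : Set (Ideal (MvPolynomial (SIx N) E))),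
    (Finset.finite_toSet S).image _, ?_, ?_, ?_⟩
  · have h1 : ((fun Q => sub Y Q) '' (S : Set (Ideal (MvPolynomial (SIx N) E)))).ncard ≤
        S.card := by
      refine (Set.ncard_image_le (Finset.finite_toSet S)).trans ?_
      rw [Set.ncard_coe_finset]
    have h2 : (((fun Q => sub Y Q) '' (S : Set (Ideal (MvPolynomial (SIx N) E)))).ncard : ℝ) ≤
        ((Λ₀ ^ Ex : ℕ) : ℝ) := by exact_mod_cast h1.trans hS1
    exact h2.trans (hpow.trans hbig)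
  · rintro Z ⟨Q, hQ, rfl⟩
    obtain ⟨hQ1, hXQ, Λ', hΛ'1, hΛ'2, ⟨n, hn1, hn2, k, hk, hrep⟩, d', z', hz', hr'⟩ :=
      hS2 Q hQ
    obtain ⟨e', he'1, he'2, he'3, m, hm1, hm2⟩ := basis Q hQ1.prime z' hz' Λ' hr'
    have hΛ'2' : 2 ≤ Λ' := hΛ2.trans hΛ'1
    have hΛ'0 : (0 : ℝ) < Λ' := by
      have : 0 < Λ' := by omega
      exact_mod_cast this
    have hΛ'3 : (Λ' : ℝ) ≤ ((Λ₀ ^ Ex : ℕ) : ℝ) := by exact_mod_cast hΛ'2
    have hlog : Real.log ((Λ' ^ 2 : ℕ) : ℝ) = 2 * Real.log Λ' := by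
      push_cast
      rw [Real.log_pow]
      norm_num
    have hlog2 : (1 / 2 : ℝ) ≤ Real.log Λ' := by
      have h3 : (2 : ℝ) ≤ Λ' := by exact_mod_cast hΛ'2'
      exact log_two_half.le.trans (Real.log_le_log (by norm_num) h3)
    refine ⟨fun x hx => hx.1, sub_closed Y hY Q hQ1.hom, sub_irred Y hY Q hQ1 hXQ,
      d', e', n, k, ?_, he'1, ?_, ?_, ?_, hk, ?_⟩
    · exact hil_limit Q hQ1 z' hz' e' he'3 m hm2 hm1 (fun x : sub Y Q => seg (x : PPt E N))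
        (fun F k hF => by
          rw [← null Y hY Q hQ1 hXQ F k hF]
          constructor
          · intro h x hx
            exact h ⟨x, hx⟩
          · intro h x
            exact h x x.2)
    · have : (e' : ℝ) ≤ Λ' := by exact_mod_cast he'2
      exact this.trans (hΛ'3.trans (hpow.trans hbig))
    · have h1 : Real.log e' ≤ Real.log Λ' := by
        apply Real.log_le_log
        · exact_mod_cast he'1
        · exact_mod_cast he'2
      have h2 : 0 ≤ Real.log (e' : ℝ) := Real.log_nonneg (by exact_mod_cast he'1)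
      calc C₁ * (1 + Real.log e') ≤ |C₁| * (1 + Real.log e') :=
            mul_le_mul_of_nonneg_right (le_abs_self _) (by linarith)
        _ ≤ |C₁| * (4 * Real.log Λ') :=
            mul_le_mul_of_nonneg_left (by linarith) (abs_nonneg _)
        _ = 2 * |C₁| * Real.log ((Λ' ^ 2 : ℕ) : ℝ) := by rw [hlog]; ring
        _ ≤ n := hn1
    · have h1 : Real.log Λ' ≤ Ex * (Real.log (e₀ + 3) + Real.log (1 + h)) := by
        calc Real.log Λ' ≤ Real.log ((Λ₀ ^ Ex : ℕ) : ℝ) := Real.log_le_log hΛ'0 hΛ'3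
          _ = Ex * Real.log Λ₀ := by push_cast; rw [Real.log_pow]
          _ ≤ Ex * (Real.log (e₀ + 3) + Real.log (1 + h)) := by
            apply mul_le_mul_of_nonneg_left _ (Nat.cast_nonneg _)
            rw [← Real.log_mul (by positivity) (by positivity)]
            apply Real.log_le_log _ hΛle
            have : 0 < Λ₀ := by omega
            exact_mod_cast this
      have h2 : Real.log ((e₀ : ℝ) + 3) ≤ 2 * (e₀ + 3) * Real.log (2 + h) := by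
        have h3 : Real.log ((e₀ : ℝ) + 3) ≤ e₀ + 3 := by
          have := Real.log_le_sub_one_of_pos (show (0 : ℝ) < e₀ + 3 by positivity)
          linarith
        have h4 : (1 / 2 : ℝ) ≤ Real.log (2 + h) :=
          log_two_half.le.trans (Real.log_le_log (by norm_num) (by linarith))
        have h5 : (0 : ℝ) ≤ e₀ + 3 := by positivity
        nlinarith
      have h3 : Real.log (1 + h) ≤ Real.log (2 + h) :=
        Real.log_le_log (by linarith) (by linarith)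
      have h4 : 0 ≤ Real.log (2 + h) := Real.log_nonneg (by linarith)
      calc (n : ℝ) ≤ C * Real.log ((Λ' ^ 2 : ℕ) : ℝ) := hn2
        _ = 2 * C * Real.log Λ' := by rw [hlog]; ring
        _ ≤ 2 * C * (Ex * (2 * (e₀ + 3) * Real.log (2 + h) + Real.log (2 + h))) := by
          apply mul_le_mul_of_nonneg_left _ (by positivity)
          refine h1.trans (mul_le_mul_of_nonneg_left (by linarith) (Nat.cast_nonneg _))
        _ = ((2 * C * Ex * (2 * (e₀ + 3) + 1) : ℕ) : ℝ) * Real.log (2 + h) := by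
          push_cast
          ring
        _ ≤ (((e₀ + 3) ^ Ex + Ex + 2 * C * Ex * (2 * (e₀ + 3) + 1) : ℕ) : ℝ) *
            Real.log (2 + h) := by
          apply mul_le_mul_of_nonneg_right _ h4
          have : 2 * C * Ex * (2 * (e₀ + 3) + 1) ≤
            (e₀ + 3) ^ Ex + Ex + 2 * C * Ex * (2 * (e₀ + 3) + 1) := by omega
          exact_mod_cast this
    · obtain ⟨P, hP1, ⟨w, hP2⟩, hP3⟩ := hrep
      refine ⟨P, hP1, ?_, fun x hx => ?_⟩
      · unfold Van at hP2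
        push Not at hP2
        obtain ⟨x, hx⟩ := hP2
        exact ⟨((x : X) : PPt E N), x.2, w, hx⟩
      · obtain ⟨c, hc⟩ := hP3 ⟨⟨x, hYX hx.1⟩, hx⟩
        refine ⟨c, fun w => ?_⟩
        have h2 := hF n ⟨x, hYX hx.1⟩
        have h3 := hc w
        simp only [a, h2] at h3
        exact h3
  · intro x hx hxD hxh hxb
    obtain ⟨Q, hQ, hxQ⟩ := hS3 (seg x) ⟨x, hx, hxD, hxh, hxb, rfl⟩ (by
      intro F hF
      rw [← sum_homogeneousComponent F, map_sum]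
      exact Finset.sum_eq_zero fun k _ => hF k x hx)
    exact ⟨sub Y Q, ⟨Q, hQ, rfl⟩, hx, hxQ⟩

end Pool.Agent.PW
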