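import Pool.Agent.PW.Defs

/-!
Minimal polynomials of forms.
-/

open MvPolynomial Filter Topology

namespace Pool.Agent.PW

/-- the minimal polynomial over an integrally closed domain -/
theorem minp_ring {A R : Type*} [CommRing A] [IsDomain A] [IsIntegrallyClosed A] [CommRing R]
    [IsDomain R] (φ : A →+* R) (hinj : Function.Injective φ) (x : R) (hx : φ.IsIntegralElem x) :
    ∃ k : ℕ, 1 ≤ k ∧ ∃ a : Fin k → A, x ^ k + ∑ i, φ (a i) * x ^ (i : ℕ) = 0 ∧
      ∀ c : Fin k → A, ∑ i, φ (c i) * x ^ (i : ℕ) = 0 → c = 0 := by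
  letI : Algebra A R := φ.toAlgebra
  have hmap : algebraMap A R = φ := rfl
  haveI : FaithfulSMul A R := (faithfulSMul_iff_algebraMap_injective A R).2 hinj
  have hint : IsIntegral A x := hx
  have hmon := minpoly.monic hint
  refine ⟨(minpoly A x).natDegree, minpoly.natDegree_pos hint, fun i => (minpoly A x).coeff i,
    ?_, ?_⟩
  · have h1 := minpoly.aeval A x
    rw [Polynomial.aeval_eq_sum_range, Finset.sum_range_succ, hmon.coeff_natDegree, one_smul,
      add_comm, Finset.sum_range] at h1
    simpa only [Algebra.smul_def, hmap] using h1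
  · intro c hc
    set q : Polynomial A := ∑ i : Fin (minpoly A x).natDegree,
      Polynomial.C (c i) * Polynomial.X ^ (i : ℕ) with hq
    have hqx : Polynomial.aeval x q = 0 := by
      rw [hq, map_sum]
      simp only [map_mul, Polynomial.aeval_C, map_pow, Polynomial.aeval_X, hmap]
      exact hc
    have hdvd := minpoly.isIntegrallyClosed_dvd hint hqx
    have hdeg : q.degree < (minpoly A x).degree := by
      rw [Polynomial.degree_eq_natDegree hmon.ne_zero]
      exact Polynomial.degree_sum_fin_lt c
    have hq0 : q = 0 := Polynomial.eq_zero_of_dvd_of_degree_lt hdvd hdeg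
    funext i
    have h2 := congrArg (fun p => Polynomial.coeff p (i : ℕ)) hq0
    simp only [hq, Polynomial.finsetSum_coeff, Polynomial.coeff_C_mul_X_pow,
      Polynomial.coeff_zero] at h2
    rw [Finset.sum_eq_single i] at h2
    · simpa using h2
    · intro j _ hj
      rw [if_neg]
      intro h
      exact hj (Fin.ext h.symm)
    · intro h
      exact absurd (Finset.mem_univ i) h

variable {E : Type*} [Field E] {W : Type*}

theorem minp_comp_of_hom {F : MvPolynomial W E} {m : ℕ} (hF : F.IsHomogeneous m) (n : ℕ) :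
    homogeneousComponent n F = if n = m then F else 0 :=
  homogeneousComponent_of_mem ((mem_homogeneousSubmodule m F).2 hF)

/-- components of a product with a form -/
theorem minp_comp_mul (G : MvPolynomial W E) {H : MvPolynomial W E} {m : ℕ}
    (hH : H.IsHomogeneous m) (n : ℕ) :
    homogeneousComponent (n + m) (G * H) = homogeneousComponent n G * H := by
  conv_lhs => rw [← sum_homogeneousComponent G]
  rw [Finset.sum_mul, map_sum]
  have h1 : ∀ j ∈ Finset.range (G.totalDegree + 1),
      homogeneousComponent (n + m) (homogeneousComponent j G * H) =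
        if n = j then homogeneousComponent j G * H else 0 := by
    intro j _
    rw [minp_comp_of_hom ((homogeneousComponent_isHomogeneous j G).mul hH)]
    by_cases h : n = j
    · rw [if_pos h, if_pos (by rw [h])]
    · rw [if_neg h, if_neg (by omega)]
  rw [Finset.sum_congr rfl h1, Finset.sum_ite_eq]
  split_ifs with h
  · rfl
  · rw [homogeneousComponent_eq_zero n G (by
      rw [Finset.mem_range] at h
      omega), zero_mul]

/-- components and substitution of linear forms -/
theorem minp_comp_aeval {d : ℕ} {z : Fin (d + 1) → MvPolynomial W E}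
    (hz : ∀ i, (z i).IsHomogeneous 1) (c : MvPolynomial (Fin (d + 1)) E) (n : ℕ) :
    homogeneousComponent n (aeval z c) = aeval z (homogeneousComponent n c) := by
  conv_lhs => rw [← sum_homogeneousComponent c]
  rw [map_sum, map_sum]
  have h1 : ∀ j ∈ Finset.range (c.totalDegree + 1),
      homogeneousComponent n (aeval z (homogeneousComponent j c)) =
        if n = j then aeval z (homogeneousComponent j c) else 0 := by
    intro j _
    have h2 : (aeval z (homogeneousComponent j c)).IsHomogeneous j := by
      have := (homogeneousComponent_isHomogeneous j c).aeval z hz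
      rwa [one_mul] at this
    exact minp_comp_of_hom h2 n
  rw [Finset.sum_congr rfl h1, Finset.sum_ite_eq]
  split_ifs with h
  · rfl
  · rw [homogeneousComponent_eq_zero n c (by
      rw [Finset.mem_range] at h
      omega), map_zero]

/-- the ring homomorphism to the quotient -/
noncomputable def minpPhi (P : Ideal (MvPolynomial W E)) {d : ℕ}
    (z : Fin (d + 1) → MvPolynomial W E) :
    MvPolynomial (Fin (d + 1)) E →+* MvPolynomial W E ⧸ P :=
  (Ideal.Quotient.mk P).comp (aeval z).toRingHom

theorem minpPhi_apply (P : Ideal (MvPolynomial W E)) {d : ℕ}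
    (z : Fin (d + 1) → MvPolynomial W E) (c : MvPolynomial (Fin (d + 1)) E) :
    minpPhi P z c = Ideal.Quotient.mk P (aeval z c) := rfl

theorem minpPhi_inj {P : Ideal (MvPolynomial W E)} {d : ℕ} {z : Fin (d + 1) → MvPolynomial W E}
    (hz : NN P z) : Function.Injective (minpPhi P z) := by
  rw [injective_iff_map_eq_zero]
  intro c hc
  rw [minpPhi_apply, Ideal.Quotient.eq_zero_iff_mem] at hc
  exact hz.inj c hc

theorem minpPhi_int {P : Ideal (MvPolynomial W E)} {d : ℕ} {z : Fin (d + 1) → MvPolynomial W E}
    (hz : NN P z) (x : MvPolynomial W E ⧸ P) : (minpPhi P z).IsIntegralElem x := by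
  obtain ⟨F, rfl⟩ := Ideal.Quotient.mk_surjective x
  obtain ⟨k, A, hA⟩ := hz.int F
  refine ⟨Polynomial.X ^ k + ∑ i : Fin k, Polynomial.C (A i) * Polynomial.X ^ (i : ℕ),
    Polynomial.monic_X_pow_add (Polynomial.degree_sum_fin_lt A), ?_⟩
  rw [Polynomial.eval₂_add, Polynomial.eval₂_pow, Polynomial.eval₂_X,
    Polynomial.eval₂_finsetSum]
  simp only [Polynomial.eval₂_mul, Polynomial.eval₂_C, Polynomial.eval₂_pow, Polynomial.eval₂_X,
    minpPhi_apply]
  rw [← map_pow]
  simp only [← map_pow, ← map_mul]
  rw [← map_sum, ← map_add, Ideal.Quotient.eq_zero_iff_mem]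
  exact hA

theorem minp (P : Ideal (MvPolynomial W E)) (hP : HP P) {d : ℕ}
    (z : Fin (d + 1) → MvPolynomial W E) (hz : NN P z) (e : ℕ) (he : RankLE P z e)
    (F : MvPolynomial W E) (D : ℕ) (hF : F.IsHomogeneous D) :
    ∃ k : ℕ, 1 ≤ k ∧ k ≤ e ∧ ∃ A : Fin k → MvPolynomial (Fin (d + 1)) E,
      (∀ i, (A i).IsHomogeneous (D * (k - i))) ∧
      F ^ k + ∑ i, aeval z (A i) * F ^ (i : ℕ) ∈ P ∧ Ind P z fun i : Fin k => F ^ (i : ℕ) := by
  haveI := hP.prime
  obtain ⟨k, hk, a, ha, hind⟩ := minp_ring (minpPhi P z) (minpPhi_inj hz) (Ideal.Quotient.mk P F)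
    (minpPhi_int hz _)
  have hI : Ind P z fun i : Fin k => F ^ (i : ℕ) := by
    intro c hc
    apply hind c
    have h1 := Ideal.Quotient.eq_zero_iff_mem.2 hc
    rw [map_sum] at h1
    simpa only [map_mul, map_pow, minpPhi_apply] using h1
  have hke : k ≤ e := by
    by_contra hcon
    push Not at hcon
    apply he fun i : Fin (e + 1) => F ^ (i : ℕ)
    intro c hc
    have h1 := hI (fun i : Fin k => if h : (i : ℕ) < e + 1 then c ⟨i, h⟩ else 0) (by
      have h2 : ∑ i : Fin k, aeval z (if h : (i : ℕ) < e + 1 then c ⟨i, h⟩ else 0) * F ^ (i : ℕ) =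
          ∑ i : Fin (e + 1), aeval z (c i) * F ^ (i : ℕ) := by
        rw [Finset.sum_fin_eq_sum_range, Finset.sum_fin_eq_sum_range]
        symm
        rw [Finset.sum_subset (Finset.range_subset_range.2 (show e + 1 ≤ k from hcon))]
        · refine Finset.sum_congr rfl fun i hi => ?_
          rw [Finset.mem_range] at hi
          by_cases h : i < e + 1
          · rw [dif_pos h, dif_pos hi]
            simp only [dif_pos h]
          · rw [dif_neg h, dif_pos hi]
            simp only [dif_neg h, map_zero, zero_mul]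
        · intro i _ hi
          rw [Finset.mem_range] at hi
          rw [dif_neg hi]
      rw [h2]
      exact hc)
    funext i
    have h3 := congrFun h1 ⟨i, by omega⟩
    simpa [i.2] using h3
  refine ⟨k, hk, hke, fun i => homogeneousComponent (D * (k - i)) (a i),
    fun i => homogeneousComponent_isHomogeneous _ _, ?_, hI⟩
  have h0 : F ^ k + ∑ i, aeval z (a i) * F ^ (i : ℕ) ∈ P := by
    rw [← Ideal.Quotient.eq_zero_iff_mem, map_add, map_sum]
    simpa only [map_mul, map_pow, minpPhi_apply] using ha
  have h1 := hP.hom _ h0 (D * k)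
  rw [map_add, map_sum] at h1
  have h2 : homogeneousComponent (D * k) (F ^ k) = F ^ k := by
    rw [minp_comp_of_hom (hF.pow k), if_pos rfl]
  have h3 : ∀ i : Fin k, homogeneousComponent (D * k) (aeval z (a i) * F ^ (i : ℕ)) =
      aeval z (homogeneousComponent (D * (k - i)) (a i)) * F ^ (i : ℕ) := by
    intro i
    have h4 : D * k = D * (k - i) + D * i := by
      rw [← mul_add, Nat.sub_add_cancel i.2.le]
    rw [h4, minp_comp_mul _ (hF.pow i), minp_comp_aeval hz.lin]
  rw [h2, Finset.sum_congr rfl fun i _ => h3 i] at h1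
  exact h1

end Pool.Agent.PW
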