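import Pool.Agent.PW.Defs

/-!
A basis of monomials.
-/

open MvPolynomial Filter Topology

namespace Pool.Agent.PW

variable {E : Type*} [Field E] {W : Type*}

namespace Basis

/-- `F` depends on the family `v`. -/
def Dep (P : Ideal (MvPolynomial W E)) {d : ℕ} (z : Fin (d + 1) → MvPolynomial W E) {k : ℕ}
    (v : Fin k → MvPolynomial W E) (F : MvPolynomial W E) : Prop :=
  ∃ c : MvPolynomial (Fin (d + 1)) E, c ≠ 0 ∧ ∃ a : Fin k → MvPolynomial (Fin (d + 1)) E,
    aeval z c * F - ∑ i, aeval z (a i) * v i ∈ P

variable {P : Ideal (MvPolynomial W E)} {d : ℕ} {z : Fin (d + 1) → MvPolynomial W E} {k : ℕ}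
  {v : Fin k → MvPolynomial W E}

theorem dep_zero : Dep P z v 0 := ⟨1, one_ne_zero, 0, by simp⟩

theorem dep_add {F G : MvPolynomial W E} (hF : Dep P z v F) (hG : Dep P z v G) :
    Dep P z v (F + G) := by
  obtain ⟨c, hc, a, ha⟩ := hF
  obtain ⟨c', hc', a', ha'⟩ := hG
  refine ⟨c * c', mul_ne_zero hc hc', fun i => c' * a i + c * a' i, ?_⟩
  have h1 := P.add_mem (P.mul_mem_left (aeval z c') ha) (P.mul_mem_left (aeval z c) ha')
  have h2 : aeval z (c * c') * (F + G) - ∑ i, aeval z (c' * a i + c * a' i) * v i =
      aeval z c' * (aeval z c * F - ∑ i, aeval z (a i) * v i) +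
      aeval z c * (aeval z c' * G - ∑ i, aeval z (a' i) * v i) := by
    simp only [map_mul, map_add, add_mul, Finset.sum_add_distrib, mul_sub, Finset.mul_sum]
    have e1 : ∑ i, aeval z c' * aeval z (a i) * v i = ∑ i, aeval z c' * (aeval z (a i) * v i) :=
      Finset.sum_congr rfl fun i _ => by ring
    have e2 : ∑ i, aeval z c * aeval z (a' i) * v i = ∑ i, aeval z c * (aeval z (a' i) * v i) :=
      Finset.sum_congr rfl fun i _ => by ring
    rw [e1, e2]
    ring
  rw [h2]
  exact h1

theorem dep_mul {F : MvPolynomial W E} (b : MvPolynomial (Fin (d + 1)) E) (hF : Dep P z v F) :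
    Dep P z v (aeval z b * F) := by
  obtain ⟨c, hc, a, ha⟩ := hF
  refine ⟨c, hc, fun i => b * a i, ?_⟩
  have h1 := P.mul_mem_left (aeval z b) ha
  have h2 : aeval z c * (aeval z b * F) - ∑ i, aeval z (b * a i) * v i =
      aeval z b * (aeval z c * F - ∑ i, aeval z (a i) * v i) := by
    simp only [map_mul, mul_sub, Finset.mul_sum]
    have e1 : ∑ i, aeval z b * aeval z (a i) * v i = ∑ i, aeval z b * (aeval z (a i) * v i) :=
      Finset.sum_congr rfl fun i _ => by ring
    rw [e1]
    ring
  rw [h2]
  exact h1

theorem dep_sum {ι : Type*} (s : Finset ι) (G : ι → MvPolynomial W E)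
    (h : ∀ i ∈ s, Dep P z v (G i)) : Dep P z v (∑ i ∈ s, G i) := by
  classical
  induction s using Finset.induction_on with
  | empty => simpa using dep_zero
  | insert a s ha ih =>
    rw [Finset.sum_insert ha]
    exact dep_add (h a (Finset.mem_insert_self _ _))
      (ih fun i hi => h i (Finset.mem_insert_of_mem hi))

theorem dep_trans {F H : MvPolynomial W E} {c : MvPolynomial (Fin (d + 1)) E} (hc : c ≠ 0)
    (hF : aeval z c * F - H ∈ P) (hH : Dep P z v H) : Dep P z v F := by
  obtain ⟨c', hc', a, ha⟩ := hH
  refine ⟨c' * c, mul_ne_zero hc' hc, a, ?_⟩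
  have h1 := P.add_mem (P.mul_mem_left (aeval z c') hF) ha
  have h2 : aeval z (c' * c) * F - ∑ i, aeval z (a i) * v i =
      aeval z c' * (aeval z c * F - H) + (aeval z c' * H - ∑ i, aeval z (a i) * v i) := by
    rw [map_mul]
    ring
  rw [h2]
  exact h1

/-- If everything depends on `k` elements then the rank is at most `k`. -/
theorem rank_le (h : ∀ F, Dep P z v F) : RankLE P z k := by
  intro u hu
  choose c hc a ha using fun j => h (u j)
  -- a common denominator
  set f : (Fin (k + 1) → MvPolynomial (Fin (d + 1)) E) →ₗ[MvPolynomial (Fin (d + 1)) E]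
    (Fin k → MvPolynomial (Fin (d + 1)) E) :=
      ∑ j, (LinearMap.proj j).smulRight (a j) with hf
  have hfb : ∀ b i, f b i = ∑ j, b j * a j i := by
    intro b i
    rw [hf]
    simp [LinearMap.sum_apply, Finset.sum_apply]
  have hni : ¬ Function.Injective f := fun hi => by
    have := le_of_fin_injective _ f hi
    omega
  rw [injective_iff_map_eq_zero] at hni
  push Not at hni
  obtain ⟨b, hb, hb0⟩ := hni
  have h1 : ∑ j, aeval z (b j * c j) * u j ∈ P := by
    have h2 : ∑ j, aeval z (b j) * (aeval z (c j) * u j - ∑ i, aeval z (a j i) * v i) ∈ P :=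
      P.sum_mem fun j _ => P.mul_mem_left _ (ha j)
    have h3 : ∑ j, aeval z (b j) * (aeval z (c j) * u j - ∑ i, aeval z (a j i) * v i) =
        ∑ j, aeval z (b j * c j) * u j := by
      have h4 : ∑ j, aeval z (b j) * ∑ i, aeval z (a j i) * v i = 0 := by
        simp only [Finset.mul_sum]
        rw [Finset.sum_comm]
        refine Finset.sum_eq_zero fun i _ => ?_
        have h5 : ∑ j, aeval z (b j) * (aeval z (a j i) * v i) =
            aeval z (∑ j, b j * a j i) * v i := by
          rw [map_sum, Finset.sum_mul]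
          exact Finset.sum_congr rfl fun j _ => by rw [map_mul]; ring
        rw [h5, ← hfb, hb]
        simp
      simp only [mul_sub, Finset.sum_sub_distrib]
      rw [h4, sub_zero]
      exact Finset.sum_congr rfl fun j _ => by rw [map_mul]; ring
    rwa [h3] at h2
  have h6 := hu (fun j => b j * c j) h1
  apply hb0
  funext j
  have h7 := congrFun h6 j
  simp only [Pi.zero_apply, mul_eq_zero] at h7
  exact h7.resolve_right (hc j)

/-- If all monomials of degree at most `k` depend on `k` monomials of degrees at most `i` then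
everything does. -/
theorem dep_all {m : Fin k → (W →₀ ℕ)} (hm : ∀ i, (m i).degree ≤ i)
    (h : ∀ μ : W →₀ ℕ, μ.degree ≤ k → Dep P z (fun i => monomial (m i) (1 : E)) (monomial μ 1))
    (F : MvPolynomial W E) : Dep P z (fun i => monomial (m i) (1 : E)) F := by
  have key : ∀ n : ℕ, ∀ μ : W →₀ ℕ, μ.degree = n →
      Dep P z (fun i => monomial (m i) (1 : E)) (monomial μ 1) := by
    intro n
    induction n with
    | zero => exact fun μ hμ => h μ (by omega)
    | succ n ih =>
      intro μ hμ
      by_cases hn : n + 1 ≤ k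
      · exact h μ (by omega)
      · -- `μ = single w 1 + ν`
        have hne : μ ≠ 0 := by
          rintro rfl
          simp at hμ
        obtain ⟨w, hw⟩ := Finsupp.ne_iff.1 hne
        have hle : Finsupp.single w 1 ≤ μ := by
          rw [Finsupp.single_le_iff]
          exact Nat.one_le_iff_ne_zero.2 hw
        obtain ⟨ν, rfl⟩ := exists_add_of_le hle
        have hν : ν.degree = n := by
          rw [map_add, Finsupp.degree_single] at hμ
          omega
        obtain ⟨c, hc, a, ha⟩ := ih ν hν
        have e1 : (monomial (Finsupp.single w 1 + ν) (1 : E)) = X w * monomial ν 1 := by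
          rw [X, monomial_mul, one_mul]
        refine dep_trans hc (H := ∑ i, aeval z (a i) * (X w * monomial (m i) (1 : E))) ?_ ?_
        · have h1 := P.mul_mem_left (X w) ha
          have h2 : aeval z c * (monomial (Finsupp.single w 1 + ν) (1 : E)) -
              ∑ i, aeval z (a i) * (X w * monomial (m i) (1 : E)) =
              X w * (aeval z c * monomial ν 1 - ∑ i, aeval z (a i) * monomial (m i) (1 : E)) := by
            rw [e1, mul_sub, Finset.mul_sum]
            have e2 : ∑ i, aeval z (a i) * (X w * monomial (m i) (1 : E)) =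
                ∑ i, X w * (aeval z (a i) * monomial (m i) (1 : E)) :=
              Finset.sum_congr rfl fun i _ => by ring
            rw [e2]
            ring
          rw [h2]
          exact h1
        · refine dep_sum _ _ fun i _ => dep_mul (a i) ?_
          have e3 : X w * monomial (m i) (1 : E) = monomial (Finsupp.single w 1 + m i) 1 := by
            rw [X, monomial_mul, one_mul]
          rw [e3]
          refine h _ ?_
          rw [map_add, Finsupp.degree_single]
          have := hm i
          have := i.2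
          omega
  rw [F.as_sum]
  refine dep_sum _ _ fun μ _ => ?_
  have h1 : monomial μ (coeff μ F) = aeval z (C (coeff μ F)) * monomial μ (1 : E) := by
    rw [aeval_C, algebraMap_eq, C_mul_monomial, mul_one]
  rw [h1]
  exact dep_mul _ (key _ μ rfl)

theorem ind_snoc {u : MvPolynomial W E} (hv : Ind P z v) (hu : ¬ Dep P z v u) :
    Ind P z (Fin.snoc v u : Fin (k + 1) → MvPolynomial W E) := by
  intro c hc
  rw [Fin.sum_univ_castSucc] at hc
  simp only [Fin.snoc_castSucc, Fin.snoc_last] at hc
  have h0 : c (Fin.last k) = 0 := by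
    by_contra h0
    refine hu ⟨c (Fin.last k), h0, fun i => -c i.castSucc, ?_⟩
    have h1 : aeval z (c (Fin.last k)) * u - ∑ i, aeval z (-c (Fin.castSucc i)) * v i =
        ∑ i : Fin k, aeval z (c i.castSucc) * v i + aeval z (c (Fin.last k)) * u := by
      simp only [map_neg, neg_mul, Finset.sum_neg_distrib]
      ring
    rw [h1]
    exact hc
  rw [h0, map_zero, zero_mul, add_zero] at hc
  have h2 := hv _ hc
  funext i
  refine Fin.lastCases h0 (fun j => ?_) i
  exact congrFun h2 j

/-- An initial segment of an independent family. -/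
theorem ind_castLE {n : ℕ} (h : n ≤ k) (hv : Ind P z v) : Ind P z fun i : Fin n => v (i.castLE h) := by
  classical
  intro c hc
  have h1 := hv (fun j => if hj : (j : ℕ) < n then c ⟨j, hj⟩ else 0) (by
    have h2 : ∑ j : Fin k, aeval z (if hj : (j : ℕ) < n then c ⟨j, hj⟩ else 0) * v j =
        ∑ i : Fin n, aeval z (c i) * v (i.castLE h) := by
      symm
      refine Finset.sum_of_injOn (fun i : Fin n => i.castLE h) ?_ ?_ ?_ ?_
      · intro a _ b _ hab
        exact Fin.castLE_injective h hab
      · intro a _
        simp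
      · intro j _ hj
        have hj' : ¬ (j : ℕ) < n := by
          intro hj'
          exact hj ⟨⟨j, hj'⟩, by simp, by ext; simp⟩
        simp [hj']
      · intro i _
        simp
    rw [h2]
    exact hc)
  funext i
  have h3 := congrFun h1 (i.castLE h)
  simpa using h3

end Basis

set_option linter.unusedVariables false in
theorem basis [Finite W] (P : Ideal (MvPolynomial W E)) (hP : P.IsPrime) {d : ℕ}
    (z : Fin (d + 1) → MvPolynomial W E) (hz : NN P z) (e : ℕ) (he : RankLE P z e) :
    ∃ e' : ℕ, 1 ≤ e' ∧ e' ≤ e ∧ RankLE P z e' ∧ ∃ m : Fin e' → (W →₀ ℕ),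
      (∀ i, (m i).degree ≤ i) ∧ Ind P z fun i => monomial (m i) (1 : E) := by
  classical
  set Q : ℕ → Prop := fun k => ∃ m : Fin k → (W →₀ ℕ),
    (∀ i, (m i).degree ≤ i) ∧ Ind P z fun i => monomial (m i) (1 : E) with hQ
  have hbound : ∀ k, Q k → k ≤ e := by
    rintro k ⟨m, -, hm⟩
    by_contra hk
    exact he _ (Basis.ind_castLE (show e + 1 ≤ k by omega) hm)
  have h0 : Q 0 := ⟨Fin.elim0, fun i => i.elim0, fun c _ => Subsingleton.elim _ _⟩
  obtain ⟨k, hk, hmax⟩ : ∃ k, Q k ∧ ∀ k', Q k' → k' ≤ k := by
    refine ⟨Nat.findGreatest Q e, ?_, fun k' hk' => ?_⟩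
    · exact Nat.findGreatest_spec (P := Q) (Nat.zero_le e) h0
    · exact Nat.le_findGreatest (hbound k' hk') hk'
  obtain ⟨m, hm, hind⟩ := hk
  have hdep : ∀ μ : W →₀ ℕ, μ.degree ≤ k →
      Basis.Dep P z (fun i => monomial (m i) (1 : E)) (monomial μ 1) := by
    intro μ hμ
    by_contra hcon
    have h1 : Q (k + 1) := by
      refine ⟨Fin.snoc m μ, fun i => ?_, ?_⟩
      · refine Fin.lastCases ?_ (fun j => ?_) i
        · simpa using hμ
        · simpa using hm j
      · have h2 := Basis.ind_snoc hind hcon
        convert h2 using 1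
        funext i
        refine Fin.lastCases ?_ (fun j => ?_) i
        · simp
        · simp
    have := hmax _ h1
    omega
  have hrank : RankLE P z k := Basis.rank_le (Basis.dep_all hm hdep)
  refine ⟨k, ?_, hbound k ⟨m, hm, hind⟩, hrank, m, hm, hind⟩
  by_contra hk
  have hk0 : k = 0 := by omega
  subst hk0
  refine hrank (fun _ => 1) fun c hc => ?_
  have h1 : c 0 = 0 := hz.inj (c 0) (by simpa using hc)
  funext i
  exact Fin.cases h1 (fun j => j.elim0) i

end Pool.Agent.PW
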