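import Pool.Agent.PW.Defs

/-!
Primes over a principal prime.
-/

open MvPolynomial Filter Topology

namespace Pool.Agent.PW

variable {E : Type*} [Field E] {W : Type*}

/-- Two primes over the same principal prime which are comparable are equal. -/
private theorem over_incomp (P : Ideal (MvPolynomial W E)) {d : ℕ}
    (z : Fin (d + 1) → MvPolynomial W E) (hz : NN P z)
    (p : MvPolynomial (Fin (d + 1)) E) (Q Q' : Ideal (MvPolynomial W E))
    (hQ : Over P Q z p) (hQ' : Over P Q' z p) (hle : Q ≤ Q') : Q' ≤ Q := by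
  classical
  intro F hF
  by_contra hFQ
  obtain ⟨hQ1, hQ2, hQ3⟩ := hQ
  obtain ⟨hQ1', hQ2', hQ3'⟩ := hQ'
  have hex : ∃ (k : ℕ) (A : Fin k → MvPolynomial (Fin (d + 1)) E),
      F ^ k + ∑ i, aeval z (A i) * F ^ (i : ℕ) ∈ Q := by
    obtain ⟨k, A, h⟩ := hz.int F
    exact ⟨k, A, hQ2 h⟩
  obtain ⟨k, ⟨A, hA⟩, hmin⟩ : ∃ k, (∃ A : Fin k → MvPolynomial (Fin (d + 1)) E,
      F ^ k + ∑ i, aeval z (A i) * F ^ (i : ℕ) ∈ Q) ∧ ∀ m < k,
      ¬ ∃ A : Fin m → MvPolynomial (Fin (d + 1)) E,
        F ^ m + ∑ i, aeval z (A i) * F ^ (i : ℕ) ∈ Q :=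
    ⟨Nat.find hex, Nat.find_spec hex, fun m => Nat.find_min hex⟩
  cases k with
  | zero =>
    apply hQ1.ne_top
    rw [Ideal.eq_top_iff_one]
    simpa using hA
  | succ k =>
    have h0 : aeval z (A 0) ∈ Q' := by
      have h1 := hle hA
      rw [Fin.sum_univ_succ] at h1
      have h2 : F ^ (k + 1) + ∑ i : Fin k, aeval z (A i.succ) * F ^ ((i.succ : Fin (k + 1)) : ℕ) ∈ Q' := by
        apply Q'.add_mem
        · rw [pow_succ]
          exact Q'.mul_mem_left _ hF
        · apply Q'.sum_mem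
          intro i _
          rw [Fin.val_succ, pow_succ, ← mul_assoc]
          exact Q'.mul_mem_left _ hF
      have h3 := Q'.sub_mem h1 h2
      have h4 : F ^ (k + 1) + (aeval z (A 0) * F ^ ((0 : Fin (k + 1)) : ℕ) +
          ∑ i : Fin k, aeval z (A i.succ) * F ^ ((i.succ : Fin (k + 1)) : ℕ)) -
          (F ^ (k + 1) + ∑ i : Fin k, aeval z (A i.succ) * F ^ ((i.succ : Fin (k + 1)) : ℕ)) =
          aeval z (A 0) := by
        simp
      rwa [h4] at h3
    rw [hQ3', ← hQ3] at h0
    have h5 : F * (F ^ k + ∑ i : Fin k, aeval z (A i.succ) * F ^ (i : ℕ)) ∈ Q := by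
      have h6 := Q.sub_mem hA h0
      rw [Fin.sum_univ_succ] at h6
      have h7 : F ^ (k + 1) + (aeval z (A 0) * F ^ ((0 : Fin (k + 1)) : ℕ) +
          ∑ i : Fin k, aeval z (A i.succ) * F ^ ((i.succ : Fin (k + 1)) : ℕ)) - aeval z (A 0) =
          F * (F ^ k + ∑ i : Fin k, aeval z (A i.succ) * F ^ (i : ℕ)) := by
        rw [mul_add, Finset.mul_sum]
        have : ∀ i : Fin k, F * (aeval z (A i.succ) * F ^ (i : ℕ)) =
            aeval z (A i.succ) * F ^ ((i.succ : Fin (k + 1)) : ℕ) := by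
          intro i
          rw [Fin.val_succ, pow_succ]
          ring
        rw [Finset.sum_congr rfl fun i _ => this i]
        simp only [Fin.val_zero, pow_zero, mul_one]
        ring
      rwa [h7] at h6
    rcases hQ1.mem_or_mem h5 with h | h
    · exact hFQ h
    · exact hmin k (by omega) ⟨fun i => A i.succ, h⟩

theorem over_count (P : Ideal (MvPolynomial W E)) (hP : HP P) {d : ℕ}
    (z : Fin (d + 1) → MvPolynomial W E) (hz : NN P z) (e : ℕ) (he : RankLE P z e)
    (p : MvPolynomial (Fin (d + 1)) E) (hp : Prime p) :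
    {Q | Over P Q z p}.encard ≤ e := by
  classical
  by_contra hcon
  rw [not_le] at hcon
  have hcon' : ((e + 1 : ℕ) : ℕ∞) ≤ {Q | Over P Q z p}.encard := by
    rw [Nat.cast_add, Nat.cast_one]
    exact Order.add_one_le_of_lt hcon
  obtain ⟨t, ht, htc⟩ := Set.exists_subset_encard_eq hcon'
  have htf : t.Finite := Set.finite_of_encard_eq_coe htc
  have hcard : htf.toFinset.card = e + 1 := by
    have := htf.encard_eq_coe_toFinset_card
    rw [htc] at this
    exact_mod_cast this.symm
  set Q : Fin (e + 1) → Ideal (MvPolynomial W E) := fun i => (htf.toFinset.equivFinOfCardEq hcard).symm i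
    with hQ
  have hQinj : Function.Injective Q := by
    intro i j hij
    exact (htf.toFinset.equivFinOfCardEq hcard).symm.injective (Subtype.ext hij)
  have hQo : ∀ i, Over P (Q i) z p := by
    intro i
    apply ht
    have := ((htf.toFinset.equivFinOfCardEq hcard).symm i).2
    rwa [Set.Finite.mem_toFinset] at this
  have hne : ∀ i j, i ≠ j → ∃ g, g ∈ Q i ∧ g ∉ Q j := by
    intro i j hij
    by_contra hc
    push Not at hc
    have h1 : Q i ≤ Q j := hc
    have h2 := over_incomp P z hz p _ _ (hQo i) (hQo j) h1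
    exact hij (hQinj (le_antisymm h1 h2))
  choose! g hg1 hg2 using hne
  set h : Fin (e + 1) → MvPolynomial W E := fun j => ∏ i ∈ Finset.univ.erase j, g i j with hh
  have hh1 : ∀ i j, i ≠ j → h j ∈ Q i := by
    intro i j hij
    rw [hh]
    show ∏ i ∈ Finset.univ.erase j, g i j ∈ Q i
    rw [← Finset.mul_prod_erase _ _ (Finset.mem_erase.2 ⟨hij, Finset.mem_univ i⟩)]
    exact (Q i).mul_mem_right _ (hg1 i j hij)
  have hh2 : ∀ j, h j ∉ Q j := by
    intro j hj
    have := (hQo j).1
    rw [hh, Ideal.IsPrime.prod_mem_iff] at hj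
    obtain ⟨i, hi, hij⟩ := hj
    exact hg2 i j (Finset.ne_of_mem_erase hi) hij
  have hnot := he h
  apply hnot
  intro c hc
  have key : ∀ n : ℕ, ∃ c' : Fin (e + 1) → MvPolynomial (Fin (d + 1)) E,
      ∑ i, aeval z (c' i) * h i ∈ P ∧ ∀ j, c j = p ^ n * c' j := by
    intro n
    induction n with
    | zero => exact ⟨c, hc, fun j => by simp⟩
    | succ n ih =>
      obtain ⟨c', h1, h2⟩ := ih
      have h3 : ∀ j, p ∣ c' j := by
        intro j
        have h4 : ∑ i, aeval z (c' i) * h i ∈ Q j := (hQo j).2.1 h1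
        rw [← Finset.add_sum_erase _ _ (Finset.mem_univ j)] at h4
        have h5 : ∑ i ∈ Finset.univ.erase j, aeval z (c' i) * h i ∈ Q j := by
          apply (Q j).sum_mem
          intro i hi
          exact (Q j).mul_mem_left _ (hh1 j i (Finset.ne_of_mem_erase hi).symm)
        have h6 : aeval z (c' j) * h j ∈ Q j := by
          have := (Q j).sub_mem h4 h5
          rwa [add_sub_cancel_right] at this
        rcases (hQo j).1.mem_or_mem h6 with h7 | h7
        · exact ((hQo j).2.2 _).1 h7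
        · exact absurd h7 (hh2 j)
      choose c'' hc'' using h3
      refine ⟨c'', ?_, fun j => by rw [h2 j, hc'' j, pow_succ, mul_assoc]⟩
      have h8 : ∑ i, aeval z (c' i) * h i = aeval z p * ∑ i, aeval z (c'' i) * h i := by
        rw [Finset.mul_sum]
        refine Finset.sum_congr rfl fun i _ => ?_
        rw [hc'' i, map_mul, mul_assoc]
      rw [h8] at h1
      rcases hP.prime.mem_or_mem h1 with h9 | h9
      · exact absurd (hz.inj p h9) hp.ne_zero
      · exact h9
  funext j
  by_contra hj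
  have hfm : FiniteMultiplicity p (c j) := FiniteMultiplicity.of_not_isUnit hp.not_isUnit hj
  obtain ⟨n, hn⟩ := hfm
  obtain ⟨c', -, h2⟩ := key (n + 1)
  exact hn ⟨c' j, h2 j⟩

end Pool.Agent.PW
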