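import Pool.Agent.PW.Defs

/-!
Going down for homogeneous primes.
-/

open MvPolynomial Filter Topology

namespace Pool.Agent.PW

variable {E : Type*} [Field E] {W : Type*}

/-- Going down without homogeneity. -/
private theorem gd_aux (P : Ideal (MvPolynomial W E)) (hP : HP P) {d : ℕ}
    (z : Fin (d + 1) → MvPolynomial W E) (hz : NN P z)
    (p : MvPolynomial (Fin (d + 1)) E) (hp : Prime p)
    (Q' : Ideal (MvPolynomial W E)) (hQ' : Q'.IsPrime) (hPQ' : P ≤ Q') (hpQ' : aeval z p ∈ Q') :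
    ∃ Q, Over P Q z p ∧ Q ≤ Q' := by
  have hPp : P.IsPrime := hP.prime
  let φ : MvPolynomial (Fin (d + 1)) E →+* (MvPolynomial W E ⧸ P) :=
    (Ideal.Quotient.mk P).comp (aeval z : MvPolynomial (Fin (d + 1)) E →ₐ[E]
      MvPolynomial W E).toRingHom
  letI : Algebra (MvPolynomial (Fin (d + 1)) E) (MvPolynomial W E ⧸ P) := φ.toAlgebra
  have hφ : ∀ c, algebraMap (MvPolynomial (Fin (d + 1)) E) (MvPolynomial W E ⧸ P) c =
      Ideal.Quotient.mk P (aeval z c) := fun c => rfl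
  haveI : IsDomain (MvPolynomial W E ⧸ P) := Ideal.Quotient.isDomain P
  haveI : FaithfulSMul (MvPolynomial (Fin (d + 1)) E) (MvPolynomial W E ⧸ P) := by
    rw [faithfulSMul_iff_algebraMap_injective, injective_iff_map_eq_zero]
    intro c hc
    rw [hφ, Ideal.Quotient.eq_zero_iff_mem] at hc
    exact hz.inj c hc
  haveI : Algebra.IsIntegral (MvPolynomial (Fin (d + 1)) E) (MvPolynomial W E ⧸ P) := by
    constructor
    intro x
    obtain ⟨F, rfl⟩ := Ideal.Quotient.mk_surjective x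
    obtain ⟨k, A, hA⟩ := hz.int F
    refine ⟨Polynomial.X ^ k + ∑ i : Fin k, Polynomial.C (A i) * Polynomial.X ^ (i : ℕ),
      Polynomial.monic_X_pow_add (Polynomial.degree_sum_fin_lt A), ?_⟩
    rw [Polynomial.eval₂_add, Polynomial.eval₂_finset_sum]
    simp only [Polynomial.eval₂_mul, Polynomial.eval₂_pow, Polynomial.eval₂_X,
      Polynomial.eval₂_C, hφ]
    rw [← Ideal.Quotient.eq_zero_iff_mem] at hA
    rw [← hA]
    simp only [map_add, map_sum, map_mul, map_pow]
  haveI hQR : (Q'.map (Ideal.Quotient.mk P)).IsPrime :=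
    Ideal.map_isPrime_of_surjective Ideal.Quotient.mk_surjective (by rwa [Ideal.mk_ker])
  haveI hpp : (Ideal.span {p}).IsPrime := (Ideal.span_singleton_prime hp.ne_zero).2 hp
  have hle : Ideal.span {p} ≤ (Q'.map (Ideal.Quotient.mk P)).under
      (MvPolynomial (Fin (d + 1)) E) := by
    rw [Ideal.span_le, Set.singleton_subset_iff]
    exact Ideal.mem_map_of_mem (Ideal.Quotient.mk P) hpQ'
  obtain ⟨Q0, hQ0, hQ0p, hQ0l⟩ := Ideal.exists_ideal_le_liesOver_of_le
    (Q'.map (Ideal.Quotient.mk P)) hle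
  refine ⟨Q0.comap (Ideal.Quotient.mk P), ⟨Ideal.comap_isPrime _ _, ?_, ?_⟩, ?_⟩
  · intro F hF
    rw [Ideal.mem_comap, Ideal.Quotient.eq_zero_iff_mem.2 hF]
    exact Q0.zero_mem
  · intro c
    have h1 := hQ0l.over
    have h2 : c ∈ Ideal.span {p} ↔ aeval z c ∈ Q0.comap (Ideal.Quotient.mk P) := by
      rw [h1]
      rfl
    rw [← h2, Ideal.mem_span_singleton]
  · intro F hF
    have h1 := hQ0 hF
    exact (Ideal.mem_quotient_iff_mem hPQ').1 h1

attribute [local instance] MvPolynomial.gradedAlgebra in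
theorem going_down (P : Ideal (MvPolynomial W E)) (hP : HP P) {d : ℕ}
    (z : Fin (d + 1) → MvPolynomial W E) (hz : NN P z)
    (p : MvPolynomial (Fin (d + 1)) E) (hp : Prime p) (δ : ℕ) (hpδ : p.IsHomogeneous δ)
    (Q' : Ideal (MvPolynomial W E)) (hQ' : Q'.IsPrime) (hPQ' : P ≤ Q') (hpQ' : aeval z p ∈ Q') :
    ∃ Q, Over P Q z p ∧ Q ≤ Q' ∧ ∀ F ∈ Q, ∀ k : ℕ, homogeneousComponent k F ∈ Q := by
  obtain ⟨Q0, ⟨h1, h2, h3⟩, h4⟩ := gd_aux P hP z hz p hp Q' hQ' hPQ' hpQ'
  have hcore := Ideal.toIdeal_homogeneousCore_le (homogeneousSubmodule W E) Q0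
  have hmem : ∀ (F : MvPolynomial W E) (k : ℕ), F.IsHomogeneous k → F ∈ Q0 →
      F ∈ (Q0.homogeneousCore (homogeneousSubmodule W E)).toIdeal := fun F k hF hFQ =>
    Ideal.mem_homogeneousCore_of_homogeneous_of_mem
      (𝒜 := homogeneousSubmodule W E) ⟨k, (mem_homogeneousSubmodule k F).2 hF⟩ hFQ
  refine ⟨(Q0.homogeneousCore (homogeneousSubmodule W E)).toIdeal, ⟨?_, ?_, ?_⟩,
    hcore.trans h4, ?_⟩
  · exact Ideal.IsPrime.homogeneousCore h1
  · intro F hF
    rw [← sum_homogeneousComponent F]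
    refine Ideal.sum_mem _ fun k _ => ?_
    exact hmem _ k (homogeneousComponent_isHomogeneous k F) (h2 (hP.hom F hF k))
  · intro c
    constructor
    · intro hc
      exact (h3 c).1 (hcore hc)
    · rintro ⟨c', rfl⟩
      rw [map_mul]
      apply Ideal.mul_mem_right
      refine hmem _ (1 * δ) (hpδ.aeval z fun i => hz.lin i) ?_
      exact (h3 p).2 dvd_rfl
  · intro F hF k
    exact homogeneousComponent_mem_of_mem
      (HomogeneousIdeal.isHomogeneous (Q0.homogeneousCore (homogeneousSubmodule W E))) hF k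

end Pool.Agent.PW
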