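import Pool.Agent.PW.Defs

/-!
The prime factors of a form.
-/

open MvPolynomial Filter Topology

namespace Pool.Agent.PW

variable {E : Type*} [Field E] {W : Type*}

/-- The map `X w ↦ X w * T`. -/
private noncomputable def hfPhi (E W : Type*) [Field E] :
    MvPolynomial W E →ₐ[E] Polynomial (MvPolynomial W E) :=
  aeval fun w => Polynomial.C (X w) * Polynomial.X

private theorem hfPhi_hom (F : MvPolynomial W E) (k : ℕ) (hF : F.IsHomogeneous k) :
    hfPhi E W F = Polynomial.C F * Polynomial.X ^ k := by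
  have e0 : F = ∑ s ∈ F.support, monomial s (F.coeff s) := F.as_sum
  conv_lhs => rw [e0]
  conv_rhs => rw [e0]
  rw [map_sum, map_sum, Finset.sum_mul]
  refine Finset.sum_congr rfl fun s hs => ?_
  have hsk : ∑ i ∈ s.support, s i = k := by
    have := hF (mem_support_iff.1 hs)
    rw [Finsupp.weight_apply] at this
    simpa [Finsupp.sum] using this
  rw [hfPhi, aeval_monomial, Finsupp.prod]
  simp only [mul_pow, Finset.prod_mul_distrib]
  rw [Finset.prod_pow_eq_pow_sum, hsk, ← mul_assoc]
  congr 1
  rw [monomial_eq, Finsupp.prod, map_mul, map_prod]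
  simp only [map_pow]
  congr 1

private theorem hfPhi_coeff (F : MvPolynomial W E) (k : ℕ) :
    (hfPhi E W F).coeff k = homogeneousComponent k F := by
  conv_lhs => rw [← sum_homogeneousComponent F]
  rw [map_sum, Polynomial.finsetSum_coeff]
  have h1 : ∀ j ∈ Finset.range (F.totalDegree + 1),
      (hfPhi E W (homogeneousComponent j F)).coeff k = if j = k then
        homogeneousComponent j F else 0 := by
    intro j _
    rw [hfPhi_hom _ j (homogeneousComponent_isHomogeneous j F), Polynomial.coeff_C_mul,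
      Polynomial.coeff_X_pow]
    by_cases h : k = j
    · simp [h]
    · simp [h, Ne.symm h]
  rw [Finset.sum_congr rfl h1, Finset.sum_ite_eq' (Finset.range (F.totalDegree + 1)) k]
  by_cases hk : k ∈ Finset.range (F.totalDegree + 1)
  · rw [if_pos hk]
  · rw [if_neg hk, homogeneousComponent_eq_zero]
    rw [Finset.mem_range] at hk
    omega

private theorem hf_of_natDegree {A : MvPolynomial W E} {a : ℕ}
    (h : ∀ k, k ≠ a → (hfPhi E W A).coeff k = 0) : A.IsHomogeneous a := by
  have h1 : A = homogeneousComponent a A := by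
    conv_lhs => rw [← sum_homogeneousComponent A]
    by_cases ha : a ∈ Finset.range (A.totalDegree + 1)
    · rw [Finset.sum_eq_single_of_mem a ha]
      intro k _ hk
      rw [← hfPhi_coeff, h k hk]
    · have h2 : homogeneousComponent a A = 0 := by
        apply homogeneousComponent_eq_zero
        rw [Finset.mem_range] at ha
        omega
      rw [h2]
      refine Finset.sum_eq_zero fun k hk => ?_
      rw [← hfPhi_coeff, h k]
      rintro rfl
      exact ha hk
  rw [h1]
  exact homogeneousComponent_isHomogeneous a A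

/-- The factors of a form are forms. -/
theorem hf_mul {A B G : MvPolynomial W E} {g : ℕ} (hG : G.IsHomogeneous g) (h0 : G ≠ 0)
    (h : A * B = G) : ∃ a b : ℕ, a + b = g ∧ A.IsHomogeneous a ∧ B.IsHomogeneous b := by
  have h1 : hfPhi E W A * hfPhi E W B = Polynomial.C G * Polynomial.X ^ g := by
    rw [← map_mul, h, hfPhi_hom G g hG]
  have h2 : hfPhi E W A * hfPhi E W B ≠ 0 := by
    rw [h1]
    exact mul_ne_zero (Polynomial.C_ne_zero.mpr h0) (pow_ne_zero _ Polynomial.X_ne_zero)
  have hA := left_ne_zero_of_mul h2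
  have hB := right_ne_zero_of_mul h2
  have h3 : (hfPhi E W A).natDegree + (hfPhi E W B).natDegree = g := by
    rw [← Polynomial.natDegree_mul hA hB, h1, Polynomial.natDegree_C_mul_X_pow g G h0]
  have h4 : (hfPhi E W A).natTrailingDegree + (hfPhi E W B).natTrailingDegree = g := by
    rw [← Polynomial.natTrailingDegree_mul hA hB, h1]
    have : Polynomial.C G * Polynomial.X ^ g = Polynomial.monomial g G :=
      Polynomial.C_mul_X_pow_eq_monomial
    rw [this, Polynomial.natTrailingDegree_monomial h0]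
  have h5 := Polynomial.natTrailingDegree_le_natDegree (hfPhi E W A)
  have h6 := Polynomial.natTrailingDegree_le_natDegree (hfPhi E W B)
  refine ⟨_, _, h3, hf_of_natDegree fun k hk => ?_, hf_of_natDegree fun k hk => ?_⟩
  · rcases lt_or_gt_of_ne hk with h7 | h7
    · exact Polynomial.coeff_eq_zero_of_lt_natTrailingDegree (by omega)
    · exact Polynomial.coeff_eq_zero_of_natDegree_lt h7
  · rcases lt_or_gt_of_ne hk with h7 | h7
    · exact Polynomial.coeff_eq_zero_of_lt_natTrailingDegree (by omega)
    · exact Polynomial.coeff_eq_zero_of_natDegree_lt h7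

private theorem hf_multiset (f : Multiset (MvPolynomial W E)) : (∀ p ∈ f, Prime p) →
    ∀ g : ℕ, f.prod.IsHomogeneous g → Multiset.card f ≤ g ∧
      ∀ p ∈ f, ∃ δ, 1 ≤ δ ∧ δ ≤ g ∧ p.IsHomogeneous δ := by
  induction f using Multiset.induction with
  | empty => intro _ g _; simp
  | cons p f ih =>
    intro hp g hg
    have hne : (p ::ₘ f).prod ≠ 0 := by
      apply Multiset.prod_ne_zero
      intro h
      exact (hp 0 h).ne_zero rfl
    obtain ⟨a, b, hab, ha, hb⟩ := hf_mul hg hne (Multiset.prod_cons p f).symm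
    obtain ⟨h1, h2⟩ := ih (fun q hq => hp q (Multiset.mem_cons_of_mem hq)) b hb
    have hpp := hp p (Multiset.mem_cons_self p f)
    have ha1 : 1 ≤ a := by
      by_contra hc
      have ha0 : a = 0 := by omega
      subst ha0
      have h3 : p = C (p.coeff 0) := by
        have := (totalDegree_eq_zero_iff_eq_C (p := p)).mp (Nat.le_zero.mp ha.totalDegree_le)
        exact this
      have h4 : p.coeff 0 ≠ 0 := by
        intro h5
        rw [h5, C_0] at h3
        exact hpp.ne_zero h3
      apply hpp.not_unit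
      rw [h3]
      exact (isUnit_iff_ne_zero.mpr h4).map C
    refine ⟨by rw [Multiset.card_cons]; omega, fun q hq => ?_⟩
    rcases Multiset.mem_cons.mp hq with rfl | hq
    · exact ⟨a, ha1, by omega, ha⟩
    · obtain ⟨δ, h5, h6, h7⟩ := h2 q hq
      exact ⟨δ, h5, by omega, h7⟩

theorem hfactors {d : ℕ} (g : ℕ) (G : MvPolynomial (Fin (d + 1)) E) (hG : G.IsHomogeneous g)
    (h0 : G ≠ 0) : ∃ s : Finset (MvPolynomial (Fin (d + 1)) E), s.card ≤ g ∧
      (∀ p ∈ s, Prime p ∧ ∃ δ, 1 ≤ δ ∧ δ ≤ g ∧ p.IsHomogeneous δ) ∧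
      ∀ I : Ideal (MvPolynomial (Fin (d + 1)) E), I.IsPrime → G ∈ I → ∃ p ∈ s, p ∈ I := by
  classical
  obtain ⟨f, hf1, u, hf2⟩ := UniqueFactorizationMonoid.exists_prime_factors G h0
  obtain ⟨a, b, hab, ha, -⟩ := hf_mul hG h0 hf2
  obtain ⟨h1, h2⟩ := hf_multiset f hf1 a ha
  refine ⟨f.toFinset, (Multiset.toFinset_card_le f).trans (by omega), fun p hp => ?_,
    fun I hI hGI => ?_⟩
  · rw [Multiset.mem_toFinset] at hp
    obtain ⟨δ, h3, h4, h5⟩ := h2 p hp
    exact ⟨hf1 p hp, δ, h3, by omega, h5⟩
  · rw [← hf2] at hGI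
    rcases hI.mem_or_mem hGI with h | h
    · obtain ⟨p, hp, hpI⟩ := (hI.multiset_prod_mem_iff_exists_mem f).mp h
      exact ⟨p, Multiset.mem_toFinset.mpr hp, hpI⟩
    · exact absurd (I.eq_top_of_isUnit_mem h u.isUnit) hI.ne_top

end Pool.Agent.PW
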