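import Pool.Agent.PW.Defs

/-!
Noether normalisation of the components of a hypersurface section.
-/

open MvPolynomial Filter Topology

namespace Pool.Agent.PW

variable {E : Type*} [Field E] {W : Type*}

/-! ### dependence modulo `P` with a coefficient which is not divisible by `p` -/

private theorem nnq_dep (P : Ideal (MvPolynomial W E)) (hP : P.IsPrime) {d : ℕ}
    (z : Fin (d + 1) → MvPolynomial W E) (hz : NN P z) (e : ℕ) (he : RankLE P z e)
    (p : MvPolynomial (Fin (d + 1)) E) (hp : Prime p) (v : Fin (e + 1) → MvPolynomial W E) :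
    ∃ c : Fin (e + 1) → MvPolynomial (Fin (d + 1)) E, ∑ i, aeval z (c i) * v i ∈ P ∧
      ∃ j, ¬ p ∣ c j := by
  by_contra hcon
  push Not at hcon
  apply he v
  intro c hc
  have key : ∀ n : ℕ, ∃ c' : Fin (e + 1) → MvPolynomial (Fin (d + 1)) E,
      ∑ i, aeval z (c' i) * v i ∈ P ∧ ∀ j, c j = p ^ n * c' j := by
    intro n
    induction n with
    | zero => exact ⟨c, hc, fun j => by simp⟩
    | succ n ih =>
      obtain ⟨c', h1, h2⟩ := ih
      have h3 := hcon c' h1
      choose c'' hc'' using h3
      refine ⟨c'', ?_, fun j => by rw [h2 j, hc'' j, pow_succ, mul_assoc]⟩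
      have h8 : ∑ i, aeval z (c' i) * v i = aeval z p * ∑ i, aeval z (c'' i) * v i := by
        rw [Finset.mul_sum]
        refine Finset.sum_congr rfl fun i _ => ?_
        rw [hc'' i, map_mul, mul_assoc]
      rw [h8] at h1
      rcases hP.mem_or_mem h1 with h9 | h9
      · exact absurd (hz.inj p h9) hp.ne_zero
      · exact h9
  funext j
  by_contra hj
  obtain ⟨n, hn⟩ := FiniteMultiplicity.of_not_isUnit hp.not_isUnit hj
  obtain ⟨c', -, h2⟩ := key (n + 1)
  exact hn ⟨c' j, h2 j⟩

/-! ### the change of variables -/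

/-- `Z 0 ↦ T`, `Z (i + 1) ↦ Z i + μ i T`. -/
private noncomputable def shear {d : ℕ} (μ : Fin d → E) :
    MvPolynomial (Fin (d + 1)) E →ₐ[E] Polynomial (MvPolynomial (Fin d) E) :=
  aeval (Fin.cases Polynomial.X fun i => Polynomial.C (X i) + Polynomial.C (C (μ i)) * Polynomial.X)

private theorem shear_zero {d : ℕ} (μ : Fin d → E) : shear μ (X 0) = Polynomial.X := by
  simp [shear]

private theorem shear_succ {d : ℕ} (μ : Fin d → E) (i : Fin d) :
    shear μ (X i.succ) = Polynomial.C (X i) + Polynomial.C (C (μ i)) * Polynomial.X := by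
  simp [shear]

private theorem shear_C {d : ℕ} (μ : Fin d → E) (a : E) :
    shear μ (C a) = Polynomial.C (C a) := by
  rw [← algebraMap_eq, AlgHom.commutes]
  rfl

private theorem shear_mon {d : ℕ} (μ : Fin d → E) (s : Fin (d + 1) →₀ ℕ) (a : E) :
    (shear μ (monomial s a)).natDegree ≤ s.degree ∧
      (shear μ (monomial s a)).coeff s.degree =
        C (eval (Fin.cons 1 μ : Fin (d + 1) → E) (monomial s a)) := by
  have hX : ∀ i : Fin (d + 1), (shear μ (X i)).natDegree ≤ 1 ∧
      (shear μ (X i)).coeff 1 = C ((Fin.cons 1 μ : Fin (d + 1) → E) i) := by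
    intro i
    refine Fin.cases ?_ (fun i => ?_) i
    · rw [shear_zero]
      simp
    · rw [shear_succ]
      constructor
      · refine (Polynomial.natDegree_add_le _ _).trans (max_le ?_ ?_)
        · simp
        · exact (Polynomial.natDegree_C_mul_le _ _).trans Polynomial.natDegree_X_le
      · simp
  have hprod : ∀ t : Finset (Fin (d + 1)),
      (shear μ (∏ i ∈ t, X i ^ s i)).natDegree ≤ ∑ i ∈ t, s i ∧
      (shear μ (∏ i ∈ t, X i ^ s i)).coeff (∑ i ∈ t, s i) =
        C (∏ i ∈ t, (Fin.cons 1 μ : Fin (d + 1) → E) i ^ s i) := by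
    classical
    intro t
    induction t using Finset.induction_on with
    | empty => simp
    | insert i t hi ih =>
      rw [Finset.prod_insert hi, Finset.sum_insert hi, Finset.prod_insert hi, map_mul, map_pow]
      have h1 : (shear μ (X i) ^ s i).natDegree ≤ s i := by
        refine Polynomial.natDegree_pow_le.trans ?_
        calc s i * (shear μ (X i)).natDegree ≤ s i * 1 := Nat.mul_le_mul_left _ (hX i).1
          _ = s i := mul_one _
      constructor
      · exact Polynomial.natDegree_mul_le.trans (add_le_add h1 ih.1)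
      · rw [Polynomial.coeff_mul_add_eq_of_natDegree_le h1 ih.1, ih.2, map_mul, map_pow]
        congr 1
        have h2 := Polynomial.coeff_pow_of_natDegree_le (m := s i) (hX i).1
        rw [mul_one] at h2
        rw [h2, (hX i).2]
  have hmon : monomial s a = C a * ∏ i, X i ^ s i := by
    rw [monomial_eq, Finsupp.prod_fintype _ _ (fun i => pow_zero _)]
  have hdeg : s.degree = ∑ i, s i := Finsupp.degree_eq_sum s
  rw [hmon, hdeg, map_mul, shear_C, Polynomial.coeff_C_mul, (hprod Finset.univ).2]
  refine ⟨(Polynomial.natDegree_C_mul_le _ _).trans (hprod Finset.univ).1, ?_⟩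
  simp [eval_mul]

private theorem shear_hom {d : ℕ} (μ : Fin d → E) (p : MvPolynomial (Fin (d + 1)) E) (δ : ℕ)
    (hp : p.IsHomogeneous δ) : (shear μ p).natDegree ≤ δ ∧
      (shear μ p).coeff δ = C (eval (Fin.cons 1 μ : Fin (d + 1) → E) p) := by
  have hs : ∀ s ∈ p.support, s.degree = δ := by
    intro s hs
    have := hp (mem_support_iff.1 hs)
    rw [Finsupp.degree_eq_weight_one]
    exact this
  have h1 : p = ∑ s ∈ p.support, monomial s (coeff s p) := (support_sum_monomial_coeff p).symm
  have h2 : shear μ p = ∑ s ∈ p.support, shear μ (monomial s (coeff s p)) := by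
    conv_lhs => rw [h1]
    rw [map_sum]
  have h3 : eval (Fin.cons 1 μ : Fin (d + 1) → E) p =
      ∑ s ∈ p.support, eval (Fin.cons 1 μ : Fin (d + 1) → E) (monomial s (coeff s p)) := by
    conv_lhs => rw [h1]
    rw [map_sum]
  constructor
  · rw [h2]
    refine Polynomial.natDegree_sum_le_of_forall_le _ _ fun s hs' => ?_
    rw [← hs s hs']
    exact (shear_mon μ s _).1
  · rw [h2, h3, Polynomial.finsetSum_coeff, map_sum]
    refine Finset.sum_congr rfl fun s hs' => ?_
    rw [← (shear_mon μ s _).2, hs s hs']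

private theorem shear_eval {d : ℕ} (μ : Fin d → E) (z : Fin (d + 1) → MvPolynomial W E)
    (c : MvPolynomial (Fin (d + 1)) E) :
    Polynomial.eval₂ (aeval (fun i : Fin d => z i.succ - C (μ i) * z 0) :
      MvPolynomial (Fin d) E →ₐ[E] MvPolynomial W E).toRingHom (z 0) (shear μ c) = aeval z c := by
  induction c using MvPolynomial.induction_on with
  | C a => rw [shear_C]; simp
  | add p q hp hq => rw [map_add, map_add, Polynomial.eval₂_add, hp, hq]
  | mul_X p i hp =>
    rw [map_mul, map_mul, Polynomial.eval₂_mul, hp]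
    congr 1
    refine Fin.cases ?_ (fun i => ?_) i
    · rw [shear_zero]; simp
    · rw [shear_succ]; simp

private theorem shear_lift {d : ℕ} (μ : Fin d → E) (c : MvPolynomial (Fin d) E) :
    shear μ (aeval (fun i : Fin d => X i.succ - C (μ i) * X 0) c) = Polynomial.C c := by
  induction c using MvPolynomial.induction_on with
  | C a => rw [← shear_C μ a]; simp
  | add p q hp hq => rw [map_add, map_add, hp, hq, map_add]
  | mul_X p i hp =>
    rw [map_mul, map_mul, hp, aeval_X, map_sub, map_mul, shear_succ, shear_C, shear_zero]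
    simp

private theorem lift_eval {d : ℕ} (μ : Fin d → E) (z : Fin (d + 1) → MvPolynomial W E)
    (c : MvPolynomial (Fin d) E) :
    aeval z (aeval (fun i : Fin d => (X i.succ - C (μ i) * X 0 : MvPolynomial (Fin (d + 1)) E)) c) =
      aeval (fun i : Fin d => z i.succ - C (μ i) * z 0) c := by
  induction c using MvPolynomial.induction_on with
  | C a => simp
  | add p q hp hq => rw [map_add, map_add, hp, hq, map_add]
  | mul_X p i hp => rw [map_mul, map_mul, hp, map_mul]; simp

private theorem exists_mu [Infinite E] {d : ℕ} (p : MvPolynomial (Fin (d + 1)) E) (δ : ℕ)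
    (hp : p.IsHomogeneous δ) (hp0 : p ≠ 0) :
    ∃ μ : Fin d → E, eval (Fin.cons 1 μ : Fin (d + 1) → E) p ≠ 0 := by
  have h1 : X 0 * p ≠ 0 := mul_ne_zero (X_ne_zero _) hp0
  have h2 : ∃ l : Fin (d + 1) → E, eval l (X 0 * p) ≠ 0 := by
    by_contra hcon
    push Not at hcon
    exact h1 (MvPolynomial.funext fun l => by rw [hcon l, map_zero])
  obtain ⟨l, hl⟩ := h2
  rw [map_mul, eval_X] at hl
  have hl0 : l 0 ≠ 0 := left_ne_zero_of_mul hl
  have hlp : eval l p ≠ 0 := right_ne_zero_of_mul hl
  refine ⟨fun i => l i.succ / l 0, fun h => hlp ?_⟩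
  have h3 : eval l p = l 0 ^ δ * eval (Fin.cons 1 (fun i => l i.succ / l 0) : Fin (d + 1) → E) p := by
    rw [eval_eq, eval_eq, Finset.mul_sum]
    refine Finset.sum_congr rfl fun s hs => ?_
    have hs' : s.degree = δ := by
      have := hp (mem_support_iff.1 hs)
      rw [Finsupp.degree_eq_weight_one]
      exact this
    have h4 : l 0 ^ δ = ∏ i ∈ s.support, l 0 ^ s i := by
      rw [Finset.prod_pow_eq_pow_sum, ← hs', Finsupp.degree_apply]
    rw [h4, mul_left_comm, ← Finset.prod_mul_distrib]
    congr 1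
    refine Finset.prod_congr rfl fun i _ => ?_
    rw [← mul_pow]
    congr 1
    refine Fin.cases ?_ (fun i => ?_) i
    · simp
    · simp only [Fin.cons_succ]
      field_simp
  rw [h3, h, mul_zero]

/-! ### integrality -/

/-- The data of the change of variables: the polynomial `p`, as a polynomial in `z 0`, is
monic up to a constant. -/
private theorem exists_monic [Infinite E] {d : ℕ} (p : MvPolynomial (Fin (d + 1)) E) (δ : ℕ)
    (hp : p.IsHomogeneous δ) (hpp : Prime p) :
    ∃ (μ : Fin d → E) (u : E) (q : Polynomial (MvPolynomial (Fin d) E)), u ≠ 0 ∧ q.Monic ∧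
      q.natDegree = δ ∧ 1 ≤ δ ∧ shear μ p = Polynomial.C (C u) * q := by
  obtain ⟨μ, hμ⟩ := exists_mu p δ hp hpp.ne_zero
  obtain ⟨h1, h2⟩ := shear_hom μ p δ hp
  set u : E := eval (Fin.cons 1 μ : Fin (d + 1) → E) p with hu
  set q : Polynomial (MvPolynomial (Fin d) E) := Polynomial.C (C u⁻¹) * shear μ p with hq
  have hqc : q.coeff δ = 1 := by
    rw [hq, Polynomial.coeff_C_mul, h2, ← C_mul, inv_mul_cancel₀ hμ, C_1]
  have hqd : q.natDegree ≤ δ := (Polynomial.natDegree_C_mul_le _ _).trans h1
  have hqm : q.Monic := Polynomial.monic_of_natDegree_le_of_coeff_eq_one δ hqd hqc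
  refine ⟨μ, u, q, hμ, hqm, ?_, ?_, ?_⟩
  · apply le_antisymm hqd
    apply Polynomial.le_natDegree_of_ne_zero
    rw [hqc]
    exact one_ne_zero
  · by_contra h0
    have h0' : δ = 0 := by omega
    subst h0'
    apply hpp.not_isUnit
    have h3 := (totalDegree_zero_iff_isHomogeneous _).2 hp
    rw [totalDegree_eq_zero_iff_eq_C] at h3
    rw [h3]
    apply IsUnit.map
    rw [isUnit_iff_ne_zero]
    intro h4
    rw [h4, map_zero] at h3
    exact hpp.ne_zero h3
  · rw [hq, ← mul_assoc, ← Polynomial.C_mul, ← C_mul, mul_inv_cancel₀ hμ, C_1, Polynomial.C_1,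
      one_mul]

/-- If all the values are integral over a ring of integral elements, they are integral. -/
private theorem int_trans {A R : Type*} [CommRing A] [CommRing R] [Algebra A R] (x : R) (k : ℕ)
    (a : Fin k → R) (ha : ∀ i, IsIntegral A (a i)) (hx : x ^ k + ∑ i, a i * x ^ (i : ℕ) = 0) :
    IsIntegral A x := by
  have h1 : IsIntegral (integralClosure A R) x := by
    refine ⟨Polynomial.X ^ k + ∑ i : Fin k, Polynomial.C (⟨a i, ha i⟩ : integralClosure A R) *
      Polynomial.X ^ (i : ℕ), Polynomial.monic_X_pow_add (Polynomial.degree_sum_fin_lt _), ?_⟩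
    rw [Polynomial.eval₂_add, Polynomial.eval₂_pow, Polynomial.eval₂_X, Polynomial.eval₂_finsetSum]
    rw [← hx]
    congr 1
    refine Finset.sum_congr rfl fun i _ => ?_
    rw [Polynomial.eval₂_mul, Polynomial.eval₂_C, Polynomial.eval₂_pow, Polynomial.eval₂_X]
    rfl
  exact isIntegral_trans (R := A) (A := integralClosure A R) x h1

/-- Integrality over the new family of linear forms. -/
private theorem nnq_int {d : ℕ} (z : Fin (d + 1) → MvPolynomial W E)
    (P Q : Ideal (MvPolynomial W E)) (hz : NN P z) (hPQ : P ≤ Q) (μ : Fin d → E)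
    (q : Polynomial (MvPolynomial (Fin d) E)) (hq : q.Monic)
    (hq0 : Polynomial.eval₂ (aeval (fun i : Fin d => z i.succ - C (μ i) * z 0) :
      MvPolynomial (Fin d) E →ₐ[E] MvPolynomial W E).toRingHom (z 0) q ∈ Q)
    (F : MvPolynomial W E) : ∃ (k : ℕ) (A : Fin k → MvPolynomial (Fin d) E),
    F ^ k + ∑ i, aeval (fun i : Fin d => z i.succ - C (μ i) * z 0) (A i) * F ^ (i : ℕ) ∈ Q := by
  set zz : Fin d → MvPolynomial W E := fun i => z i.succ - C (μ i) * z 0 with hzz
  set f' : MvPolynomial (Fin d) E →+* MvPolynomial W E ⧸ Q :=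
    (Ideal.Quotient.mk Q).comp (aeval zz : MvPolynomial (Fin d) E →ₐ[E] MvPolynomial W E).toRingHom
    with hf'
  let _ : Algebra (MvPolynomial (Fin d) E) (MvPolynomial W E ⧸ Q) := f'.toAlgebra
  have hz0 : IsIntegral (MvPolynomial (Fin d) E) (Ideal.Quotient.mk Q (z 0)) := by
    refine ⟨q, hq, ?_⟩
    have h1 := Polynomial.hom_eval₂ q (aeval zz : MvPolynomial (Fin d) E →ₐ[E]
      MvPolynomial W E).toRingHom (Ideal.Quotient.mk Q) (z 0)
    rw [Ideal.Quotient.eq_zero_iff_mem.2 hq0] at h1
    exact h1.symm
  have hall : ∀ c : MvPolynomial (Fin (d + 1)) E,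
      IsIntegral (MvPolynomial (Fin d) E) (Ideal.Quotient.mk Q (aeval z c)) := by
    have hC : ∀ a : E, IsIntegral (MvPolynomial (Fin d) E) (Ideal.Quotient.mk Q (C a)) := by
      intro a
      have : Ideal.Quotient.mk Q (C a) =
          algebraMap (MvPolynomial (Fin d) E) (MvPolynomial W E ⧸ Q) (C a) := by
        show _ = f' (C a)
        simp [hf']
      rw [this]
      exact isIntegral_algebraMap
    intro c
    induction c using MvPolynomial.induction_on with
    | C a => simpa using hC a
    | add p q hp hq => rw [map_add, map_add]; exact hp.add hq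
    | mul_X p i hp =>
      rw [map_mul, map_mul, aeval_X]
      refine hp.mul ?_
      refine Fin.cases hz0 (fun i => ?_) i
      have h2 : z i.succ = zz i + C (μ i) * z 0 := by rw [hzz]; ring
      rw [h2, map_add, map_mul]
      refine IsIntegral.add ?_ ((hC _).mul hz0)
      have : Ideal.Quotient.mk Q (zz i) =
          algebraMap (MvPolynomial (Fin d) E) (MvPolynomial W E ⧸ Q) (X i) := by
        show _ = f' (X i)
        simp [hf']
      rw [this]
      exact isIntegral_algebraMap
  have hF : IsIntegral (MvPolynomial (Fin d) E) (Ideal.Quotient.mk Q F) := by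
    obtain ⟨k, A, hA⟩ := hz.int F
    refine int_trans _ k (fun i => Ideal.Quotient.mk Q (aeval z (A i))) (fun i => hall _) ?_
    have h3 := Ideal.Quotient.eq_zero_iff_mem.2 (hPQ hA)
    rw [map_add, map_pow, map_sum] at h3
    rw [← h3]
    simp only [map_mul, map_pow]
  obtain ⟨g, hg, hg0⟩ := hF
  refine ⟨g.natDegree, fun i => g.coeff i, ?_⟩
  rw [← Ideal.Quotient.eq_zero_iff_mem, ← hg0]
  conv_rhs => rw [hg.as_sum]
  rw [Polynomial.eval₂_add, Polynomial.eval₂_pow, Polynomial.eval₂_X, Polynomial.eval₂_finsetSum,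
    map_add, map_pow, map_sum, Finset.sum_range]
  congr 1
  refine Finset.sum_congr rfl fun i _ => ?_
  rw [Polynomial.eval₂_mul, Polynomial.eval₂_C, Polynomial.eval₂_pow, Polynomial.eval₂_X,
    map_mul, map_pow]
  rfl

/-! ### the rank -/

private theorem nnq_rank {d : ℕ} (z : Fin (d + 1) → MvPolynomial W E)
    (P Q : Ideal (MvPolynomial W E)) (hP : P.IsPrime) (hQ : Q.IsPrime) (hz : NN P z) (hPQ : P ≤ Q)
    (e : ℕ) (he : RankLE P z e) (p : MvPolynomial (Fin (d + 1)) E) (hp : Prime p)
    (hQp : ∀ c, aeval z c ∈ Q → p ∣ c) (μ : Fin d → E)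
    (q : Polynomial (MvPolynomial (Fin d) E)) (hq : q.Monic)
    (hq0 : Polynomial.eval₂ (aeval (fun i : Fin d => z i.succ - C (μ i) * z 0) :
      MvPolynomial (Fin d) E →ₐ[E] MvPolynomial W E).toRingHom (z 0) q ∈ Q)
    (hinj : ∀ c : MvPolynomial (Fin d) E,
      aeval (fun i : Fin d => z i.succ - C (μ i) * z 0) c ∈ Q → c = 0)
    (v : Fin (e * q.natDegree + 1) → MvPolynomial W E) :
    ¬ ∀ c : Fin (e * q.natDegree + 1) → MvPolynomial (Fin d) E,
      ∑ i, aeval (fun i : Fin d => z i.succ - C (μ i) * z 0) (c i) * v i ∈ Q → c = 0 := by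
  classical
  intro hv
  set zz : Fin d → MvPolynomial W E := fun i => z i.succ - C (μ i) * z 0 with hzz
  set A := MvPolynomial (Fin d) E with hA
  set R := MvPolynomial W E ⧸ Q with hR
  set π : MvPolynomial W E →+* R := Ideal.Quotient.mk Q with hπ
  set f' : A →+* R := π.comp (aeval zz : A →ₐ[E] MvPolynomial W E).toRingHom with hf'
  have hf'i : Function.Injective f' := by
    rw [injective_iff_map_eq_zero]
    intro a ha
    exact hinj a (Ideal.Quotient.eq_zero_iff_mem.1 ha)
  have : IsDomain R := Ideal.Quotient.isDomain Q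
  let _ : Algebra A R := f'.toAlgebra
  set L := FractionRing R with hL
  have hfA : FaithfulSMul A R := (faithfulSMul_iff_algebraMap_injective A R).2 hf'i
  have hfL : FaithfulSMul A L := by
    rw [faithfulSMul_iff_algebraMap_injective, IsScalarTower.algebraMap_eq A R L]
    exact (IsFractionRing.injective R L).comp hf'i
  set K := FractionRing A with hK
  let _ : Algebra K L := FractionRing.liftAlgebra A L
  have hT : IsScalarTower A K L := FractionRing.isScalarTower_liftAlgebra A L
  set θ : L := algebraMap R L (π (z 0)) with hθ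
  have hθq : Polynomial.aeval θ (q.map (algebraMap A K)) = 0 := by
    rw [Polynomial.aeval_map_algebraMap, Polynomial.aeval_def, hθ,
      IsScalarTower.algebraMap_eq A R L, ← Polynomial.hom_eval₂]
    have h1 := Polynomial.hom_eval₂ q (aeval zz : A →ₐ[E] MvPolynomial W E).toRingHom π (z 0)
    rw [Ideal.Quotient.eq_zero_iff_mem.2 hq0] at h1
    have h2 : Polynomial.eval₂ (algebraMap A R) (π (z 0)) q = 0 := h1.symm
    rw [h2, map_zero]
  have hθm : (q.map (algebraMap A K)).Monic := hq.map _
  have hθi : IsIntegral K θ := ⟨_, hθm, hθq⟩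
  have hdeg : (minpoly K θ).natDegree ≤ q.natDegree := by
    have h1 := minpoly.min K θ hθm hθq
    have h2 := Polynomial.natDegree_le_natDegree h1
    rwa [hq.natDegree_map] at h2
  set F := IntermediateField.adjoin K {θ} with hF
  have hrF : Module.rank K F ≤ q.natDegree := by
    have h1 : Module.Finite K F := IntermediateField.adjoin.finiteDimensional hθi
    rw [← Module.finrank_eq_rank, IntermediateField.adjoin.finrank hθi]
    exact_mod_cast hdeg
  -- all the values of polynomials in `z` are in `F`
  have hval : ∀ c : MvPolynomial (Fin (d + 1)) E, algebraMap R L (π (aeval z c)) ∈ F := by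
    have hbase : ∀ a : A, algebraMap R L (f' a) ∈ F := by
      intro a
      have h1 : algebraMap R L (f' a) = algebraMap K L (algebraMap A K a) := by
        rw [← IsScalarTower.algebraMap_apply A K L, IsScalarTower.algebraMap_apply A R L]
        rfl
      rw [h1]
      exact F.algebraMap_mem _
    have hC : ∀ a : E, algebraMap R L (π (C a)) ∈ F := by
      intro a
      have e1 : f' (C a) = π (C a) := by
        show π (aeval zz (C a)) = π (C a)
        rw [aeval_C]
        rfl
      rw [← e1]
      exact hbase (C a)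
    have hθF : θ ∈ F := IntermediateField.mem_adjoin_simple_self K θ
    intro c
    induction c using MvPolynomial.induction_on with
    | C a => simpa using hC a
    | add p q hp hq => rw [map_add, map_add, map_add]; exact F.add_mem hp hq
    | mul_X p i hp =>
      rw [map_mul, map_mul, map_mul, aeval_X]
      refine F.mul_mem hp ?_
      refine Fin.cases hθF (fun i => ?_) i
      have h2 : z i.succ = zz i + C (μ i) * z 0 := by rw [hzz]; ring
      rw [h2, map_add, map_add, map_mul, map_mul]
      refine F.add_mem ?_ (F.mul_mem (hC _) hθF)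
      have e1 : f' (X i) = π (zz i) := by
        show π (aeval zz (X i)) = π (zz i)
        rw [aeval_X]
      rw [← e1]
      exact hbase (X i)
  have hrL : Module.rank F L ≤ e := by
    refine rank_le fun s hs => ?_
    by_contra hcard
    rw [not_le] at hcard
    have hcard' : e + 1 ≤ Fintype.card s := by rw [Fintype.card_coe]; omega
    obtain ⟨em⟩ : Nonempty (Fin (e + 1) ↪ s) := by
      apply Function.Embedding.nonempty_of_card_le
      rwa [Fintype.card_fin]
    have hli : LinearIndependent F (fun i => (em i : L)) := hs.comp em em.injective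
    obtain ⟨b, hb⟩ := IsLocalization.exist_integer_multiples_of_finite (nonZeroDivisors R)
      (fun i => (em i : L))
    choose r hr using hb
    have hb0 : algebraMap R L (b : R) ≠ 0 := by
      rw [Ne, IsFractionRing.to_map_eq_zero_iff]
      exact nonZeroDivisors.ne_zero b.2
    have hsurj : ∀ i, ∃ w, π w = r i := fun i => Ideal.Quotient.mk_surjective (r i)
    choose w hw using hsurj
    obtain ⟨c, hc, j, hj⟩ := nnq_dep P hP z hz e he p hp w
    have h1 := congrArg (algebraMap R L) (Ideal.Quotient.eq_zero_iff_mem.2 (hPQ hc))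
    rw [map_zero, map_sum, map_sum] at h1
    have h2 : ∑ i, (⟨_, hval (c i)⟩ : F) • (em i : L) = 0 := by
      have h3 : algebraMap R L (b : R) * ∑ i, (⟨_, hval (c i)⟩ : F) • (em i : L) = 0 := by
        rw [← h1, Finset.mul_sum]
        refine Finset.sum_congr rfl fun i _ => ?_
        rw [map_mul, map_mul]
        have h4 : algebraMap R L (Ideal.Quotient.mk Q (w i)) =
            algebraMap R L (b : R) * (em i : L) := by
          have h5 := hr i
          rw [Algebra.smul_def] at h5
          rw [← h5, ← hw i]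
        rw [h4]
        show algebraMap R L (b : R) * (algebraMap R L (π (aeval z (c i))) * (em i : L)) = _
        ring
      exact (mul_eq_zero.1 h3).resolve_left hb0
    have h6 := Fintype.linearIndependent_iff.1 hli _ h2 j
    have h7 : algebraMap R L (π (aeval z (c j))) = 0 := congrArg Subtype.val h6
    rw [IsFractionRing.to_map_eq_zero_iff] at h7
    exact hj (hQp _ (Ideal.Quotient.eq_zero_iff_mem.1 h7))
  have hrK : Module.rank K L ≤ (q.natDegree * e : ℕ) := by
    rw [← rank_mul_rank K F L, Nat.cast_mul]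
    exact mul_le_mul' hrF hrL
  have hli : LinearIndependent A (fun i => algebraMap R L (π (v i))) := by
    rw [Fintype.linearIndependent_iff]
    intro g hg i
    have h1 : g = 0 := by
      apply hv
      rw [← Ideal.Quotient.eq_zero_iff_mem, map_sum]
      apply IsFractionRing.injective R L
      rw [map_zero, ← hg, map_sum]
      refine Finset.sum_congr rfl fun i _ => ?_
      rw [map_mul, map_mul, Algebra.smul_def, IsScalarTower.algebraMap_apply A R L]
      rfl
    rw [h1]
    rfl
  have hli' : LinearIndependent K (fun i => algebraMap R L (π (v i))) :=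
    (LinearIndependent.iff_fractionRing A K).1 hli
  have h1 := hli'.cardinal_lift_le_rank
  rw [Cardinal.mk_fin, Cardinal.lift_natCast] at h1
  have h2 := h1.trans (Cardinal.lift_le.2 hrK)
  rw [Cardinal.lift_natCast] at h2
  have h3 : e * q.natDegree + 1 ≤ q.natDegree * e := by exact_mod_cast h2
  rw [mul_comm] at h3
  omega

/-! ### the theorem -/

theorem nnq [Infinite E] (P : Ideal (MvPolynomial W E)) (hP : HP P) {d : ℕ}
    (z : Fin (d + 1) → MvPolynomial W E) (hz : NN P z) (e : ℕ) (he : RankLE P z e)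
    (p : MvPolynomial (Fin (d + 1)) E) (hp : Prime p) (δ : ℕ) (hpδ : p.IsHomogeneous δ)
    (Q : Ideal (MvPolynomial W E)) (hQ : HP Q) (hQp : Over P Q z p) :
    ∃ (d' : ℕ) (z' : Fin (d' + 1) → MvPolynomial W E), d' + 1 = d ∧ NN Q z' ∧
      RankLE Q z' (e * δ) := by
  obtain ⟨μ, u, q, hu, hqm, hqδ, hδ, hshear⟩ := exists_monic p δ hpδ hp
  obtain ⟨hQ1, hQ2, hQ3⟩ := hQp
  have hq0 : Polynomial.eval₂ (aeval (fun i : Fin d => z i.succ - C (μ i) * z 0) :
      MvPolynomial (Fin d) E →ₐ[E] MvPolynomial W E).toRingHom (z 0) q ∈ Q := by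
    have h1 := shear_eval μ z p
    rw [hshear, Polynomial.eval₂_mul, Polynomial.eval₂_C] at h1
    have h2 : aeval z p ∈ Q := (hQ3 p).2 dvd_rfl
    rw [← h1] at h2
    have h3 : (aeval (fun i : Fin d => z i.succ - C (μ i) * z 0) :
      MvPolynomial (Fin d) E →ₐ[E] MvPolynomial W E).toRingHom (C u) = C u := by
      show aeval (fun i : Fin d => z i.succ - C (μ i) * z 0) (C u) = C u
      rw [aeval_C]
      rfl
    rw [h3] at h2
    have h4 := Q.mul_mem_left (C u⁻¹) h2
    rwa [← mul_assoc, ← C_mul, inv_mul_cancel₀ hu, C_1, one_mul] at h4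
  have hinj : ∀ c : MvPolynomial (Fin d) E,
      aeval (fun i : Fin d => z i.succ - C (μ i) * z 0) c ∈ Q → c = 0 := by
    intro c hc
    by_contra hc0
    rw [← lift_eval μ z c] at hc
    obtain ⟨g, hg⟩ := (hQ3 _).1 hc
    have h1 := congrArg (shear μ) hg
    rw [shear_lift, map_mul, hshear] at h1
    have h2 : q ∣ Polynomial.C c := ⟨Polynomial.C (C u) * shear μ g, by rw [h1]; ring⟩
    have h3 : Polynomial.C c ≠ 0 := by rwa [Ne, Polynomial.C_eq_zero]
    refine hqm.not_dvd_of_natDegree_lt h3 ?_ h2
    rw [Polynomial.natDegree_C, hqδ]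
    omega
  have hint := nnq_int z P Q hz hQ2 μ q hqm hq0
  have hrank := nnq_rank z P Q hP.prime hQ1 hz hQ2 e he p hp (fun c => (hQ3 c).1) μ q hqm hq0 hinj
  rw [hqδ] at hrank
  have hlin : ∀ i : Fin d, (z i.succ - C (μ i) * z 0).IsHomogeneous 1 := by
    intro i
    exact (hz.lin _).sub ((hz.lin 0).C_mul (μ i))
  cases d with
  | zero =>
    exfalso
    obtain ⟨w, hw⟩ := hQ.rel
    obtain ⟨k, A, hA⟩ := hint (X w)
    have h1 := hQ.hom _ hA k
    rw [map_add, map_sum] at h1
    have h2 : ∀ i : Fin k, homogeneousComponent k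
        (aeval (fun i : Fin 0 => z i.succ - C (μ i) * z 0) (A i) * X w ^ (i : ℕ)) = 0 := by
      intro i
      rw [eq_C_of_isEmpty (A i), aeval_C, algebraMap_eq, homogeneousComponent_C_mul,
        homogeneousComponent_of_mem (isHomogeneous_X_pow w (i : ℕ)), if_neg, mul_zero]
      exact (ne_of_lt i.2).symm
    rw [Finset.sum_congr rfl fun i _ => h2 i, Finset.sum_const_zero, add_zero,
      homogeneousComponent_of_mem (isHomogeneous_X_pow w k), if_pos rfl] at h1
    exact hw (hQ1.mem_of_pow_mem _ h1)
  | succ d =>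
    exact ⟨d, fun i => z i.succ - C (μ i) * z 0, rfl, ⟨hlin, hinj, hint⟩, hrank⟩

end Pool.Agent.PW
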