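import Pool.Agent.PW.Norm
import Pool.Agent.PW.Hfact
import Pool.Agent.PW.Count
import Pool.Agent.PW.Gd
import Pool.Agent.PW.Nnq

/-!
The components of a hypersurface section.
-/

open MvPolynomial Filter Topology

namespace Pool.Agent.PW

variable {E : Type*} [Field E] {W : Type*}

theorem RankLE.mono {P : Ideal (MvPolynomial W E)} {d : ℕ}
    {z : Fin (d + 1) → MvPolynomial W E} {e e' : ℕ} (h : RankLE P z e) (hle : e ≤ e') :
    RankLE P z e' := by
  intro v hv
  apply h (fun i => v (Fin.castLE (by omega) i))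
  intro c hc
  classical
  have hinj : Function.Injective (Fin.castLE (show e + 1 ≤ e' + 1 by omega)) :=
    Fin.castLE_injective _
  have h1 := hv (Function.extend (Fin.castLE (show e + 1 ≤ e' + 1 by omega)) c 0) (by
    have h2 : ∑ i, aeval z (Function.extend (Fin.castLE (show e + 1 ≤ e' + 1 by omega)) c 0 i) *
        v i = ∑ i, aeval z (c i) * v (Fin.castLE (show e + 1 ≤ e' + 1 by omega) i) := by
      symm
      apply Finset.sum_of_injOn (Fin.castLE (show e + 1 ≤ e' + 1 by omega)) hinj.injOn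
      · intro i _
        simp
      · intro i _ hi
        rw [Function.extend_apply', Pi.zero_apply, map_zero, zero_mul]
        intro h
        apply hi
        obtain ⟨j, rfl⟩ := h
        exact ⟨j, by simp, rfl⟩
      · intro i _
        rw [hinj.extend_apply]
    rw [h2]
    exact hc)
  funext i
  have := congrFun h1 (Fin.castLE (by omega) i)
  rw [hinj.extend_apply] at this
  simpa using this

theorem point_prime (x : W → E) : ∃ Q : Ideal (MvPolynomial W E), Q.IsPrime ∧
    (∀ F, F ∈ Q ↔ ∀ k, eval x (homogeneousComponent k F) = 0) := by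
  set φ : MvPolynomial W E →ₐ[E] Polynomial E := aeval fun w => Polynomial.C (x w) * Polynomial.X
    with hφ
  have hφh : ∀ (F : MvPolynomial W E) (k : ℕ), F.IsHomogeneous k →
      φ F = Polynomial.C (eval x F) * Polynomial.X ^ k := by
    intro F k hF
    rw [hφ, aeval_def, eval₂_eq, eval_eq, map_sum, Finset.sum_mul]
    refine Finset.sum_congr rfl fun s hs => ?_
    have hsk : ∑ i ∈ s.support, s i = k := by
      have := hF (mem_support_iff.1 hs)
      rw [Finsupp.weight_apply] at this
      simpa [Finsupp.sum] using this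
    simp only [Polynomial.algebraMap_eq, mul_pow, Finset.prod_mul_distrib, map_mul, map_prod,
      map_pow]
    rw [Finset.prod_pow_eq_pow_sum, hsk, mul_assoc]
  have hφc : ∀ (F : MvPolynomial W E) (k : ℕ), (φ F).coeff k =
      eval x (homogeneousComponent k F) := by
    intro F k
    conv_lhs => rw [← sum_homogeneousComponent F]
    rw [map_sum, Polynomial.finsetSum_coeff]
    have h1 : ∀ j ∈ Finset.range (F.totalDegree + 1),
        (φ (homogeneousComponent j F)).coeff k = if j = k then
          eval x (homogeneousComponent j F) else 0 := by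
      intro j _
      rw [hφh _ j (homogeneousComponent_isHomogeneous j F), Polynomial.coeff_C_mul,
        Polynomial.coeff_X_pow]
      by_cases h : k = j
      · simp [h]
      · simp [h, Ne.symm h]
    rw [Finset.sum_congr rfl h1, Finset.sum_ite_eq' (Finset.range (F.totalDegree + 1)) k]
    by_cases hk : k ∈ Finset.range (F.totalDegree + 1)
    · rw [if_pos hk]
    · rw [if_neg hk, homogeneousComponent_eq_zero, map_zero]
      rw [Finset.mem_range] at hk
      omega
  refine ⟨RingHom.ker φ.toRingHom, RingHom.ker_isPrime _, fun F => ?_⟩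
  rw [RingHom.mem_ker]
  constructor
  · intro h k
    rw [← hφc]
    have : φ F = 0 := h
    rw [this]
    simp
  · intro h
    change φ F = 0
    ext k
    rw [hφc, h k]
    simp

theorem comp [Infinite E] (P : Ideal (MvPolynomial W E)) (hP : HP P) {d : ℕ}
    (z : Fin (d + 1) → MvPolynomial W E) (hz : NN P z) (e : ℕ) (he : RankLE P z e)
    (F : MvPolynomial W E) (D : ℕ) (hF : F.IsHomogeneous D) (hFP : F ∉ P) :
    ∃ S : Finset (Ideal (MvPolynomial W E)), S.card ≤ e * (e * D) ∧
      (∀ Q ∈ S, HP Q ∧ P ≤ Q ∧ ∃ (d' : ℕ) (z' : Fin (d' + 1) → MvPolynomial W E), d' + 1 = d ∧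
        NN Q z' ∧ RankLE Q z' (e * (e * D))) ∧
      ∀ x : W → E, x ≠ 0 → x ∈ Zeros P → eval x F = 0 → ∃ Q ∈ S, x ∈ Zeros Q := by
  classical
  obtain ⟨g, G, H, hg, hGh, hG0, hGF⟩ := norm_form P hP z hz e he F D hF hFP
  obtain ⟨s, hs1, hs2, hs3⟩ := hfactors g G hGh hG0
  -- the finite set of primes over `p`
  have hfin : ∀ p ∈ s, {Q | Over P Q z p ∧ HP Q}.Finite ∧
      {Q | Over P Q z p ∧ HP Q}.ncard ≤ e := by
    intro p hp
    have h1 := over_count P hP z hz e he p (hs2 p hp).1
    have h2 : {Q | Over P Q z p ∧ HP Q} ⊆ {Q | Over P Q z p} := fun Q hQ => hQ.1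
    have h3 : {Q | Over P Q z p ∧ HP Q}.encard ≤ e := (Set.encard_le_encard h2).trans h1
    have h4 : {Q | Over P Q z p ∧ HP Q}.Finite :=
      Set.finite_of_encard_le_coe h3
    refine ⟨h4, ?_⟩
    rw [← h4.cast_ncard_eq] at h3
    exact_mod_cast h3
  set T : MvPolynomial (Fin (d + 1)) E → Finset (Ideal (MvPolynomial W E)) := fun p =>
    if hp : p ∈ s then (hfin p hp).1.toFinset else ∅ with hT
  have hTc : ∀ p ∈ s, (T p).card ≤ e := by
    intro p hp
    have h1 := (hfin p hp).2
    simp only [hT, dif_pos hp]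
    rwa [Set.ncard_eq_toFinset_card _ (hfin p hp).1] at h1
  refine ⟨s.biUnion T, ?_, ?_, ?_⟩
  · calc (s.biUnion T).card ≤ s.card * e := Finset.card_biUnion_le_card_mul s T e hTc
      _ ≤ (e * D) * e := Nat.mul_le_mul_right e (hs1.trans hg)
      _ = e * (e * D) := by ring
  · intro Q hQ
    rw [Finset.mem_biUnion] at hQ
    obtain ⟨p, hp, hQp⟩ := hQ
    simp only [hT, dif_pos hp, Set.Finite.mem_toFinset] at hQp
    obtain ⟨hQo, hQ⟩ := hQp
    obtain ⟨hpp, δ, hδ1, hδ2, hpδ⟩ := hs2 p hp
    obtain ⟨d', z', hd, hz', hr⟩ := nnq P hP z hz e he p hpp δ hpδ Q hQ hQo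
    exact ⟨hQ, hQo.2.1, d', z', hd, hz', hr.mono (Nat.mul_le_mul_left e (hδ2.trans hg))⟩
  · intro x hx hxP hxF
    obtain ⟨Q', hQ', hQm⟩ := point_prime x
    have hPQ : P ≤ Q' := fun F hF => (hQm F).2 fun k => hxP _ (hP.hom F hF k)
    have hFQ : F ∈ Q' := by
      rw [hQm]
      intro k
      rw [homogeneousComponent_of_mem (by rwa [mem_homogeneousSubmodule])]
      split_ifs
      · exact hxF
      · simp
    have hGQ : aeval z G ∈ Q' := by
      have h1 := Q'.add_mem (hPQ hGF) (Q'.mul_mem_left H hFQ)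
      simpa using h1
    obtain ⟨p, hp, hpI⟩ := hs3 (Q'.comap (aeval z : MvPolynomial (Fin (d + 1)) E →ₐ[E] _))
      (Ideal.comap_isPrime _ _) hGQ
    obtain ⟨hpp, δ, hδ1, hδ2, hpδ⟩ := hs2 p hp
    obtain ⟨Q, hQo, hQQ, hQh⟩ := going_down P hP z hz p hpp δ hpδ Q' hQ' hPQ hpI
    have hxQ : x ∈ Zeros Q := by
      intro F' hF'
      have h1 := (hQm F').1 (hQQ hF')
      rw [← sum_homogeneousComponent F', map_sum]
      exact Finset.sum_eq_zero fun k _ => h1 k
    have hQHP : HP Q := by
      refine ⟨hQo.1, hQh, ?_⟩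
      obtain ⟨w, hw⟩ : ∃ w, x w ≠ 0 := by
        by_contra hcon
        push Not at hcon
        exact hx (funext hcon)
      refine ⟨w, fun h => hw ?_⟩
      simpa using hxQ _ h
    refine ⟨Q, ?_, hxQ⟩
    rw [Finset.mem_biUnion]
    refine ⟨p, hp, ?_⟩
    simp only [hT, dif_pos hp, Set.Finite.mem_toFinset]
    exact ⟨hQo, hQHP⟩

end Pool.Agent.PW
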