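import Pool.Agent.PW.Minp

/-!
The norm of a form.
-/

open MvPolynomial Filter Topology

namespace Pool.Agent.PW

variable {E : Type*} [Field E] {W : Type*}

theorem norm_form (P : Ideal (MvPolynomial W E)) (hP : HP P) {d : ℕ}
    (z : Fin (d + 1) → MvPolynomial W E) (hz : NN P z) (e : ℕ) (he : RankLE P z e)
    (F : MvPolynomial W E) (D : ℕ) (hF : F.IsHomogeneous D) (hFP : F ∉ P) :
    ∃ (g : ℕ) (G : MvPolynomial (Fin (d + 1)) E) (H : MvPolynomial W E), g ≤ e * D ∧
      G.IsHomogeneous g ∧ G ≠ 0 ∧ aeval z G - H * F ∈ P := by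
  obtain ⟨k, hk, hke, A, hA, hrel, hI⟩ := minp P hP z hz e he F D hF
  obtain ⟨k, rfl⟩ : ∃ l, k = l + 1 := ⟨k - 1, by omega⟩
  -- the rest of the relation
  set H' : MvPolynomial W E := F ^ k + ∑ i : Fin k, aeval z (A i.succ) * F ^ (i : ℕ) with hH'
  have hsum : F ^ (k + 1) + ∑ i, aeval z (A i) * F ^ (i : ℕ) = aeval z (A 0) + H' * F := by
    rw [Fin.sum_univ_succ, hH', add_mul, Finset.sum_mul]
    have h1 : ∀ i : Fin k, aeval z (A i.succ) * F ^ ((i.succ : Fin (k + 1)) : ℕ) =
        aeval z (A i.succ) * F ^ (i : ℕ) * F := by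
      intro i
      rw [Fin.val_succ, pow_succ]
      ring
    rw [Finset.sum_congr rfl fun i _ => h1 i]
    simp only [Fin.val_zero, pow_zero, mul_one, pow_succ]
    ring
  rw [hsum] at hrel
  refine ⟨D * (k + 1), A 0, -H', ?_, ?_, ?_, ?_⟩
  · rw [mul_comm]
    exact Nat.mul_le_mul_right D hke
  · have := hA 0
    simpa using this
  · intro h0
    rw [h0, map_zero, zero_add] at hrel
    have h1 : H' ∈ P := (hP.prime.mem_or_mem hrel).resolve_right hFP
    have h2 := hI (Fin.snoc (fun i : Fin k => A i.succ) 1) (by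
      rw [Fin.sum_univ_castSucc]
      simp only [Fin.snoc_castSucc, Fin.snoc_last, Fin.val_castSucc, Fin.val_last, map_one,
        one_mul]
      rw [add_comm]
      exact h1)
    have h3 := congrFun h2 (Fin.last k)
    rw [Fin.snoc_last] at h3
    exact one_ne_zero h3
  · rw [neg_mul, sub_neg_eq_add]
    exact hrel

end Pool.Agent.PW
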